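import Pool.Agent.H30.DV.BL

/-!
# [H30 DV AV] Averages of coordinatewise null sequences are small

If `z n` is bounded and coordinatewise null in `ℓ_4`, then for all `N` and `ε > 0` there is a
nonempty finite set `s` of indices `≥ N` with `‖∑ n ∈ s, z n‖ ≤ ε * s.card`.

PROOF.  Choose inductively a finite set `s_m` of cardinality `m` of indices `≥ N` with
`‖∑ n ∈ s_m, z n‖⁴ ≤ m (C⁴ + 1)`: for the step apply `BL` with `x = ∑ n ∈ s_m, z n`: for all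
large `n` (also `n ∉ s_m`), `‖x + z n‖⁴ ≤ ‖z n‖⁴ + ‖x‖⁴ + 1 ≤ C⁴ + 1 + m (C⁴ + 1)`.
(`C ≥ ‖z 0‖ ≥ 0`, so `‖z n‖⁴ ≤ C⁴`.)
Finally choose `m ≥ 1` with `m (C⁴+1) ≤ (ε m)⁴` (i.e. `m³ ≥ (C⁴+1)/ε⁴`), take fourth roots
(`pow_le_pow_left` / `abs_le_of_sq_le`, `lt_of_pow_lt_pow_left`).
-/

namespace Pool.H30.DV

open Filter Topology

variable {𝕜 : Type} [RCLike 𝕜] {ι : Type}

theorem avg_small (z : ℕ → L4 𝕜 ι) (C : ℝ) (hC : ∀ n, ‖z n‖ ≤ C) (hz : CN z)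
    (N : ℕ) (ε : ℝ) (hε : 0 < ε) :
    ∃ s : Finset ℕ, s.Nonempty ∧ (∀ n ∈ s, N ≤ n) ∧ ‖∑ n ∈ s, z n‖ ≤ ε * s.card := by
  classical
  have key : ∀ m : ℕ, ∃ s : Finset ℕ, s.card = m ∧ (∀ n ∈ s, N ≤ n) ∧
      ‖∑ n ∈ s, z n‖ ^ 4 ≤ m * (C ^ 4 + 1) := by
    intro m
    induction m with
    | zero => exact ⟨∅, rfl, by simp, by simp⟩
    | succ m ih =>
      obtain ⟨s, hs1, hs2, hs3⟩ := ih
      have h1 := BL (∑ n ∈ s, z n) z C hC hz
      have h2 : ∀ᶠ n in atTop, ‖∑ n ∈ s, z n + z n‖ ^ 4 - ‖z n‖ ^ 4 <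
          ‖∑ n ∈ s, z n‖ ^ 4 + 1 := h1.eventually_lt_const (by linarith)
      have h3 : ∀ᶠ n in atTop, N ≤ n := eventually_ge_atTop N
      have h4 : ∀ᶠ n in atTop, n ∉ s := by
        filter_upwards [eventually_gt_atTop (s.sup id)] with n hn hns
        exact absurd (Finset.le_sup (f := id) hns) (not_le.mpr hn)
      obtain ⟨n, hn1, hn2, hn3⟩ := (h2.and (h3.and h4)).exists
      refine ⟨insert n s, ?_, ?_, ?_⟩
      · rw [Finset.card_insert_of_notMem hn3, hs1]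
      · intro k hk
        rcases Finset.mem_insert.mp hk with h | h
        · rw [h]; exact hn2
        · exact hs2 k h
      · rw [Finset.sum_insert hn3, add_comm]
        have h5 : ‖z n‖ ^ 4 ≤ C ^ 4 := pow_le_pow_left₀ (norm_nonneg _) (hC n) 4
        push_cast
        linarith
  -- choose m large
  have hpos : 0 < C ^ 4 + 1 := by positivity
  obtain ⟨m, hm⟩ := exists_nat_gt ((C ^ 4 + 1) / ε ^ 4)
  have hm0 : 0 < m := by
    rcases Nat.eq_zero_or_pos m with h | h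
    · rw [h] at hm
      have : (0 : ℝ) < (C ^ 4 + 1) / ε ^ 4 := by positivity
      push_cast at hm
      linarith
    · exact h
  obtain ⟨s, hs1, hs2, hs3⟩ := key m
  refine ⟨s, Finset.card_pos.mp (hs1 ▸ hm0), hs2, ?_⟩
  rw [hs1]
  have hm1 : (1 : ℝ) ≤ m := by exact_mod_cast hm0
  have h1 : C ^ 4 + 1 < m * ε ^ 4 := by
    rw [div_lt_iff₀ (by positivity)] at hm
    exact hm
  have h2 : ‖∑ n ∈ s, z n‖ ^ 4 ≤ (ε * m) ^ 4 := by
    calc ‖∑ n ∈ s, z n‖ ^ 4 ≤ m * (C ^ 4 + 1) := hs3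
      _ ≤ m * (m * ε ^ 4) := mul_le_mul_of_nonneg_left h1.le (by positivity)
      _ = ε ^ 4 * (m : ℝ) ^ 2 := by ring
      _ ≤ ε ^ 4 * (m : ℝ) ^ 4 := by
          apply mul_le_mul_of_nonneg_left _ (by positivity)
          exact pow_le_pow_right₀ hm1 (by norm_num)
      _ = (ε * m) ^ 4 := by ring
  exact (pow_le_pow_iff_left₀ (norm_nonneg _) (by positivity) (by norm_num)).mp h2

end Pool.H30.DV
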