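import Pool.Agent.H30.DV.Core

/-! Assembly: from families to points. -/

set_option linter.unusedSectionVars false

open Module Submodule H15 Pool.Agent.H7.DV

namespace H30.DV

variable {ι : Type*} [Fintype ι] {E : Type*} [AddCommGroup E] [Module ℝ E]
  [FiniteDimensional ℝ E] {v : ι → E} {m : ℕ}

/-- the restriction of a bound to a subfamily. -/
theorem bdd_sub (hb : Bdd v m) {G : Submodule ℝ E} {J : Set ι} [Fintype J]
    (hJ : ∀ i ∈ J, v i ∈ G) : Bdd (sub v G J hJ) m := by
  intro X Y hXY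
  have h1 := hb _ _ (sub_svec hXY)
  refine le_trans ?_ h1
  have h2 : (LL (sub v G J hJ) X Y).map G.subtype ≤
      LL v (Subtype.val '' X) (Subtype.val '' Y) := by
    refine le_inf ?_ ?_
    · rw [sub_sp (hJ := hJ)]; exact Submodule.map_mono inf_le_left
    · rw [sub_sp (hJ := hJ)]; exact Submodule.map_mono inf_le_right
  rw [(Submodule.equivMapOfInjective G.subtype Subtype.val_injective
    (LL (sub v G J hJ) X Y)).finrank_eq]
  exact finrank_mono h2

theorem sub_cnt {G : Submodule ℝ E} {J : Set ι} {hJ : ∀ i ∈ J, v i ∈ G} {n c : ℕ}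
    (h : ∀ G : Submodule ℝ E, finrank ℝ G ≤ n → {i | v i ∈ G}.ncard ≤ c + finrank ℝ G)
    (G' : Submodule ℝ G) (hG' : finrank ℝ G' ≤ n) :
    {i | sub v G J hJ i ∈ G'}.ncard ≤ c + finrank ℝ G' := by
  have h2 := (Submodule.equivMapOfInjective G.subtype Subtype.val_injective G').finrank_eq
  refine (sub_ncard_le G').trans ?_
  rw [h2]
  exact h _ (by rw [← h2]; exact hG')

theorem sub_span {G : Submodule ℝ E} {J : Set ι} {hJ : ∀ i ∈ J, v i ∈ G} (hG : G = sp v J) :
    sp (sub v G J hJ) Set.univ = ⊤ := by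
  have h1 : (sp (sub v G J hJ) Set.univ).map G.subtype = G := by
    rw [← sub_sp (hJ := hJ), Set.image_univ, Subtype.range_coe, hG]
  apply Submodule.map_injective_of_injective (f := G.subtype) Subtype.val_injective
  rw [h1, Submodule.map_top, Submodule.range_subtype]

/-- hypotheses on a family: simple, positive, flat condition. -/
structure Good (k : ℕ) (v : ι → E) : Prop where
  pos : ∃ h : E →ₗ[ℝ] ℝ, ∀ i, 0 < h (v i)
  np : ∀ G : Submodule ℝ E, finrank ℝ G ≤ 1 → {i | v i ∈ G}.ncard ≤ 1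
  fc : ∀ G : Submodule ℝ E, finrank ℝ G ≤ k + 1 → {i | v i ∈ G}.ncard ≤ k + finrank ℝ G

theorem Good.ne_zero {k : ℕ} (h : Good k v) (i : ι) : v i ≠ 0 := by
  obtain ⟨f, hf⟩ := h.pos
  intro h0
  have := hf i
  rw [h0, map_zero] at this
  exact lt_irrefl _ this

theorem Good.sub {k : ℕ} (h : Good k v) {G : Submodule ℝ E} {J : Set ι} [Fintype J]
    (hJ : ∀ i ∈ J, v i ∈ G) : Good k (H15.sub v G J hJ) where
  pos := by
    obtain ⟨f, hf⟩ := h.pos
    exact ⟨f.comp G.subtype, fun i => hf i⟩
  np := fun G' hG' => sub_bound h.np G' hG'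
  fc := fun G' hG' => sub_cnt h.fc G' hG'

theorem exists_out {G : Submodule ℝ E} (hG : G ≠ ⊤) (hs : sp v Set.univ = ⊤) : ∃ i, v i ∉ G := by
  by_contra hcon
  push Not at hcon
  apply hG
  rw [eq_top_iff, ← hs, sp_le]
  exact fun i _ => hcon i

/-- Lemma A: rank `k + 2`. -/
theorem lemmaA {k : ℕ} (hk : 4 ≤ k) (hv : Good k v) (hs : sp v Set.univ = ⊤)
    (hD : finrank ℝ E = k + 2) (hN : Fintype.card ι = 3 * k + 1) : ¬ Bdd v k := by
  have hne : Nonempty ι := by rw [← Fintype.card_pos_iff]; omega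
  have hc : Cosimple v := by
    intro i j
    by_contra hcon
    have h1 : finrank ℝ (sp v ({i, j}ᶜ)) ≤ k + 1 := by
      have := Submodule.finrank_lt (lt_top_iff_ne_top.2 hcon).ne
      omega
    have h2 := hv.fc _ h1
    have h3 : ({i, j}ᶜ : Set ι) ⊆ {l | v l ∈ sp v ({i, j}ᶜ)} := fun l hl => mem_sp hl
    have h4 := Set.ncard_le_ncard h3 (Set.toFinite _)
    have h5 := Set.ncard_add_ncard_compl ({i, j} : Set ι)
    have h6 : ({i, j} : Set ι).ncard ≤ 2 := by
      have := Set.ncard_insert_le i ({j} : Set ι)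
      rwa [Set.ncard_singleton] at this
    rw [Nat.card_eq_fintype_card] at h5
    omega
  refine core_rel hk hc hv.ne_zero hD hN ⟨Classical.arbitrary ι, fun G hG => ?_⟩
    (fun G hG => hv.fc G (by omega))
  exact (Set.ncard_le_ncard (fun i hi => hi.2) (Set.toFinite _)).trans (hv.np G hG)

/-- Lemma A': a subset of size at least `3k+1` of rank at most `k+2`. -/
theorem lemmaA' {k : ℕ} (hk : 4 ≤ k) (hv : Good k v) {J : Set ι} (hJ : 3 * k + 1 ≤ J.ncard)
    (hr : finrank ℝ (sp v J) ≤ k + 2) : ¬ Bdd v k := by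
  classical
  intro hb
  obtain ⟨J', hJ'J, hJ'⟩ := Set.exists_subset_card_eq hJ
  have hle := finrank_mono (R := ℝ) (sp_mono (v := v) hJ'J)
  have hmem : ∀ i ∈ J', v i ∈ sp v J' := fun i hi => mem_sp hi
  have hr' : finrank ℝ (sp v J') = k + 2 := by
    by_contra hne
    have h1 := hv.fc (sp v J') (by omega)
    have h2 : J'.ncard ≤ {i | v i ∈ sp v J'}.ncard :=
      Set.ncard_le_ncard (fun i hi => hmem i hi) (Set.toFinite _)
    omega
  have hcard : Fintype.card J' = J'.ncard := by
    rw [← Nat.card_eq_fintype_card]; rfl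
  exact lemmaA hk (hv.sub hmem) (sub_span rfl) hr' (by rw [hcard, hJ']) (bdd_sub hb hmem)

/-- Lemma B: rank `k + 3`. -/
theorem lemmaB {k : ℕ} (hk : 4 ≤ k) (hv : Good k v) (hs : sp v Set.univ = ⊤)
    (hD : finrank ℝ E = k + 3) (hN : Fintype.card ι = 3 * k + 2) : ¬ Bdd v k := by
  classical
  intro hb
  have hne : Nonempty ι := by rw [← Fintype.card_pos_iff]; omega
  by_cases hcl : ∀ i, sp v ({i}ᶜ) = ⊤
  · by_cases hc : Cosimple v
    · exact core_cos hk ⟨hc, hv.pos, hv.np⟩ hD hN hv.fc hb
    · unfold Cosimple at hc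
      push Not at hc
      obtain ⟨p, q, hpq⟩ := hc
      have hne' : p ≠ q := by
        rintro rfl
        rw [Set.pair_eq_singleton] at hpq
        exact hpq (hcl p)
      obtain ⟨h1, h2, h3, h4, -⟩ := contract_core hk hD hN hv.np hv.ne_zero hv.fc hne' hcl hpq
      have hnp : Nonempty {i : ι // i ≠ p} := ⟨⟨q, hne'.symm⟩⟩
      refine core_rel hk h1 h2 ?_ ?_ h3 h4 (bdd_contract hb (hv.ne_zero p))
      · have := Submodule.finrank_quotient_add_finrank (span ℝ {v p})
        rw [finrank_span_singleton (hv.ne_zero p)] at this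
        omega
      · rw [Fintype.card_subtype_compl, Fintype.card_subtype_eq, hN]
        rfl
  · push Not at hcl
    obtain ⟨i, hi⟩ := hcl
    refine lemmaA' hk hv (J := {i}ᶜ) ?_ ?_ hb
    · have h5 := Set.ncard_add_ncard_compl ({i} : Set ι)
      rw [Nat.card_eq_fintype_card, Set.ncard_singleton] at h5
      omega
    · have := Submodule.finrank_lt (lt_top_iff_ne_top.2 hi).ne
      omega

/-- the family theorem. -/
theorem family_bound {k : ℕ} (hk : 4 ≤ k) (hv : Good k v)
    (hD : finrank ℝ E = k + 3) (hN : Fintype.card ι = 3 * k + 2) : ¬ Bdd v k := by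
  by_cases hs : sp v Set.univ = ⊤
  · exact lemmaB hk hv hs hD hN
  · refine lemmaA' hk hv (J := Set.univ) ?_ ?_
    · rw [Set.ncard_univ, Nat.card_eq_fintype_card]; omega
    · have := Submodule.finrank_lt (lt_top_iff_ne_top.2 hs).ne
      omega

/-- the flat condition for all ranks at most `k + 1`. -/
theorem fc_of_flat' {k : ℕ} (hkE : k + 1 ≤ finrank ℝ E) (hcard : 2 * k + 2 ≤ Fintype.card ι)
    (hflat : ∀ G : Submodule ℝ E, finrank ℝ G = k + 1 → {i | v i ∈ G}.ncard ≤ 2 * k + 1) :
    ∀ G : Submodule ℝ E, finrank ℝ G ≤ k + 1 → {i | v i ∈ G}.ncard ≤ k + finrank ℝ G := by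
  have main : ∀ j : ℕ, ∀ G : Submodule ℝ E, finrank ℝ G + j = k + 1 →
      {i | v i ∈ G}.ncard ≤ k + finrank ℝ G := by
    intro j
    induction j with
    | zero =>
      intro G hG
      have := hflat G (by omega)
      omega
    | succ j ih =>
      intro G hG
      obtain ⟨i, hi⟩ : ∃ i, v i ∉ G := by
        by_contra hcon
        push Not at hcon
        obtain ⟨G', hGG', hG'⟩ : ∃ G' : Submodule ℝ E, G ≤ G' ∧ finrank ℝ G' = k + 1 := by
          have key : ∀ n : ℕ, ∀ G : Submodule ℝ E, finrank ℝ G + n = k + 1 →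
              ∃ G' : Submodule ℝ E, G ≤ G' ∧ finrank ℝ G' = k + 1 := by
            intro n
            induction n with
            | zero => intro G hG; exact ⟨G, le_rfl, by omega⟩
            | succ n ih' =>
              intro G hG
              have hne : G ≠ ⊤ := by
                rintro rfl
                rw [finrank_top] at hG
                omega
              obtain ⟨x, hx⟩ : ∃ x, x ∉ G := by
                by_contra hcon
                push Not at hcon
                exact hne (eq_top_iff.2 fun x _ => hcon x)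
              have h1 := finrank_sup_singleton hx
              obtain ⟨G', h2, h3⟩ := ih' _ (by rw [h1]; omega)
              exact ⟨G', le_sup_right.trans h2, h3⟩
          exact key _ G hG
        have h1 := hflat G' hG'
        have h2 : {i | v i ∈ G'} = Set.univ := by
          ext i; simp [hGG' (hcon i)]
        rw [h2, Set.ncard_univ, Nat.card_eq_fintype_card] at h1
        omega
      have h1 := finrank_sup_singleton hi
      have h2 := ih _ (by rw [h1]; omega)
      have h3 : insert i {i | v i ∈ G} ⊆ {j | v j ∈ span ℝ {v i} ⊔ G} := by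
        rintro j (rfl | hj)
        · exact mem_sup_left (mem_span_singleton_self _)
        · exact mem_sup_right hj
      have h4 := Set.ncard_le_ncard h3 (Set.toFinite _)
      rw [Set.ncard_insert_of_notMem (a := i) (s := {i | v i ∈ G}) hi] at h4
      omega
  intro G hG
  exact main (k + 1 - finrank ℝ G) G (by omega)

theorem np_of_one (h : E →ₗ[ℝ] ℝ) (hone : ∀ i, h (v i) = 1) (hinj : Function.Injective v) :
    ∀ G : Submodule ℝ E, finrank ℝ G ≤ 1 → {i | v i ∈ G}.ncard ≤ 1 := by
  intro G hG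
  rw [Set.ncard_le_one (Set.toFinite _)]
  intro i hi j hj
  obtain ⟨w, hw⟩ := finrank_le_one_iff.1 hG
  obtain ⟨a, ha⟩ := hw ⟨_, hi⟩
  obtain ⟨b, hb⟩ := hw ⟨_, hj⟩
  have ha' : a • (w : E) = v i := congrArg (fun z : G => (z : E)) ha
  have hb' : b • (w : E) = v j := congrArg (fun z : G => (z : E)) hb
  have h1 := hone i
  have h2 := hone j
  rw [← ha', map_smul, smul_eq_mul] at h1
  rw [← hb', map_smul, smul_eq_mul] at h2
  have hw0 : h (w : E) ≠ 0 := by
    intro h0
    rw [h0, mul_zero] at h1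
    exact zero_ne_one h1
  have hab : a = b := mul_right_cancel₀ hw0 (h1.trans h2.symm)
  apply hinj
  rw [← ha', ← hb', hab]

/-- points. -/
theorem divisible_diag {k : ℕ} (hk : 4 ≤ k) (S : Finset (EuclideanSpace ℝ (Fin (k + 2))))
    (hS : FlatCondition k S) (hcard : 3 * k + 2 ≤ S.card) : Divisible k S := by
  classical
  have hd' : finrank ℝ (EuclideanSpace ℝ (Fin (k + 2)) × ℝ) = k + 3 := by simp
  let h : EuclideanSpace ℝ (Fin (k + 2)) × ℝ →ₗ[ℝ] ℝ := LinearMap.snd ℝ _ ℝ
  obtain ⟨S0, hS0S, hS0⟩ := Finset.exists_subset_card_eq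
    (show 3 * k + 2 ≤ (S.map (hom _)).card by rw [Finset.card_map]; exact hcard)
  have hone : ∀ x ∈ S0, h x = 1 := by
    intro x hx
    obtain ⟨y, -, rfl⟩ := Finset.mem_map.1 (hS0S hx)
    rfl
  have hmem : ∀ x ∈ S0, x ∈ (⊤ : Submodule ℝ (EuclideanSpace ℝ (Fin (k + 2)) × ℝ)) :=
    fun _ _ => mem_top
  have hDt : finrank ℝ (⊤ : Submodule ℝ (EuclideanSpace ℝ (Fin (k + 2)) × ℝ)) = k + 3 := by
    rw [finrank_top, hd']
  have hcard0 : Fintype.card S0 = 3 * k + 2 := by rw [Fintype.card_coe, hS0]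
  have hgood : Good k (fam S0 ⊤ hmem) := by
    refine ⟨⟨h.comp (Submodule.subtype _), fun i => ?_⟩, ?_, ?_⟩
    · change 0 < h (i : EuclideanSpace ℝ (Fin (k + 2)) × ℝ)
      rw [hone i i.2]; norm_num
    · exact np_of_one (h.comp (Submodule.subtype _)) (fun i => hone i i.2) (by
        intro i j hij
        have h3 : (Submodule.subtype ⊤) (fam S0 ⊤ hmem i) =
          (Submodule.subtype ⊤) (fam S0 ⊤ hmem j) := by rw [hij]
        exact Subtype.ext h3)
    · refine fc_of_flat' (by omega) (by omega) ?_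
      intro G hG
      have h1 := flat_linear S hS (G.map (Submodule.subtype _)) (by
        rw [← (Submodule.equivMapOfInjective (Submodule.subtype _) Subtype.val_injective G).finrank_eq, hG])
        (S0.filter (· ∈ G.map (Submodule.subtype _))) ((Finset.filter_subset _ _).trans hS0S)
        (fun x hx => (Finset.mem_filter.1 hx).2)
      refine le_trans ?_ h1
      rw [← Set.ncard_coe_finset, ← Set.ncard_image_of_injective _
        (Subtype.val_injective (p := (· ∈ S0)))]
      refine Set.ncard_le_ncard ?_ (Set.toFinite _)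
      rintro _ ⟨i, hi, rfl⟩
      exact Finset.mem_coe.2 (Finset.mem_filter.2 ⟨i.2, ⟨_, hi, rfl⟩⟩)
  obtain ⟨T, hT, c, hc, hcT⟩ := fullDep_of_not_bdd (family_bound hk hgood hDt hcard0)
  exact divisible_of_fullDep S T (hT.trans hS0S) c hc hcT

end H30.DV
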