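import Pool.Agent.H30.DV.VB

/-!
# [H30 DV BB] The increments of Davie's functionals

PROOF.  `beta (k+1) T = 2^{-(k+2)} ∑_j fa (k+1) j (T v (k+1) j)
  = 2^{-(k+2)} 2^{-(k+3)} ∑_g ∑_j τ (k+1) j g (T v (k+1) j)⟨k+1, g⟩` and, by `fa_eq_fb` (applied to
`f = T (vX k j) ∈ XD`),
`beta k T = 2^{-(k+1)} ∑_j fb k j (T v k j) = 2^{-(k+1)} 2^{-(k+3)} ∑_g ∑_j σ (k+1) j g (T v k j)⟨k+1,g⟩`.
By linearity of `T` and of the evaluation at `⟨k+1,g⟩` the difference is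
`2^{-(k+3)} ∑_g (T (Φ k g))⟨k+1, g⟩` (exchange the two finite sums, `Finset.sum_comm`;
`map_sub`, `map_smul`, `map_sum`). The bound: `|(T (Φ k g)) ⟨k+1,g⟩| ≤ ‖T (Φ k g)‖`
(`norm_apply_le`).
-/

namespace Pool.H30.DV

variable (𝕜 : Type) [RCLike 𝕜] (d : DD)

private noncomputable def bb_ev (k : ℕ) (g : Fin (2 ^ (k + 1 + 2))) (T : XD 𝕜 d →L[𝕜] XD 𝕜 d) :
    XD 𝕜 d →ₗ[𝕜] 𝕜 where
  toFun f := (T f : L4 𝕜 J) ⟨k + 1, g⟩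
  map_add' x y := by
    rw [map_add, Submodule.coe_add, lp.coeFn_add, Pi.add_apply]
  map_smul' c x := by
    rw [map_smul, Submodule.coe_smul, lp.coeFn_smul, Pi.smul_apply, RingHom.id_apply]

private theorem bb_id (k : ℕ) (T : XD 𝕜 d →L[𝕜] XD 𝕜 d) :
    beta 𝕜 d (k + 1) T - beta 𝕜 d k T =
      ((2 : 𝕜) ^ (k + 1 + 2))⁻¹ * ∑ g : Fin (2 ^ (k + 1 + 2)), bb_ev 𝕜 d k g T (Phi 𝕜 d k g) := by
  have h1 : beta 𝕜 d (k + 1) T = ((2 : 𝕜) ^ (k + 2))⁻¹ * ∑ j : Fin (2 ^ (k + 1 + 1)),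
      ((2 : 𝕜) ^ (k + 1 + 2))⁻¹ * ∑ g : Fin (2 ^ (k + 1 + 2)),
        ((d.τ (k + 1) j g : ℝ) : 𝕜) * bb_ev 𝕜 d k g T (vX 𝕜 d (k + 1) j) := rfl
  have h2 : beta 𝕜 d k T = ((2 : 𝕜) ^ (k + 1))⁻¹ * ∑ j : Fin (2 ^ (k + 1)),
      ((2 : 𝕜) ^ (k + 1 + 2))⁻¹ * ∑ g : Fin (2 ^ (k + 1 + 2)),
        ((d.σ (k + 1) j g : ℝ) : 𝕜) * bb_ev 𝕜 d k g T (vX 𝕜 d k j) := by
    unfold beta
    congr 1
    refine Finset.sum_congr rfl fun j _ => ?_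
    rw [fa_eq_fb 𝕜 d k j _ (T (vX 𝕜 d k j)).2]
    rfl
  have h3 : ∀ g : Fin (2 ^ (k + 1 + 2)), bb_ev 𝕜 d k g T (Phi 𝕜 d k g) =
      ((2 : 𝕜) ^ (k + 2))⁻¹ * ∑ j : Fin (2 ^ (k + 1 + 1)),
        ((d.τ (k + 1) j g : ℝ) : 𝕜) * bb_ev 𝕜 d k g T (vX 𝕜 d (k + 1) j) -
      ((2 : 𝕜) ^ (k + 1))⁻¹ * ∑ j : Fin (2 ^ (k + 1)),
        ((d.σ (k + 1) j g : ℝ) : 𝕜) * bb_ev 𝕜 d k g T (vX 𝕜 d k j) := by
    intro g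
    unfold Phi
    rw [map_sub, map_smul, map_smul, map_sum, map_sum, smul_eq_mul, smul_eq_mul]
    simp_rw [map_smul, smul_eq_mul]
  simp_rw [h3]
  rw [h1, h2, Finset.sum_sub_distrib, mul_sub]
  simp_rw [← Finset.mul_sum]
  rw [Finset.sum_comm (s := (Finset.univ : Finset (Fin (2 ^ (k + 1 + 2)))))
      (t := (Finset.univ : Finset (Fin (2 ^ (k + 1 + 1))))),
    Finset.sum_comm (s := (Finset.univ : Finset (Fin (2 ^ (k + 1 + 2)))))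
      (t := (Finset.univ : Finset (Fin (2 ^ (k + 1)))))]
  ring

theorem beta_step (k : ℕ) (T : XD 𝕜 d →L[𝕜] XD 𝕜 d) :
    ‖beta 𝕜 d (k + 1) T - beta 𝕜 d k T‖ ≤
      ((2 : ℝ) ^ (k + 1 + 2))⁻¹ * ∑ g : Fin (2 ^ (k + 1 + 2)), ‖T (Phi 𝕜 d k g)‖ := by
  rw [bb_id, norm_mul, norm_inv, norm_pow, RCLike.norm_ofNat]
  apply mul_le_mul_of_nonneg_left _ (by positivity)
  refine (norm_sum_le _ _).trans (Finset.sum_le_sum fun g _ => ?_)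
  exact norm_apply_le (T (Phi 𝕜 d k g) : L4 𝕜 J) _

end Pool.H30.DV
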