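import Pool.Agent.H30.DV.AV

/-!
# [H30 DV WN] Compact operators kill coordinatewise null sequences

`X` is a subspace (not necessarily closed) of `ℓ_4`, `K : X → Y` a compact operator into a normed
space, `z n ∈ X` bounded and coordinatewise null. Then `K (z n) → 0` in norm.

PROOF.  Suppose not: there are `δ > 0` and a strictly increasing `φ` with `‖K (z (φ n))‖ ≥ δ`
(`Filter.extraction_of_frequently_atTop`, `Metric.tendsto_atTop`). All `K (z n)` lie in a set with
compact closure: `IsCompactOperator.isCompact_closure_image_closedBall` (for the closed ball of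
radius `C`), so (`IsCompact.tendsto_subseq`) there are a strictly increasing `ψ` and `y` with
`K (z (φ (ψ n))) → y`, `‖y‖ ≥ δ`. Let `w n = z (φ (ψ n))`, again bounded and coordinatewise null
(`CN.comp`). Choose `N` with `‖K (w n) - y‖ ≤ δ/4` for `n ≥ N`. By `avg_small` (for the sequence
`(w n : ℓ_4)`), with `ε > 0` such that `‖K‖ ε ≤ δ/4`, there is a nonempty finite `s` of indices
`≥ N` with `‖∑ n ∈ s, w n‖ ≤ ε |s|`. Then `‖∑ K (w n)‖ = ‖K (∑ w n)‖ ≤ ‖K‖ ε |s| ≤ δ|s|/4`, and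
`‖∑_{n ∈ s} K (w n) - |s| • y‖ ≤ |s| δ/4`; so `|s| ‖y‖ ≤ |s| δ/2`, contradiction with `‖y‖ ≥ δ`.
-/

namespace Pool.H30.DV

open Filter Topology

variable {𝕜 : Type} [RCLike 𝕜] {ι : Type}

theorem compact_null (X : Submodule 𝕜 (L4 𝕜 ι)) {Y : Type} [NormedAddCommGroup Y]
    [NormedSpace 𝕜 Y] (K : X →L[𝕜] Y) (hK : IsCompactOperator K)
    (z : ℕ → X) (C : ℝ) (hC : ∀ n, ‖z n‖ ≤ C) (hz : CN (fun n => (z n : L4 𝕜 ι))) :
    Tendsto (fun n => ‖K (z n)‖) atTop (𝓝 0) := by
  classical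
  by_contra hcon
  rw [Metric.tendsto_atTop] at hcon
  push Not at hcon
  obtain ⟨δ, hδ, hfr⟩ := hcon
  have hfreq : ∃ᶠ n in atTop, δ ≤ ‖K (z n)‖ := by
    rw [frequently_atTop]
    intro a
    obtain ⟨n, hn1, hn2⟩ := hfr a
    refine ⟨n, hn1, ?_⟩
    rwa [Real.dist_eq, sub_zero, abs_of_nonneg (norm_nonneg _)] at hn2
  obtain ⟨φ, hφ, hφδ⟩ := extraction_of_frequently_atTop hfreq
  have hcomp : IsCompact (closure (K '' Metric.closedBall (0 : X) C)) :=
    hK.isCompact_closure_image_closedBall C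
  have hmem : ∀ n, K (z (φ n)) ∈ closure (K '' Metric.closedBall (0 : X) C) := by
    intro n
    apply subset_closure
    refine ⟨z (φ n), ?_, rfl⟩
    rw [Metric.mem_closedBall, dist_zero_right]
    exact hC _
  obtain ⟨y, -, ψ, hψ, hlim⟩ := hcomp.tendsto_subseq hmem
  have hy : δ ≤ ‖y‖ := by
    refine ge_of_tendsto hlim.norm (Eventually.of_forall (fun n => ?_))
    exact hφδ (ψ n)
  let w : ℕ → X := fun n => z (φ (ψ n))
  have hwC : ∀ n, ‖(w n : L4 𝕜 ι)‖ ≤ C := fun n => hC _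
  have hw : CN (fun n => (w n : L4 𝕜 ι)) := CN.comp hz (hφ.comp hψ)
  have hlim' : Tendsto (fun n => K (w n)) atTop (𝓝 y) := hlim
  obtain ⟨N, hN⟩ := (Metric.tendsto_atTop.mp hlim') (δ / 4) (by positivity)
  have hε : 0 < δ / (4 * (‖K‖ + 1)) := by positivity
  obtain ⟨s, hs1, hs2, hs3⟩ := avg_small (fun n => (w n : L4 𝕜 ι)) C hwC hw N _ hε
  have hcard : (0 : ℝ) < s.card := by exact_mod_cast Finset.card_pos.mpr hs1
  have h1 : ‖∑ n ∈ s, w n‖ ≤ δ / (4 * (‖K‖ + 1)) * s.card := by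
    have : ‖((∑ n ∈ s, w n : X) : L4 𝕜 ι)‖ ≤ δ / (4 * (‖K‖ + 1)) * s.card := by
      rw [Submodule.coe_sum]
      exact hs3
    exact this
  have h2 : ‖∑ n ∈ s, K (w n)‖ ≤ δ / 4 * s.card := by
    rw [← map_sum]
    calc ‖K (∑ n ∈ s, w n)‖ ≤ ‖K‖ * ‖∑ n ∈ s, w n‖ := K.le_opNorm _
      _ ≤ ‖K‖ * (δ / (4 * (‖K‖ + 1)) * s.card) :=
          mul_le_mul_of_nonneg_left h1 (norm_nonneg K)
      _ = (δ / 4 * s.card) * (‖K‖ / (‖K‖ + 1)) := by field_simp
      _ ≤ (δ / 4 * s.card) * 1 := by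
          apply mul_le_mul_of_nonneg_left _ (by positivity)
          rw [div_le_one (by positivity)]
          linarith
      _ = δ / 4 * s.card := mul_one _
  have h3 : ‖∑ n ∈ s, K (w n) - (s.card : 𝕜) • y‖ ≤ δ / 4 * s.card := by
    have h4 : ∑ n ∈ s, K (w n) - (s.card : 𝕜) • y = ∑ n ∈ s, (K (w n) - y) := by
      rw [Finset.sum_sub_distrib, Finset.sum_const, Nat.cast_smul_eq_nsmul 𝕜]
    rw [h4]
    calc ‖∑ n ∈ s, (K (w n) - y)‖ ≤ ∑ n ∈ s, ‖K (w n) - y‖ := norm_sum_le _ _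
      _ ≤ ∑ n ∈ s, δ / 4 := by
          refine Finset.sum_le_sum (fun n hn => ?_)
          have := hN n (hs2 n hn)
          rw [dist_eq_norm] at this
          exact this.le
      _ = δ / 4 * s.card := by rw [Finset.sum_const, nsmul_eq_mul]; ring
  have h5 : ‖(s.card : 𝕜) • y‖ = s.card * ‖y‖ := by
    rw [norm_smul, RCLike.norm_natCast]
  have h6 : ‖(s.card : 𝕜) • y‖ ≤ δ / 4 * s.card + δ / 4 * s.card := by
    have := norm_sub_norm_le ((s.card : 𝕜) • y) (∑ n ∈ s, K (w n))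
    rw [norm_sub_rev] at this
    linarith
  rw [h5] at h6
  nlinarith

/-- In particular functionals tend to zero along coordinatewise null bounded sequences (finite
rank operators are compact; `Y = 𝕜` is finite dimensional, hence a locally compact space). -/
theorem functional_null (X : Submodule 𝕜 (L4 𝕜 ι)) (φ : X →L[𝕜] 𝕜)
    (z : ℕ → X) (C : ℝ) (hC : ∀ n, ‖z n‖ ≤ C) (hz : CN (fun n => (z n : L4 𝕜 ι))) :
    Tendsto (fun n => φ (z n)) atTop (𝓝 0) := by
  have hK : IsCompactOperator φ := by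
    refine ⟨Metric.closedBall 0 1, isCompact_closedBall 0 1, ?_⟩
    have h0 : (0 : 𝕜) = φ 0 := (map_zero φ).symm
    refine φ.continuous.continuousAt.preimage_mem_nhds ?_
    rw [← h0]
    exact Metric.closedBall_mem_nhds 0 one_pos
  exact tendsto_zero_iff_norm_tendsto_zero.mpr (compact_null X φ hK z C hC hz)

/-- A bounded operator maps bounded coordinatewise null sequences of `X` to coordinatewise null
sequences (apply `functional_null` to the composition with a coordinate functional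
`f ↦ f i`, which is bounded by `norm_apply_le`). -/
theorem CN_map (X : Submodule 𝕜 (L4 𝕜 ι)) (T : X →L[𝕜] X)
    (z : ℕ → X) (C : ℝ) (hC : ∀ n, ‖z n‖ ≤ C) (hz : CN (fun n => (z n : L4 𝕜 ι))) :
    CN (fun n => (T (z n) : L4 𝕜 ι)) := by
  intro i
  let ev : L4 𝕜 ι →L[𝕜] 𝕜 := LinearMap.mkContinuous
    { toFun := fun f => f i
      map_add' := fun f g => rfl
      map_smul' := fun c f => rfl } 1 (fun f => by
        rw [one_mul]
        exact norm_apply_le f i)
  exact functional_null X ((ev.comp X.subtypeL).comp T) z C hC hz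

end Pool.H30.DV
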