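import Pool.Agent.H30.DV.EX
import Pool.Agent.H30.DV.WN

/-!
# [H30 DV BD] Operators with small essential norm attain their norm

`X` closed subspace of `ℓ_4(ι)`, `T, K : X → X` bounded, `K` compact, `‖T - K‖ < ‖T‖`. Then `T`
attains its norm.

PROOF.  Let `t = ‖T‖ > 0`, `q = ‖T - K‖ < t`. Choose `x n ∈ X` with `‖x n‖ = 1` and
`‖T (x n)‖ → t` (from `ContinuousLinearMap.opNorm` as a supremum: for every `r < t` there is `x`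
with `r ‖x‖ < ‖T x‖` by `ContinuousLinearMap.opNorm_le_bound`/`exists_lt_apply_of_lt_opNorm`,
then normalise). By `extract` (`C = 1`), after passing to a subsequence, `x n = y + z n` with
`y ∈ X`, `‖y‖ ≤ 1`, `z n = x n - y ∈ X` bounded by `2` and coordinatewise null.
`T z n` is bounded and coordinatewise null (`CN_map`). By `BL` (with base point `y`, resp. `T y`)
`‖x n‖⁴ - ‖z n‖⁴ → ‖y‖⁴`, i.e. `‖z n‖⁴ → 1 - ‖y‖⁴`, and `‖T x n‖⁴ - ‖T z n‖⁴ → ‖T y‖⁴`, i.e.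
`‖T z n‖⁴ → t⁴ - ‖T y‖⁴`. Now `‖T z n‖ ≤ ‖(T-K) z n‖ + ‖K z n‖ ≤ q ‖z n‖ + o(1)` by
`compact_null`, hence in the limit `t⁴ - ‖T y‖⁴ ≤ q⁴ (1 - ‖y‖⁴)`
(`‖z n‖ → (1-‖y‖⁴)^{1/4}` by continuity of the fourth root, or compare fourth powers:
`(q a + b)⁴ ≤ q⁴a⁴ + O(b)` for bounded `a, b ≥ 0`). Since `‖T y‖ ≤ t ‖y‖`:
`t⁴ (1 - ‖y‖⁴) ≤ q⁴ (1 - ‖y‖⁴)`, and `q < t` forces `‖y‖⁴ ≥ 1`, so `‖y‖ = 1`, and then
`t⁴ ≤ ‖T y‖⁴`, i.e. `‖T y‖ = t`.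
-/

namespace Pool.H30.DV

open Filter Topology

variable {𝕜 : Type} [RCLike 𝕜] {ι : Type}

theorem attains_of_essential [Countable ι] (X : Submodule 𝕜 (L4 𝕜 ι))
    (hX : IsClosed (X : Set (L4 𝕜 ι))) (T K : X →L[𝕜] X) (hK : IsCompactOperator K)
    (h : ‖T - K‖ < ‖T‖) : Attains T := by
  have h1 : ∀ n : ℕ, ∃ x : X, ‖x‖ < 1 ∧ ‖T‖ - 1 / ((n : ℝ) + 1) < ‖T x‖ := fun n =>
    T.exists_lt_apply_of_lt_opNorm (by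
      have : (0 : ℝ) < 1 / ((n : ℝ) + 1) := by positivity
      linarith)
  choose x hx1 hx2 using h1
  obtain ⟨ψ, y, hψ, hy, hCN⟩ := extract X hX x 1 (fun n => (hx1 n).le)
  set z : ℕ → X := fun n => x (ψ n) - y with hzdef
  have hz2 : ∀ n, ‖z n‖ ≤ 2 := fun n =>
    (norm_sub_le _ _).trans (by linarith [(hx1 (ψ n)).le])
  have hxz : ∀ n, x (ψ n) = y + z n := fun n => (add_sub_cancel y (x (ψ n))).symm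
  -- Brezis-Lieb at y
  have hBy : Tendsto (fun n => ‖x (ψ n)‖ ^ 4 - ‖z n‖ ^ 4) atTop (𝓝 (‖y‖ ^ 4)) := by
    have h2 := BL (y : L4 𝕜 ι) (fun n => (z n : L4 𝕜 ι)) 2 hz2 hCN
    refine h2.congr (fun n => ?_)
    rw [hxz n]
    rfl
  have hTz2 : ∀ n, ‖T (z n)‖ ≤ ‖T‖ * 2 := fun n =>
    (T.le_opNorm _).trans (mul_le_mul_of_nonneg_left (hz2 n) (norm_nonneg T))
  have hBT : Tendsto (fun n => ‖T (x (ψ n))‖ ^ 4 - ‖T (z n)‖ ^ 4) atTop (𝓝 (‖T y‖ ^ 4)) := by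
    have h2 := BL (T y : L4 𝕜 ι) (fun n => (T (z n) : L4 𝕜 ι)) (‖T‖ * 2) hTz2
      (CN_map X T z 2 hz2 hCN)
    refine h2.congr (fun n => ?_)
    rw [hxz n, map_add]
    rfl
  have hTx : Tendsto (fun n => ‖T (x (ψ n))‖) atTop (𝓝 ‖T‖) := by
    have h5 : Tendsto (fun n : ℕ => 1 / ((n : ℝ) + 1)) atTop (𝓝 0) :=
      tendsto_one_div_add_atTop_nhds_zero_nat
    have h6 := (h5.comp hψ.tendsto_atTop).const_sub ‖T‖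
    rw [sub_zero] at h6
    refine tendsto_of_tendsto_of_tendsto_of_le_of_le h6 tendsto_const_nhds ?_ ?_
    · intro n
      exact (hx2 (ψ n)).le
    · intro n
      calc ‖T (x (ψ n))‖ ≤ ‖T‖ * ‖x (ψ n)‖ := T.le_opNorm _
        _ ≤ ‖T‖ * 1 := mul_le_mul_of_nonneg_left (hx1 (ψ n)).le (norm_nonneg T)
        _ = ‖T‖ := mul_one _
  have hTz : Tendsto (fun n => ‖T (z n)‖ ^ 4) atTop (𝓝 (‖T‖ ^ 4 - ‖T y‖ ^ 4)) := by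
    refine ((hTx.pow 4).sub hBT).congr (fun n => ?_)
    ring
  have hb : Tendsto (fun n => ‖K (z n)‖) atTop (𝓝 0) := compact_null X K hK z 2 hz2 hCN
  obtain ⟨q, hq⟩ : ∃ q, q = ‖T - K‖ := ⟨_, rfl⟩
  have hq0 : 0 ≤ q := hq ▸ norm_nonneg (T - K)
  have hE : Tendsto (fun n => ‖K (z n)‖ * (4 * (q * 2) ^ 3 + 6 * (q * 2) ^ 2 * ‖K (z n)‖ +
      4 * (q * 2) * ‖K (z n)‖ ^ 2 + ‖K (z n)‖ ^ 3)) atTop (𝓝 0) := by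
    have h2 : Tendsto (fun n => ‖K (z n)‖ * (4 * (q * 2) ^ 3 + 6 * (q * 2) ^ 2 * ‖K (z n)‖ +
      4 * (q * 2) * ‖K (z n)‖ ^ 2 + ‖K (z n)‖ ^ 3)) atTop (𝓝 (0 * (4 * (q * 2) ^ 3 +
        6 * (q * 2) ^ 2 * 0 + 4 * (q * 2) * 0 ^ 2 + 0 ^ 3))) :=
      hb.mul (((tendsto_const_nhds.add (hb.const_mul _)).add ((hb.pow 2).const_mul _)).add
        (hb.pow 3))
    rwa [zero_mul] at h2
  have hR : Tendsto (fun n => q ^ 4 * (1 - (‖x (ψ n)‖ ^ 4 - ‖z n‖ ^ 4)) +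
      ‖K (z n)‖ * (4 * (q * 2) ^ 3 + 6 * (q * 2) ^ 2 * ‖K (z n)‖ +
      4 * (q * 2) * ‖K (z n)‖ ^ 2 + ‖K (z n)‖ ^ 3)) atTop (𝓝 (q ^ 4 * (1 - ‖y‖ ^ 4) + 0)) :=
    ((hBy.const_sub 1).const_mul _).add hE
  have hkey : ∀ n, ‖T (z n)‖ ^ 4 ≤ q ^ 4 * (1 - (‖x (ψ n)‖ ^ 4 - ‖z n‖ ^ 4)) +
      ‖K (z n)‖ * (4 * (q * 2) ^ 3 + 6 * (q * 2) ^ 2 * ‖K (z n)‖ +
      4 * (q * 2) * ‖K (z n)‖ ^ 2 + ‖K (z n)‖ ^ 3) := by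
    intro n
    have h2 : ‖T (z n)‖ ≤ q * ‖z n‖ + ‖K (z n)‖ := by
      have h3 : T (z n) = (T - K) (z n) + K (z n) := by
        rw [sub_apply, sub_add_cancel]
      rw [h3, hq]
      exact (norm_add_le _ _).trans (add_le_add ((T - K).le_opNorm _) le_rfl)
    have h3 : ‖T (z n)‖ ^ 4 ≤ (q * ‖z n‖ + ‖K (z n)‖) ^ 4 :=
      pow_le_pow_left₀ (norm_nonneg _) h2 4
    have hb0 : 0 ≤ ‖K (z n)‖ := norm_nonneg _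
    have ha0 : 0 ≤ ‖z n‖ := norm_nonneg _
    have hqa : q * ‖z n‖ ≤ q * 2 := mul_le_mul_of_nonneg_left (hz2 n) hq0
    have hqa0 : 0 ≤ q * ‖z n‖ := by positivity
    have h4 : (q * ‖z n‖) ^ 2 ≤ (q * 2) ^ 2 := pow_le_pow_left₀ hqa0 hqa 2
    have h5 : (q * ‖z n‖) ^ 3 ≤ (q * 2) ^ 3 := pow_le_pow_left₀ hqa0 hqa 3
    have h6 : (q * ‖z n‖ + ‖K (z n)‖) ^ 4 = q ^ 4 * ‖z n‖ ^ 4 +
        ‖K (z n)‖ * (4 * (q * ‖z n‖) ^ 3 + 6 * (q * ‖z n‖) ^ 2 * ‖K (z n)‖ +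
      4 * (q * ‖z n‖) * ‖K (z n)‖ ^ 2 + ‖K (z n)‖ ^ 3) := by ring
    have h7 : ‖K (z n)‖ * (4 * (q * ‖z n‖) ^ 3 + 6 * (q * ‖z n‖) ^ 2 * ‖K (z n)‖ +
      4 * (q * ‖z n‖) * ‖K (z n)‖ ^ 2 + ‖K (z n)‖ ^ 3) ≤
        ‖K (z n)‖ * (4 * (q * 2) ^ 3 + 6 * (q * 2) ^ 2 * ‖K (z n)‖ +
      4 * (q * 2) * ‖K (z n)‖ ^ 2 + ‖K (z n)‖ ^ 3) := by
      gcongr
    have h8 : ‖x (ψ n)‖ ^ 4 ≤ 1 := pow_le_one₀ (norm_nonneg _) (hx1 (ψ n)).le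
    have h9 : q ^ 4 * ‖z n‖ ^ 4 ≤ q ^ 4 * (1 - (‖x (ψ n)‖ ^ 4 - ‖z n‖ ^ 4)) :=
      mul_le_mul_of_nonneg_left (by linarith) (by positivity)
    linarith
  have hlim := le_of_tendsto_of_tendsto' hTz hR hkey
  rw [add_zero] at hlim
  have hTy : ‖T y‖ ≤ ‖T‖ * ‖y‖ := T.le_opNorm y
  have hTy4 : ‖T y‖ ^ 4 ≤ ‖T‖ ^ 4 * ‖y‖ ^ 4 := by
    rw [← mul_pow]
    exact pow_le_pow_left₀ (norm_nonneg _) hTy 4
  have hqt : q ^ 4 < ‖T‖ ^ 4 := by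
    rw [← hq] at h
    exact pow_lt_pow_left₀ h hq0 (by norm_num)
  have hy1 : ‖y‖ = 1 := by
    rcases hy.lt_or_eq with hlt | heq
    · exfalso
      have h2 : ‖y‖ ^ 4 < 1 := pow_lt_one₀ (norm_nonneg _) hlt (by norm_num)
      have h3 : q ^ 4 * (1 - ‖y‖ ^ 4) < ‖T‖ ^ 4 * (1 - ‖y‖ ^ 4) :=
        mul_lt_mul_of_pos_right hqt (by linarith)
      have h4 : ‖T‖ ^ 4 * (1 - ‖y‖ ^ 4) = ‖T‖ ^ 4 - ‖T‖ ^ 4 * ‖y‖ ^ 4 := by ring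
      linarith
    · exact heq
  refine ⟨y, hy1, le_antisymm ?_ ?_⟩
  · rwa [hy1, mul_one] at hTy
  · rw [hy1] at hlim
    have h2 : ‖T‖ ^ 4 ≤ ‖T y‖ ^ 4 := by
      have h3 : q ^ 4 * (1 - 1 ^ 4) = 0 := by ring
      linarith
    exact le_of_pow_le_pow_left₀ (by norm_num) (norm_nonneg _) h2

end Pool.H30.DV
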