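import Pool.Agent.H30.DV.Basic

/-!
# [H30 DV BL] The Brezis-Lieb lemma in `ℓ_4`

If `z n` is a bounded sequence in `ℓ_4` which tends to zero coordinatewise, then
`‖x + z n‖⁴ - ‖z n‖⁴ → ‖x‖⁴`.

PROOF.  For scalars `a, b`: `|a+b|² = |a|² + |b|² + 2 Re(a b̄)`, hence
`| |a+b|⁴ - |a|⁴ - |b|⁴ | ≤ 6|a|²|b|² + 4|a|³|b| + 4|a||b|³ ≤ 7 (|a|³|b| + |a||b|³)` (`scalar`).
For every `δ ∈ (0,1]` (Young, or: if `|b| ≤ |a|/δ` resp. `|b| ≥ |a|/δ`)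
`|a|³|b| + |a||b|³ ≤ 2 δ⁻³ |a|⁴ + 2 δ |b|⁴` (check: if `|b| ≤ |a|/δ` the left side is at most
`δ⁻¹|a|⁴ + δ⁻³|a|⁴`; otherwise `|a| ≤ δ|b|` and it is at most `δ³|b|⁴ + δ|b|⁴`).
Given `ε > 0` choose `δ` with `14 δ C⁴ < ε/2`, then a finite set `F` of coordinates with
`14 δ⁻³ ∑_{i ∉ F} |x i|⁴ < ε/4` (`Summable`, `summable_pow x`). Split the sum
`‖x+z n‖⁴ - ‖z n‖⁴ - ‖x‖⁴ = ∑' i (|x i + z n i|⁴ - |z n i|⁴ - |x i|⁴)` (`norm_pow_four`) into the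
coordinates in `F` (a finite sum of terms tending to zero) and the others (at most
`∑_{i ∉ F} 7(2 δ⁻³|x i|⁴ + 2δ|z n i|⁴) ≤ ε/4 + 14 δ C⁴`).
-/

namespace Pool.H30.DV

open Filter Topology

variable {𝕜 : Type} [RCLike 𝕜] {ι : Type}

/-- The scalar inequality. -/
private theorem scalar_ineq (a b : 𝕜) :
    |‖a + b‖ ^ 4 - ‖b‖ ^ 4 - ‖a‖ ^ 4| ≤ 7 * (‖a‖ ^ 3 * ‖b‖ + ‖a‖ * ‖b‖ ^ 3) := by
  have ha := norm_nonneg a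
  have hb := norm_nonneg b
  have h1 : ‖a + b‖ ≤ ‖a‖ + ‖b‖ := norm_add_le a b
  have h2 : |‖a‖ - ‖b‖| ≤ ‖a + b‖ := by
    have := abs_norm_sub_norm_le a (-b)
    rwa [norm_neg, sub_neg_eq_add] at this
  have h0 := norm_nonneg (a + b)
  have h3 : ‖a + b‖ ^ 2 ≤ (‖a‖ + ‖b‖) ^ 2 := pow_le_pow_left₀ h0 h1 2
  have h4 : (‖a‖ - ‖b‖) ^ 2 ≤ ‖a + b‖ ^ 2 := by
    rw [← sq_abs (‖a‖ - ‖b‖)]
    exact pow_le_pow_left₀ (abs_nonneg _) h2 2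
  set x := ‖a‖ with hx
  set y := ‖b‖ with hy
  set u := ‖a + b‖ ^ 2 with hu
  have hu4 : ‖a + b‖ ^ 4 = u ^ 2 := by rw [hu]; ring
  rw [hu4]
  have h5 : |u - (x ^ 2 + y ^ 2)| ≤ 2 * x * y := by
    rw [abs_le]; constructor <;> nlinarith
  have h6 : u ^ 2 - y ^ 4 - x ^ 4 =
      (u - (x ^ 2 + y ^ 2)) ^ 2 + 2 * (x ^ 2 + y ^ 2) * (u - (x ^ 2 + y ^ 2)) +
        2 * x ^ 2 * y ^ 2 := by ring
  rw [h6]
  have hxy : 0 ≤ x * y := mul_nonneg ha hb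
  have h7 : (u - (x ^ 2 + y ^ 2)) ^ 2 ≤ (2 * x * y) ^ 2 := by
    rw [← sq_abs (u - (x ^ 2 + y ^ 2))]
    exact pow_le_pow_left₀ (abs_nonneg _) h5 2
  have h8 := abs_le.mp h5
  have h9 : 2 * (x ^ 2 + y ^ 2) * (u - (x ^ 2 + y ^ 2)) ≤ 2 * (x ^ 2 + y ^ 2) * (2 * x * y) :=
    mul_le_mul_of_nonneg_left h8.2 (by positivity)
  have h10 : -(2 * (x ^ 2 + y ^ 2) * (2 * x * y)) ≤
      2 * (x ^ 2 + y ^ 2) * (u - (x ^ 2 + y ^ 2)) := by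
    have := mul_le_mul_of_nonneg_left h8.1 (show 0 ≤ 2 * (x ^ 2 + y ^ 2) by positivity)
    linarith
  have h11 : x ^ 2 * y ^ 2 ≤ (x ^ 3 * y + x * y ^ 3) / 2 := by
    nlinarith [mul_nonneg hxy (sq_nonneg (x - y))]
  have h12 : 0 ≤ (u - (x ^ 2 + y ^ 2)) ^ 2 := sq_nonneg _
  have h13 : 0 ≤ x ^ 3 * y + x * y ^ 3 := by positivity
  rw [abs_le]
  constructor
  · nlinarith [sq_nonneg (x * y)]
  · nlinarith

private theorem young {x y δ : ℝ} (hx : 0 ≤ x) (hy : 0 ≤ y) (hδ : 0 < δ) (hδ1 : δ ≤ 1) :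
    x ^ 3 * y + x * y ^ 3 ≤ 2 * (δ⁻¹) ^ 3 * x ^ 4 + 2 * δ * y ^ 4 := by
  have hi : 1 ≤ δ⁻¹ := (one_le_inv₀ hδ).mpr hδ1
  have hi0 : 0 < δ⁻¹ := by positivity
  have hdi : δ * δ⁻¹ = 1 := mul_inv_cancel₀ hδ.ne'
  rcases le_total y (δ⁻¹ * x) with h | h
  · have h1 : x ^ 3 * y ≤ x ^ 3 * (δ⁻¹ * x) := mul_le_mul_of_nonneg_left h (by positivity)
    have h2 : x * y ^ 3 ≤ x * (δ⁻¹ * x) ^ 3 :=
      mul_le_mul_of_nonneg_left (pow_le_pow_left₀ hy h 3) hx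
    have h3 : δ⁻¹ ≤ (δ⁻¹) ^ 3 := by
      nlinarith [sq_nonneg (δ⁻¹), mul_nonneg hi0.le (show 0 ≤ δ⁻¹ ^ 2 - 1 by nlinarith)]
    have h4 : 0 ≤ x ^ 4 := by positivity
    have h5 : 0 ≤ 2 * δ * y ^ 4 := by positivity
    nlinarith [mul_le_mul_of_nonneg_right h3 h4]
  · have h' : x ≤ δ * y := by
      have := mul_le_mul_of_nonneg_left h hδ.le
      rw [← mul_assoc, hdi, one_mul] at this
      exact this
    have h1 : x ^ 3 * y ≤ (δ * y) ^ 3 * y :=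
      mul_le_mul_of_nonneg_right (pow_le_pow_left₀ hx h' 3) hy
    have h2 : x * y ^ 3 ≤ (δ * y) * y ^ 3 := mul_le_mul_of_nonneg_right h' (by positivity)
    have h3 : δ ^ 3 ≤ δ := by
      have h31 : δ ^ 2 ≤ 1 := by nlinarith
      nlinarith
    have h4 : 0 ≤ y ^ 4 := by positivity
    have h5 : 0 ≤ 2 * (δ⁻¹) ^ 3 * x ^ 4 := by positivity
    nlinarith [mul_le_mul_of_nonneg_right h3 h4]

theorem BL (x : L4 𝕜 ι) (z : ℕ → L4 𝕜 ι) (C : ℝ) (hC : ∀ n, ‖z n‖ ≤ C) (hz : CN z) :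
    Tendsto (fun n => ‖x + z n‖ ^ 4 - ‖z n‖ ^ 4) atTop (𝓝 (‖x‖ ^ 4)) := by
  classical
  have hC0 : 0 ≤ C := (norm_nonneg _).trans (hC 0)
  rw [Metric.tendsto_atTop]
  intro ε hε
  -- choice of δ
  obtain ⟨δ, hδ, hδ1, hδε⟩ : ∃ δ : ℝ, 0 < δ ∧ δ ≤ 1 ∧ 14 * δ * C ^ 4 < ε / 4 := by
    refine ⟨min 1 (ε / (4 * (14 * (C ^ 4 + 1)))), by positivity, min_le_left _ _, ?_⟩
    have h1 : min 1 (ε / (4 * (14 * (C ^ 4 + 1)))) ≤ ε / (4 * (14 * (C ^ 4 + 1))) :=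
      min_le_right _ _
    have hc : 0 ≤ C ^ 4 := by positivity
    calc 14 * min 1 (ε / (4 * (14 * (C ^ 4 + 1)))) * C ^ 4
        ≤ 14 * (ε / (4 * (14 * (C ^ 4 + 1)))) * C ^ 4 := by gcongr
      _ = (ε / 4) * (C ^ 4 / (C ^ 4 + 1)) := by field_simp
      _ < (ε / 4) * 1 := by
          apply mul_lt_mul_of_pos_left _ (by positivity)
          rw [div_lt_one (by positivity)]
          linarith
      _ = ε / 4 := by ring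
  have hsx := summable_pow x
  -- choice of the finite set
  obtain ⟨F, hF⟩ : ∃ F : Finset ι, 14 * (δ⁻¹) ^ 3 * (∑' i, ‖x i‖ ^ 4 - ∑ i ∈ F, ‖x i‖ ^ 4) <
      ε / 4 := by
    have h1 := hsx.hasSum
    have h2 : Tendsto (fun F : Finset ι => 14 * (δ⁻¹) ^ 3 *
        (∑' i, ‖x i‖ ^ 4 - ∑ i ∈ F, ‖x i‖ ^ 4)) atTop (𝓝 (14 * (δ⁻¹) ^ 3 *
        (∑' i, ‖x i‖ ^ 4 - ∑' i, ‖x i‖ ^ 4))) := by
      exact (tendsto_const_nhds.sub h1).const_mul _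
    rw [sub_self, mul_zero] at h2
    exact (h2.eventually_lt_const (by positivity)).exists
  -- the finite part tends to zero
  have hfin : Tendsto (fun n => ∑ i ∈ F, 7 * (‖x i‖ ^ 3 * ‖z n i‖ + ‖x i‖ * ‖z n i‖ ^ 3))
      atTop (𝓝 0) := by
    have h1 : Tendsto (fun n => ∑ i ∈ F, 7 * (‖x i‖ ^ 3 * ‖z n i‖ + ‖x i‖ * ‖z n i‖ ^ 3))
        atTop (𝓝 (∑ i ∈ F, 7 * (‖x i‖ ^ 3 * 0 + ‖x i‖ * 0 ^ 3))) := by
      refine tendsto_finset_sum _ (fun i _ => ?_)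
      have h2 : Tendsto (fun n => ‖z n i‖) atTop (𝓝 0) := by
        have := (hz i).norm
        rwa [norm_zero] at this
      exact ((h2.const_mul _).add ((h2.pow 3).const_mul _)).const_mul 7
    simpa using h1
  obtain ⟨N, hN⟩ := (Metric.tendsto_atTop.mp hfin) (ε / 4) (by positivity)
  refine ⟨N, fun n hn => ?_⟩
  have hNn := hN n hn
  rw [Real.dist_eq, sub_zero] at hNn
  rw [Real.dist_eq]
  have hsz := summable_pow (z n)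
  have hsxz := summable_pow (x + z n)
  -- pointwise bound
  let t : ι → ℝ := fun i => 7 * (‖x i‖ ^ 3 * ‖z n i‖ + ‖x i‖ * ‖z n i‖ ^ 3)
  let u : ι → ℝ := fun i => 14 * (δ⁻¹) ^ 3 * ‖x i‖ ^ 4 + 14 * δ * ‖z n i‖ ^ 4
  have htu : ∀ i, t i ≤ u i := by
    intro i
    have := young (norm_nonneg (x i)) (norm_nonneg (z n i)) hδ hδ1
    simp only [t, u]
    linarith
  have ht0 : ∀ i, 0 ≤ t i := fun i => by simp only [t]; positivity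
  have hu : Summable u := (hsx.mul_left _).add (hsz.mul_left _)
  have ht : Summable t := Summable.of_nonneg_of_le ht0 htu hu
  have hd : Summable (fun i => ‖(x + z n) i‖ ^ 4 - ‖z n i‖ ^ 4 - ‖x i‖ ^ 4) :=
    (hsxz.sub hsz).sub hsx
  have hdt : ∀ i, |‖(x + z n) i‖ ^ 4 - ‖z n i‖ ^ 4 - ‖x i‖ ^ 4| ≤ t i := by
    intro i
    have h := scalar_ineq (x i) (z n i)
    exact h
  have h1 : ‖x + z n‖ ^ 4 - ‖z n‖ ^ 4 - ‖x‖ ^ 4 =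
      ∑' i, (‖(x + z n) i‖ ^ 4 - ‖z n i‖ ^ 4 - ‖x i‖ ^ 4) := by
    rw [norm_pow_four, norm_pow_four, norm_pow_four, (hsxz.sub hsz).tsum_sub hsx,
      hsxz.tsum_sub hsz]
  rw [h1]
  have h2 : |∑' i, (‖(x + z n) i‖ ^ 4 - ‖z n i‖ ^ 4 - ‖x i‖ ^ 4)| ≤ ∑' i, t i := by
    have h3 := norm_tsum_le_tsum_norm (f := fun i => ‖(x + z n) i‖ ^ 4 - ‖z n i‖ ^ 4 - ‖x i‖ ^ 4)
      (Summable.of_nonneg_of_le (fun i => norm_nonneg _) hdt ht)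
    simp only [Real.norm_eq_abs] at h3
    refine h3.trans ?_
    exact Summable.tsum_le_tsum hdt (Summable.of_nonneg_of_le (fun i => abs_nonneg _) hdt ht) ht
  -- split the sum
  have h4 : ∑' i, t i ≤ ∑ i ∈ F, t i + (∑' i, u i - ∑ i ∈ F, u i) := by
    have h5 := ht.sum_add_tsum_compl (s := F)
    have h6 := hu.sum_add_tsum_compl (s := F)
    have h7 : ∑' i : ↥((F : Set ι)ᶜ), t i ≤ ∑' i : ↥((F : Set ι)ᶜ), u i :=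
      Summable.tsum_le_tsum (fun i => htu i) (ht.subtype _) (hu.subtype _)
    linarith
  have h8 : ∑' i, u i = 14 * (δ⁻¹) ^ 3 * ∑' i, ‖x i‖ ^ 4 + 14 * δ * ∑' i, ‖z n i‖ ^ 4 := by
    simp only [u]
    rw [(hsx.mul_left _).tsum_add (hsz.mul_left _), tsum_mul_left, tsum_mul_left]
  have h9 : ∑ i ∈ F, u i = 14 * (δ⁻¹) ^ 3 * ∑ i ∈ F, ‖x i‖ ^ 4 +
      14 * δ * ∑ i ∈ F, ‖z n i‖ ^ 4 := by
    simp only [u]
    rw [Finset.sum_add_distrib, Finset.mul_sum, Finset.mul_sum]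
  have h10 : ∑' i, ‖z n i‖ ^ 4 ≤ C ^ 4 := by
    rw [← norm_pow_four]
    exact pow_le_pow_left₀ (norm_nonneg _) (hC n) 4
  have h11 : 0 ≤ ∑ i ∈ F, ‖z n i‖ ^ 4 := Finset.sum_nonneg (fun i _ => by positivity)
  have h12 : ∑ i ∈ F, t i < ε / 4 := (le_abs_self _).trans_lt hNn
  have h13 : 14 * δ * ∑' i, ‖z n i‖ ^ 4 ≤ 14 * δ * C ^ 4 :=
    mul_le_mul_of_nonneg_left h10 (by positivity)
  have h14 : 0 ≤ 14 * δ * ∑ i ∈ F, ‖z n i‖ ^ 4 := by positivity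
  have h15 : 14 * (δ⁻¹) ^ 3 * (∑' i, ‖x i‖ ^ 4 - ∑ i ∈ F, ‖x i‖ ^ 4) =
      14 * (δ⁻¹) ^ 3 * ∑' i, ‖x i‖ ^ 4 - 14 * (δ⁻¹) ^ 3 * ∑ i ∈ F, ‖x i‖ ^ 4 := by ring
  linarith

end Pool.H30.DV
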