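import Mathlib

/-!
# H30/DV/Basic: the space `ℓ_4` (MP_8d0949_an, theorem on scalar plus strictly singular operators)

Definitions used by all modules `Pool.Agent.H30.DV.*`.
-/

namespace Pool.H30.DV

open scoped ENNReal
open Filter Topology

instance fact4 : Fact ((1 : ℝ≥0∞) ≤ 4) := ⟨by norm_num⟩

/-- The Banach space `ℓ_4(ι)` over `𝕜`. -/
abbrev L4 (𝕜 : Type) [RCLike 𝕜] (ι : Type) : Type := lp (fun _ : ι => 𝕜) 4

variable {𝕜 : Type} [RCLike 𝕜] {ι : Type}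

/-- `CN z`: the sequence `z` in `ℓ_4` tends to zero coordinatewise. -/
def CN (z : ℕ → L4 𝕜 ι) : Prop := ∀ i, Tendsto (fun n => z n i) atTop (𝓝 0)

/-- An operator is strictly singular if it is not bounded below on any infinite dimensional
subspace. -/
def StrictlySingular {X : Type} [NormedAddCommGroup X] [NormedSpace 𝕜 X]
    (S : X →L[𝕜] X) : Prop :=
  ∀ M : Submodule 𝕜 X, ¬ FiniteDimensional 𝕜 M →
    ∀ c : ℝ, 0 < c → ∃ x ∈ M, x ≠ 0 ∧ ‖S x‖ < c * ‖x‖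

/-- `Attains T`: the operator `T` attains its norm at a vector of norm one. -/
def Attains {X Y : Type} [NormedAddCommGroup X] [NormedSpace 𝕜 X] [NormedAddCommGroup Y]
    [NormedSpace 𝕜 Y] (T : X →L[𝕜] Y) : Prop :=
  ∃ x : X, ‖x‖ = 1 ∧ ‖T x‖ = ‖T‖

theorem CN.comp {z : ℕ → L4 𝕜 ι} (hz : CN z) {φ : ℕ → ℕ} (hφ : StrictMono φ) :
    CN (fun n => z (φ n)) := fun i => (hz i).comp hφ.tendsto_atTop

theorem summable_pow (f : L4 𝕜 ι) : Summable (fun i => ‖f i‖ ^ 4) := by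
  have h := (lp.memℓp f).summable (p := 4) (by norm_num)
  have e : (4 : ℝ≥0∞).toReal = ((4 : ℕ) : ℝ) := by norm_num
  refine h.congr ?_
  intro i
  rw [e, Real.rpow_natCast]

theorem norm_pow_four (f : L4 𝕜 ι) : ‖f‖ ^ 4 = ∑' i, ‖f i‖ ^ 4 := by
  have h := lp.norm_rpow_eq_tsum (p := 4) (by norm_num) f
  have e : (4 : ℝ≥0∞).toReal = ((4 : ℕ) : ℝ) := by norm_num
  rw [e, Real.rpow_natCast] at h
  rw [h]
  refine tsum_congr (fun i => ?_)
  rw [Real.rpow_natCast]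

theorem norm_apply_le (f : L4 𝕜 ι) (i : ι) : ‖f i‖ ≤ ‖f‖ :=
  lp.norm_apply_le_norm (by norm_num) f i

end Pool.H30.DV
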