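import Pool.Agent.H30.DV.VB
import Pool.Agent.H30.DV.WN

/-!
# [H30 DV CO] Davie's functionals vanish in the limit on compact operators

PROOF.  Let `K` be compact. Suppose `beta k K` does not tend to `0`: there is `δ > 0` with
`‖beta k K‖ ≥ δ` for infinitely many `k`. `beta k K` is the average of `fa k j (K (vX k j))` over
`j`, so there is `j = j k` with `‖fa k j (K (vX k j))‖ ≥ ‖beta k K‖`
(`Finset.exists_le_of_sum_le`, or argue by contradiction).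
HÖLDER: `|fa k j f| ≤ 2^{-(k+2)} ∑_g |f ⟨k,g⟩| ≤ (2^{-(k+2)})^{1/4} ‖f‖`, i.e.
`|fa k j f|⁴ ≤ 2^{-(k+2)} ∑_g |f⟨k,g⟩|⁴ ≤ 2^{-(k+2)} ‖f‖⁴` (power mean inequality
`inner_le_nnorm_mul_nnorm`/`inner_sum_pow_le`: `Real.pow_arith_mean_le_arith_mean_pow`,
`norm_pow_four` and `sum_le_tsum`). Let `ρ k = (2^(k+2))^{1/4}` as a real number
(`Real.sqrt (Real.sqrt (2^(k+2)))`), and `z k = (1/ρ k) • vX k (j k)`: `‖z k‖⁴ ≤ 2^(k+4)/2^(k+2) = 4`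
(`v_norm`), so `‖z k‖ ≤ 2`, and `z k` is coordinatewise null: the coordinate at `⟨l, g⟩` vanishes as
soon as `k > l` (`v_at_other`). By `compact_null`, `‖K (z k)‖ → 0`. But
`‖beta k K‖ ≤ ‖fa k j (K (vX k j))‖ ≤ (ρ k)⁻¹ ‖K (vX k (j k))‖ = ‖K (z k)‖ → 0`.
(So one may avoid the contradiction: choose `j k` for every `k` and squeeze.)
-/

namespace Pool.H30.DV

open Filter Topology

variable (𝕜 : Type) [RCLike 𝕜] (d : DD)

/-- the fourth root of `2^(k+2)` -/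
private noncomputable def rho (k : ℕ) : ℝ := Real.sqrt (Real.sqrt (2 ^ (k + 2)))

private theorem rho_pos (k : ℕ) : 0 < rho k :=
  Real.sqrt_pos.mpr (Real.sqrt_pos.mpr (by positivity))

private theorem rho_four (k : ℕ) : rho k ^ 4 = 2 ^ (k + 2) := by
  unfold rho
  have h1 : (0 : ℝ) ≤ 2 ^ (k + 2) := by positivity
  calc Real.sqrt (Real.sqrt (2 ^ (k + 2))) ^ 4
      = (Real.sqrt (Real.sqrt (2 ^ (k + 2))) ^ 2) ^ 2 := by ring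
    _ = (Real.sqrt (2 ^ (k + 2))) ^ 2 := by rw [Real.sq_sqrt (Real.sqrt_nonneg _)]
    _ = 2 ^ (k + 2) := Real.sq_sqrt h1

private theorem holder (k : ℕ) (j : Fin (2 ^ (k + 1))) (f : L4 𝕜 J) :
    ‖fa 𝕜 d k j f‖ ≤ (rho k)⁻¹ * ‖f‖ := by
  have hρ := rho_pos k
  have h2p : (0 : ℝ) < 2 ^ (k + 2) := by positivity
  -- the average
  have h1 : ‖fa 𝕜 d k j f‖ ≤ ∑ g : Fin (2 ^ (k + 2)), ((2 : ℝ) ^ (k + 2))⁻¹ * ‖f ⟨k, g⟩‖ := by
    unfold fa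
    rw [norm_mul, ← Finset.mul_sum]
    have e1 : ‖((2 : 𝕜) ^ (k + 2))⁻¹‖ = ((2 : ℝ) ^ (k + 2))⁻¹ := by
      rw [norm_inv, norm_pow, RCLike.norm_ofNat]
    rw [e1]
    refine mul_le_mul_of_nonneg_left ?_ (by positivity)
    refine (norm_sum_le _ _).trans (Finset.sum_le_sum fun g _ => ?_)
    rw [norm_mul]
    have e2 : ‖((d.τ k j g : ℝ) : 𝕜)‖ = 1 := by
      rw [RCLike.norm_ofReal]
      rcases (d.level k).τ_pm j g with h | h <;> rw [h] <;> simp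
    rw [e2, one_mul]
  have h2 : (∑ g : Fin (2 ^ (k + 2)), ((2 : ℝ) ^ (k + 2))⁻¹ * ‖f ⟨k, g⟩‖) ^ 4 ≤
      ∑ g : Fin (2 ^ (k + 2)), ((2 : ℝ) ^ (k + 2))⁻¹ * ‖f ⟨k, g⟩‖ ^ 4 := by
    refine Real.pow_arith_mean_le_arith_mean_pow Finset.univ
      (fun _ => ((2 : ℝ) ^ (k + 2))⁻¹) (fun g => ‖f ⟨k, g⟩‖) (fun _ _ => by positivity) ?_
      (fun _ _ => norm_nonneg _) 4
    rw [Finset.sum_const, Finset.card_univ, Fintype.card_fin, nsmul_eq_mul]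
    push_cast
    exact mul_inv_cancel₀ h2p.ne'
  have h3 : ∑ g : Fin (2 ^ (k + 2)), ‖f ⟨k, g⟩‖ ^ 4 ≤ ‖f‖ ^ 4 := by
    rw [norm_pow_four]
    have e1 := (summable_pow f).sum_le_tsum
      (Finset.univ.map ⟨fun g : Fin (2 ^ (k + 2)) => (⟨k, g⟩ : J), fun a b hab => by
        simpa using hab⟩) (fun i _ => by positivity)
    rw [Finset.sum_map] at e1
    exact e1
  have h4 : ‖fa 𝕜 d k j f‖ ^ 4 ≤ ((rho k)⁻¹ * ‖f‖) ^ 4 := by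
    calc ‖fa 𝕜 d k j f‖ ^ 4
        ≤ (∑ g : Fin (2 ^ (k + 2)), ((2 : ℝ) ^ (k + 2))⁻¹ * ‖f ⟨k, g⟩‖) ^ 4 :=
          pow_le_pow_left₀ (norm_nonneg _) h1 4
      _ ≤ ∑ g : Fin (2 ^ (k + 2)), ((2 : ℝ) ^ (k + 2))⁻¹ * ‖f ⟨k, g⟩‖ ^ 4 := h2
      _ = ((2 : ℝ) ^ (k + 2))⁻¹ * ∑ g : Fin (2 ^ (k + 2)), ‖f ⟨k, g⟩‖ ^ 4 := by
          rw [Finset.mul_sum]
      _ ≤ ((2 : ℝ) ^ (k + 2))⁻¹ * ‖f‖ ^ 4 := mul_le_mul_of_nonneg_left h3 (by positivity)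
      _ = ((rho k)⁻¹ * ‖f‖) ^ 4 := by rw [mul_pow, inv_pow, rho_four]
  exact le_of_pow_le_pow_left₀ (by norm_num) (by positivity) h4

theorem beta_compact (K : XD 𝕜 d →L[𝕜] XD 𝕜 d) (hK : IsCompactOperator K) :
    Tendsto (fun k => beta 𝕜 d k K) atTop (𝓝 0) := by
  -- the maximal term
  have hmax : ∀ k : ℕ, ∃ j : Fin (2 ^ (k + 1)),
      ‖beta 𝕜 d k K‖ ≤ ‖fa 𝕜 d k j (K (vX 𝕜 d k j) : L4 𝕜 J)‖ := by
    intro k
    have : Nonempty (Fin (2 ^ (k + 1))) := ⟨⟨0, by positivity⟩⟩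
    obtain ⟨j, -, hj⟩ := Finset.exists_max_image (Finset.univ : Finset (Fin (2 ^ (k + 1))))
      (fun j => ‖fa 𝕜 d k j (K (vX 𝕜 d k j) : L4 𝕜 J)‖) Finset.univ_nonempty
    refine ⟨j, ?_⟩
    have h2p : (0 : ℝ) < 2 ^ (k + 1) := by positivity
    unfold beta
    rw [norm_mul, norm_inv, norm_pow, RCLike.norm_ofNat, inv_mul_le_iff₀ h2p]
    refine (norm_sum_le _ _).trans ?_
    refine (Finset.sum_le_sum fun i _ => hj i (Finset.mem_univ i)).trans ?_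
    rw [Finset.sum_const, Finset.card_univ, Fintype.card_fin, nsmul_eq_mul]
    push_cast
    exact le_rfl
  choose j hj using hmax
  let z : ℕ → XD 𝕜 d := fun k => (((rho k)⁻¹ : ℝ) : 𝕜) • vX 𝕜 d k (j k)
  have hz : ∀ k, ‖z k‖ ≤ 2 := by
    intro k
    have h1 : ‖z k‖ = (rho k)⁻¹ * ‖v 𝕜 d k (j k)‖ := by
      show ‖(((rho k)⁻¹ : ℝ) : 𝕜) • vX 𝕜 d k (j k)‖ = _
      rw [norm_smul, RCLike.norm_ofReal, abs_of_pos (inv_pos.mpr (rho_pos k))]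
      rfl
    have h2 := v_norm 𝕜 d k (j k)
    have h3 : ‖z k‖ ^ 4 ≤ 2 ^ 4 := by
      rw [h1, mul_pow, inv_pow, rho_four, inv_mul_le_iff₀ (by positivity)]
      refine h2.trans ?_
      have : (2 : ℝ) ^ (k + 4) = 2 ^ (k + 2) * 2 ^ 2 := by rw [← pow_add]
      rw [this]
      exact mul_le_mul_of_nonneg_left (by norm_num) (by positivity)
    exact le_of_pow_le_pow_left₀ (by norm_num) (by norm_num) h3
  have hCN : CN (fun n => (z n : L4 𝕜 J)) := by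
    rintro ⟨l, g⟩
    refine tendsto_const_nhds.congr' ?_
    filter_upwards [eventually_gt_atTop l] with k hk
    show (0 : 𝕜) = ((((rho k)⁻¹ : ℝ) : 𝕜) • v 𝕜 d k (j k)) ⟨l, g⟩
    rw [lp.coeFn_smul, Pi.smul_apply, v_at_other 𝕜 d k (j k) l (by omega) (by omega) g, smul_zero]
  have h0 := compact_null (XD 𝕜 d) K hK z 2 hz hCN
  refine squeeze_zero_norm (fun k => ?_) h0
  refine (hj k).trans ?_
  refine (holder 𝕜 d k (j k) _).trans (le_of_eq ?_)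
  show (rho k)⁻¹ * ‖K (vX 𝕜 d k (j k))‖ = ‖K ((((rho k)⁻¹ : ℝ) : 𝕜) • vX 𝕜 d k (j k))‖
  rw [map_smul, norm_smul, RCLike.norm_ofReal, abs_of_pos (inv_pos.mpr (rho_pos k))]

end Pool.H30.DV
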