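import Pool.Agent.H30.DV.VA

/-!
# [H30 DV PH] The norm of the vectors `Φ k g`

PROOF.  The coordinates of `Φ k g` (by `v_at`, `v_at_succ`, `v_at_other`; all other coordinates
vanish):
* at `⟨k+1, h⟩`: `2^{-(k+2)} ∑_j τ (k+1) j g τ (k+1) j h - 2^{-(k+1)} ∑_j σ (k+1) j g σ (k+1) j h`;
  for `h = g` this is `1 - 1 = 0` (squares of signs, `2^(k+2)` resp. `2^(k+1)` indices `j`), for
  `h ≠ g` it is at most `2^{-(k+2)} D (k+1) + 2^{-(k+1)} D (k+1)` (`kτ`, `kσ`);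
* at `⟨k+2, h⟩`: `2^{-(k+2)} ∑_j τ (k+1) j g σ (k+2) j h`, at most `2^{-(k+2)} D (k+1)` (`cross`);
* at `⟨k, h⟩`: `- 2^{-(k+1)} ∑_j σ (k+1) j g τ k j h`, at most `2^{-(k+1)} D k` (`cross`), `D k ≤ D (k+1)`.
So all coordinates are at most `B = 2^{-k} D (k+1) = 2^{-k} (4k+16) √2^(k+1)` and vanish outside the
blocks `k, k+1, k+2`, which have `28 * 2^k` elements: by `norm_pow_four`,
`‖Φ‖⁴ ≤ 28 * 2^k * B⁴ = 112 (4k+16)⁴ 2^{-k} ≤ (4(4k+16))⁴ 2^{-k} = (cc k)⁴`, as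
`(√√(1/2))⁴ = 1/2`. Take fourth roots (`pow_le_pow_iff_left`, `lt_of_pow_lt_pow_left`).
(The type `Fin (2 ^ (k + 1 + 2))` is the type of the block `k+1`; the sum over
`j : Fin (2 ^ (k + 1 + 1))` in `Phi` is the index type of `d.τ (k+1)`. The norm in the subspace is
the norm of the underlying vector of `ℓ_4`.)
-/

namespace Pool.H30.DV

variable (𝕜 : Type) [RCLike 𝕜] (d : DD)

private theorem Phi_coe (k : ℕ) (g : Fin (2 ^ (k + 1 + 2))) (i : J) :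
    (Phi 𝕜 d k g : L4 𝕜 J) i =
      ((2 : 𝕜) ^ (k + 2))⁻¹ * ∑ j : Fin (2 ^ (k + 1 + 1)),
        ((d.τ (k + 1) j g : ℝ) : 𝕜) * v 𝕜 d (k + 1) j i -
      ((2 : 𝕜) ^ (k + 1))⁻¹ * ∑ j : Fin (2 ^ (k + 1)),
        ((d.σ (k + 1) j g : ℝ) : 𝕜) * v 𝕜 d k j i := by
  have h1 : (Phi 𝕜 d k g : L4 𝕜 J) =
      ((2 : 𝕜) ^ (k + 2))⁻¹ • ∑ j : Fin (2 ^ (k + 1 + 1)),
        ((d.τ (k + 1) j g : ℝ) : 𝕜) • v 𝕜 d (k + 1) j -
      ((2 : 𝕜) ^ (k + 1))⁻¹ • ∑ j : Fin (2 ^ (k + 1)),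
        ((d.σ (k + 1) j g : ℝ) : 𝕜) • v 𝕜 d k j := by
    unfold Phi
    simp only [Submodule.coe_sub, Submodule.coe_smul, Submodule.coe_sum, vX]
  rw [h1, lp.coeFn_sub, Pi.sub_apply, lp.coeFn_smul, Pi.smul_apply, lp.coeFn_smul, Pi.smul_apply,
    lp.coeFn_sum, lp.coeFn_sum, Finset.sum_apply, Finset.sum_apply]
  simp only [lp.coeFn_smul, Pi.smul_apply, smul_eq_mul]

private theorem nrm_real (n : ℕ) (s : ℝ) : ‖((2 : 𝕜) ^ n)⁻¹ * ((s : ℝ) : 𝕜)‖ = ((2 : ℝ) ^ n)⁻¹ * |s| := by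
  rw [norm_mul, norm_inv, norm_pow, RCLike.norm_ofReal, RCLike.norm_ofNat]

private theorem D_nonneg (k : ℕ) : 0 ≤ D k := by unfold D; positivity

private theorem D_mono (k : ℕ) : D k ≤ D (k + 1) := by
  unfold D
  have h1 : (1 : ℝ) ≤ Real.sqrt 2 := by
    rw [show (1 : ℝ) = Real.sqrt 1 by simp]
    exact Real.sqrt_le_sqrt (by norm_num)
  have h2 : Real.sqrt 2 ^ k ≤ Real.sqrt 2 ^ (k + 1) := pow_le_pow_right₀ h1 (by omega)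
  push_cast
  have h3 : (0 : ℝ) ≤ Real.sqrt 2 ^ k := by positivity
  have h4 : (0 : ℝ) ≤ k := Nat.cast_nonneg k
  nlinarith

/-- the bound for the coordinates -/
private noncomputable def BB (k : ℕ) : ℝ := ((2 : ℝ) ^ k)⁻¹ * D (k + 1)

private theorem BB_nonneg (k : ℕ) : 0 ≤ BB k := mul_nonneg (by positivity) (D_nonneg _)

private theorem sq_pm {x : ℝ} (h : x = 1 ∨ x = -1) : x * x = 1 := by
  rcases h with h | h <;> rw [h] <;> norm_num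

private theorem at_mid (k : ℕ) (g h : Fin (2 ^ (k + 1 + 2))) :
    ‖(Phi 𝕜 d k g : L4 𝕜 J) ⟨k + 1, h⟩‖ ≤ BB k := by
  rw [Phi_coe]
  simp only [v_at, v_at_succ]
  have e1 : ((2 : 𝕜) ^ (k + 2))⁻¹ * ∑ j : Fin (2 ^ (k + 1 + 1)),
        ((d.τ (k + 1) j g : ℝ) : 𝕜) * ((d.τ (k + 1) j h : ℝ) : 𝕜) =
        ((2 : 𝕜) ^ (k + 2))⁻¹ * (((∑ j : Fin (2 ^ (k + 1 + 1)), d.τ (k + 1) j g * d.τ (k + 1) j h : ℝ)) : 𝕜) := by
    push_cast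
    rfl
  have e2 : ((2 : 𝕜) ^ (k + 1))⁻¹ * ∑ j : Fin (2 ^ (k + 1)),
        ((d.σ (k + 1) j g : ℝ) : 𝕜) * ((d.σ (k + 1) j h : ℝ) : 𝕜) =
        ((2 : 𝕜) ^ (k + 1))⁻¹ * (((∑ j : Fin (2 ^ (k + 1)), d.σ (k + 1) j g * d.σ (k + 1) j h : ℝ)) : 𝕜) := by
    push_cast
    rfl
  rw [e1, e2]
  by_cases hgh : g = h
  · subst hgh
    have s1 : ∑ j : Fin (2 ^ (k + 1 + 1)), d.τ (k + 1) j g * d.τ (k + 1) j g = 2 ^ (k + 2) := by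
      rw [Finset.sum_congr rfl (fun j _ => sq_pm ((d.level (k + 1)).τ_pm j g))]
      simp
    have s2 : ∑ j : Fin (2 ^ (k + 1)), d.σ (k + 1) j g * d.σ (k + 1) j g = 2 ^ (k + 1) := by
      rw [Finset.sum_congr rfl (fun j _ => sq_pm ((d.level (k + 1)).σ_pm j g))]
      simp
    rw [s1, s2]
    have z1 : ((2 : 𝕜) ^ (k + 2))⁻¹ * (((2 : ℝ) ^ (k + 2) : ℝ) : 𝕜) = 1 := by
      push_cast
      exact inv_mul_cancel₀ (pow_ne_zero _ two_ne_zero)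
    have z2 : ((2 : 𝕜) ^ (k + 1))⁻¹ * (((2 : ℝ) ^ (k + 1) : ℝ) : 𝕜) = 1 := by
      push_cast
      exact inv_mul_cancel₀ (pow_ne_zero _ two_ne_zero)
    rw [z1, z2, sub_self, norm_zero]
    exact BB_nonneg k
  · have b1 := (d.level (k + 1)).kτ g h hgh
    have b2 := (d.level (k + 1)).kσ g h hgh
    refine (norm_sub_le _ _).trans ?_
    rw [nrm_real, nrm_real]
    have c1 : ((2 : ℝ) ^ (k + 2))⁻¹ = ((2 : ℝ) ^ k)⁻¹ * (1 / 4) := by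
      rw [pow_add, mul_inv]; norm_num
    have c2 : ((2 : ℝ) ^ (k + 1))⁻¹ = ((2 : ℝ) ^ k)⁻¹ * (1 / 2) := by
      rw [pow_add, mul_inv]; norm_num
    rw [c1, c2]
    unfold BB
    have p : (0 : ℝ) ≤ ((2 : ℝ) ^ k)⁻¹ := by positivity
    have q := D_nonneg (k + 1)
    have r1 := mul_le_mul_of_nonneg_left b1 p
    have r2 := mul_le_mul_of_nonneg_left b2 p
    have r3 := mul_nonneg p q
    nlinarith

private theorem at_hi (k : ℕ) (g : Fin (2 ^ (k + 1 + 2))) (h : Fin (2 ^ (k + 1 + 1 + 2))) :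
    ‖(Phi 𝕜 d k g : L4 𝕜 J) ⟨k + 1 + 1, h⟩‖ ≤ BB k := by
  rw [Phi_coe]
  have e2 : ∑ j : Fin (2 ^ (k + 1)),
        ((d.σ (k + 1) j g : ℝ) : 𝕜) * v 𝕜 d k j ⟨k + 1 + 1, h⟩ = 0 := by
    refine Finset.sum_eq_zero (fun j _ => ?_)
    rw [v_at_other 𝕜 d k j (k + 1 + 1) (by omega) (by omega) h, mul_zero]
  have e1 : ∑ j : Fin (2 ^ (k + 1 + 1)),
        ((d.τ (k + 1) j g : ℝ) : 𝕜) * v 𝕜 d (k + 1) j ⟨k + 1 + 1, h⟩ =
        (((∑ j : Fin (2 ^ (k + 1 + 1)), d.τ (k + 1) j g * d.σ (k + 1 + 1) j h : ℝ)) : 𝕜) := by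
    push_cast
    refine Finset.sum_congr rfl (fun j _ => ?_)
    rw [v_at_succ]
  rw [e1, e2, mul_zero, sub_zero, nrm_real]
  have b1 := d.cross (k + 1) g h
  have c1 : ((2 : ℝ) ^ (k + 2))⁻¹ = ((2 : ℝ) ^ k)⁻¹ * (1 / 4) := by
    rw [pow_add, mul_inv]; norm_num
  rw [c1]
  unfold BB
  have p : (0 : ℝ) ≤ ((2 : ℝ) ^ k)⁻¹ := by positivity
  have q := D_nonneg (k + 1)
  have r1 := mul_le_mul_of_nonneg_left b1 p
  have r3 := mul_nonneg p q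
  nlinarith

private theorem at_lo (k : ℕ) (g : Fin (2 ^ (k + 1 + 2))) (h : Fin (2 ^ (k + 2))) :
    ‖(Phi 𝕜 d k g : L4 𝕜 J) ⟨k, h⟩‖ ≤ BB k := by
  rw [Phi_coe]
  have e1 : ∑ j : Fin (2 ^ (k + 1 + 1)),
        ((d.τ (k + 1) j g : ℝ) : 𝕜) * v 𝕜 d (k + 1) j ⟨k, h⟩ = 0 := by
    refine Finset.sum_eq_zero (fun j _ => ?_)
    rw [v_at_other 𝕜 d (k + 1) j k (by omega) (by omega) h, mul_zero]
  have e2 : ∑ j : Fin (2 ^ (k + 1)),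
        ((d.σ (k + 1) j g : ℝ) : 𝕜) * v 𝕜 d k j ⟨k, h⟩ =
        (((∑ j : Fin (2 ^ (k + 1)), d.τ k j h * d.σ (k + 1) j g : ℝ)) : 𝕜) := by
    push_cast
    refine Finset.sum_congr rfl (fun j _ => ?_)
    rw [v_at, mul_comm]
  rw [e1, e2, mul_zero, zero_sub, norm_neg, nrm_real]
  have b1 := d.cross k h g
  have c1 : ((2 : ℝ) ^ (k + 1))⁻¹ = ((2 : ℝ) ^ k)⁻¹ * (1 / 2) := by
    rw [pow_add, mul_inv]; norm_num
  rw [c1]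
  unfold BB
  have p : (0 : ℝ) ≤ ((2 : ℝ) ^ k)⁻¹ := by positivity
  have q := D_nonneg k
  have q2 := D_mono k
  have r1 := mul_le_mul_of_nonneg_left b1 p
  have r3 := mul_nonneg p q
  have r4 := mul_le_mul_of_nonneg_left q2 p
  nlinarith

private theorem at_other (k : ℕ) (g : Fin (2 ^ (k + 1 + 2))) (l : ℕ) (h : Fin (2 ^ (l + 2)))
    (h1 : l ≠ k) (h2 : l ≠ k + 1) (h3 : l ≠ k + 1 + 1) :
    (Phi 𝕜 d k g : L4 𝕜 J) ⟨l, h⟩ = 0 := by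
  rw [Phi_coe]
  have e1 : ∑ j : Fin (2 ^ (k + 1 + 1)),
        ((d.τ (k + 1) j g : ℝ) : 𝕜) * v 𝕜 d (k + 1) j ⟨l, h⟩ = 0 := by
    refine Finset.sum_eq_zero (fun j _ => ?_)
    rw [v_at_other 𝕜 d (k + 1) j l h2 h3 h, mul_zero]
  have e2 : ∑ j : Fin (2 ^ (k + 1)),
        ((d.σ (k + 1) j g : ℝ) : 𝕜) * v 𝕜 d k j ⟨l, h⟩ = 0 := by
    refine Finset.sum_eq_zero (fun j _ => ?_)
    rw [v_at_other 𝕜 d k j l h1 h2 h, mul_zero]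
  rw [e1, e2]
  simp

private noncomputable def blk (l : ℕ) : Finset J :=
  (Finset.univ : Finset (Fin (2 ^ (l + 2)))).map ⟨fun h => (⟨l, h⟩ : J), fun a b hab => by
    simpa using hab⟩

private theorem mem_blk (l : ℕ) (i : J) : i ∈ blk l ↔ i.1 = l := by
  unfold blk
  simp only [Finset.mem_map, Finset.mem_univ, true_and, Function.Embedding.coeFn_mk]
  constructor
  · rintro ⟨a, rfl⟩; rfl
  · rintro rfl
    exact ⟨i.2, rfl⟩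

private theorem card_blk (l : ℕ) : (blk l).card = 2 ^ (l + 2) := by
  unfold blk
  rw [Finset.card_map, Finset.card_univ, Fintype.card_fin]

private theorem Phi_le (k : ℕ) (g : Fin (2 ^ (k + 1 + 2))) (i : J) :
    ‖(Phi 𝕜 d k g : L4 𝕜 J) i‖ ≤ BB k := by
  obtain ⟨l, h⟩ := i
  by_cases h1 : l = k
  · subst h1; exact at_lo 𝕜 d l g h
  by_cases h2 : l = k + 1
  · subst h2; exact at_mid 𝕜 d k g h
  by_cases h3 : l = k + 1 + 1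
  · subst h3; exact at_hi 𝕜 d k g h
  rw [at_other 𝕜 d k g l h h1 h2 h3, norm_zero]
  exact BB_nonneg k

private theorem fin_bound (k : ℕ) : (28 : ℝ) * 2 ^ k * BB k ^ 4 ≤ cc k ^ 4 := by
  have hs : Real.sqrt 2 ^ 4 = 4 := by
    have := Real.sq_sqrt (show (0 : ℝ) ≤ 2 by norm_num)
    calc Real.sqrt 2 ^ 4 = (Real.sqrt 2 ^ 2) ^ 2 := by ring
      _ = 4 := by rw [this]; norm_num
  have hq : (Real.sqrt (Real.sqrt (1 / 2))) ^ 4 = 1 / 2 := by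
    have h1 := Real.sq_sqrt (Real.sqrt_nonneg (1 / 2))
    have h2 := Real.sq_sqrt (show (0 : ℝ) ≤ 1 / 2 by norm_num)
    calc (Real.sqrt (Real.sqrt (1 / 2))) ^ 4 = ((Real.sqrt (Real.sqrt (1 / 2))) ^ 2) ^ 2 := by ring
      _ = 1 / 2 := by rw [h1, h2]
  have e1 : BB k ^ 4 = ((2 : ℝ) ^ k)⁻¹ ^ 4 * (4 * k + 16) ^ 4 * (4 * 4 ^ k) := by
    unfold BB D
    push_cast
    have : (Real.sqrt 2 ^ (k + 1)) ^ 4 = 4 * 4 ^ k := by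
      rw [← pow_mul, mul_comm (k + 1) 4, pow_mul, hs, pow_succ]; ring
    calc (((2 : ℝ) ^ k)⁻¹ * ((4 * (k + 1) + 12) * Real.sqrt 2 ^ (k + 1))) ^ 4
        = ((2 : ℝ) ^ k)⁻¹ ^ 4 * (4 * k + 16) ^ 4 * (Real.sqrt 2 ^ (k + 1)) ^ 4 := by ring
      _ = _ := by rw [this]
  have e2 : cc k ^ 4 = 256 * (4 * k + 16) ^ 4 * ((2 : ℝ) ^ k)⁻¹ := by
    unfold cc
    have : (Real.sqrt (Real.sqrt (1 / 2)) ^ k) ^ 4 = ((2 : ℝ) ^ k)⁻¹ := by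
      rw [← pow_mul, mul_comm k 4, pow_mul, hq, one_div, inv_pow]
    calc (4 * (4 * (k : ℝ) + 16) * Real.sqrt (Real.sqrt (1 / 2)) ^ k) ^ 4
        = 256 * (4 * k + 16) ^ 4 * (Real.sqrt (Real.sqrt (1 / 2)) ^ k) ^ 4 := by ring
      _ = _ := by rw [this]
  rw [e1, e2]
  have e3 : (4 : ℝ) ^ k = 2 ^ k * 2 ^ k := by rw [← mul_pow]; norm_num
  rw [e3]
  have hp : (2 : ℝ) ^ k ≠ 0 := by positivity
  have e4 : (28 : ℝ) * 2 ^ k * (((2 : ℝ) ^ k)⁻¹ ^ 4 * (4 * k + 16) ^ 4 * (4 * (2 ^ k * 2 ^ k))) =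
      112 * (4 * k + 16) ^ 4 * ((2 : ℝ) ^ k)⁻¹ := by
    field_simp
    ring
  rw [e4]
  have : (0 : ℝ) ≤ (4 * k + 16) ^ 4 * ((2 : ℝ) ^ k)⁻¹ := by positivity
  nlinarith

theorem Phi_norm (k : ℕ) (g : Fin (2 ^ (k + 1 + 2))) : ‖Phi 𝕜 d k g‖ ≤ cc k := by
  have hcc : 0 ≤ cc k := by unfold cc; positivity
  refine le_of_pow_le_pow_left₀ (n := 4) (by norm_num) hcc ?_
  have h0 : ‖Phi 𝕜 d k g‖ = ‖(Phi 𝕜 d k g : L4 𝕜 J)‖ := rfl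
  rw [h0, norm_pow_four]
  have hs : ∀ i ∉ blk k ∪ blk (k + 1) ∪ blk (k + 1 + 1), ‖(Phi 𝕜 d k g : L4 𝕜 J) i‖ ^ 4 = 0 := by
    intro i hi
    simp only [Finset.mem_union, mem_blk, not_or] at hi
    obtain ⟨l, h⟩ := i
    rw [at_other 𝕜 d k g l h hi.1.1 hi.1.2 hi.2, norm_zero]
    norm_num
  rw [tsum_eq_sum hs]
  refine le_trans ?_ (fin_bound k)
  have hcard : ((blk k ∪ blk (k + 1) ∪ blk (k + 1 + 1)).card : ℝ) ≤ 28 * 2 ^ k := by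
    have h1 : (blk k ∪ blk (k + 1) ∪ blk (k + 1 + 1)).card ≤ 28 * 2 ^ k := by
      refine (Finset.card_union_le _ _).trans ?_
      have := Finset.card_union_le (blk k) (blk (k + 1))
      rw [card_blk, card_blk] at this
      rw [card_blk]
      have e : 2 ^ (k + 2) = 4 * 2 ^ k := by ring
      have e' : 2 ^ (k + 1 + 2) = 8 * 2 ^ k := by ring
      have e'' : 2 ^ (k + 1 + 1 + 2) = 16 * 2 ^ k := by ring
      rw [e, e'] at this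
      rw [e'']
      omega
    exact_mod_cast h1
  calc ∑ i ∈ blk k ∪ blk (k + 1) ∪ blk (k + 1 + 1), ‖(Phi 𝕜 d k g : L4 𝕜 J) i‖ ^ 4
      ≤ ∑ _i ∈ blk k ∪ blk (k + 1) ∪ blk (k + 1 + 1), BB k ^ 4 :=
        Finset.sum_le_sum (fun i _ => pow_le_pow_left₀ (norm_nonneg _) (Phi_le 𝕜 d k g i) 4)
    _ = ((blk k ∪ blk (k + 1) ∪ blk (k + 1 + 1)).card : ℝ) * BB k ^ 4 := by
        rw [Finset.sum_const, nsmul_eq_mul]
    _ ≤ 28 * 2 ^ k * BB k ^ 4 :=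
        mul_le_mul_of_nonneg_right hcard (pow_nonneg (BB_nonneg k) 4)

end Pool.H30.DV
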