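import Pool.Agent.H30.DV.BB
import Pool.Agent.H30.DV.CO
import Pool.Agent.H30.DV.PH

/-!
# [H30 DV CT] Davie's space has no bounded compact approximation of the identity

THEOREM `no_approx`: there is no sequence `A n` of operators on Davie's space with `‖A n‖ ≤ 1`,
`A n x → 0` for all `x`, and `id - A n` compact for all `n`.

PROOF.  For each `n`: `beta k (A n) = beta k id - beta k (id - A n) → 1` as `k → ∞` (`beta_id`,
`beta_sub`, `beta_compact`). Let `m n k = 2^{-(k+3)} ∑_g ‖A n (Φ k g)‖`. By `beta_step`,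
`‖beta (k+1) (A n) - beta k (A n)‖ ≤ m n k`, and `m n k ≤ cc k` by `Phi_norm` and `‖A n‖ ≤ 1`
(average of `2^(k+3)` numbers `≤ cc k`). `cc` is summable (`cc_summable` below). So for all `k`,
`‖beta k (A n)‖ ≤ ‖beta 0 (A n)‖ + ∑_{i<k} m n i ≤ ‖beta 0 (A n)‖ + ∑' i, m n i`; let `k → ∞`:
`1 ≤ ‖beta 0 (A n)‖ + ∑' i, m n i` for every `n`. As `n → ∞`: `beta 0 (A n) → 0` (a finite
combination of coordinates of `A n (vX 0 j) → 0`), and `∑' i, m n i → 0` by dominated convergence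
(`tendsto_tsum_of_dominated_convergence` with bound `cc`; for fixed `i`, `m n i → 0` since it is a
finite sum of `‖A n x‖ → 0`). So `1 ≤ 0`, contradiction.
`cc_summable`: `0 ≤ √√(1/2) < 1`, use `summable_pow_mul_geometric_of_norm_lt_one` (for `k^1 r^k` and
`r^k`).
-/

namespace Pool.H30.DV

open Filter Topology

theorem cc_summable : Summable cc := by
  set r : ℝ := Real.sqrt (Real.sqrt (1 / 2)) with hr
  have h0 : 0 ≤ r := Real.sqrt_nonneg _
  have h1 : r < 1 := by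
    rw [hr]
    have : Real.sqrt (1 / 2) < 1 := by
      rw [Real.sqrt_lt' one_pos]; norm_num
    rw [Real.sqrt_lt' one_pos]
    simpa using this
  have hn : ‖r‖ < 1 := by rw [Real.norm_of_nonneg h0]; exact h1
  have s1 := (summable_pow_mul_geometric_of_norm_lt_one 1 hn).mul_left 16
  have s2 := (summable_pow_mul_geometric_of_norm_lt_one 0 hn).mul_left 64
  refine (s1.add s2).congr fun k => ?_
  unfold cc
  rw [← hr]
  ring

variable (𝕜 : Type) [RCLike 𝕜] (d : DD)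

/-- the averages -/
private noncomputable def mm (T : XD 𝕜 d →L[𝕜] XD 𝕜 d) (k : ℕ) : ℝ :=
  ((2 : ℝ) ^ (k + 1 + 2))⁻¹ * ∑ g : Fin (2 ^ (k + 1 + 2)), ‖T (Phi 𝕜 d k g)‖

private theorem mm_nonneg (T : XD 𝕜 d →L[𝕜] XD 𝕜 d) (k : ℕ) : 0 ≤ mm 𝕜 d T k :=
  mul_nonneg (by positivity) (Finset.sum_nonneg fun _ _ => norm_nonneg _)

private theorem mm_le (T : XD 𝕜 d →L[𝕜] XD 𝕜 d) (hT : ‖T‖ ≤ 1) (k : ℕ) :
    mm 𝕜 d T k ≤ cc k := by
  unfold mm
  have h1 : ∑ g : Fin (2 ^ (k + 1 + 2)), ‖T (Phi 𝕜 d k g)‖ ≤ (2 : ℝ) ^ (k + 1 + 2) * cc k := by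
    calc ∑ g : Fin (2 ^ (k + 1 + 2)), ‖T (Phi 𝕜 d k g)‖
        ≤ ∑ _g : Fin (2 ^ (k + 1 + 2)), cc k := by
          refine Finset.sum_le_sum fun g _ => ?_
          refine (T.le_of_opNorm_le hT _).trans ?_
          rw [one_mul]
          exact Phi_norm 𝕜 d k g
      _ = (2 : ℝ) ^ (k + 1 + 2) * cc k := by
          rw [Finset.sum_const, Finset.card_univ, Fintype.card_fin, nsmul_eq_mul]
          push_cast
          ring
  have h2 : (0 : ℝ) < (2 : ℝ) ^ (k + 1 + 2) := by positivity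
  rw [inv_mul_le_iff₀ h2]
  exact h1

private theorem beta_le (T : XD 𝕜 d →L[𝕜] XD 𝕜 d) (k : ℕ) :
    ‖beta 𝕜 d k T‖ ≤ ‖beta 𝕜 d 0 T‖ + ∑ i ∈ Finset.range k, mm 𝕜 d T i := by
  induction k with
  | zero => simp
  | succ k ih =>
    rw [Finset.sum_range_succ]
    have h1 := beta_step 𝕜 d k T
    have h2 : ‖beta 𝕜 d (k + 1) T‖ ≤
        ‖beta 𝕜 d (k + 1) T - beta 𝕜 d k T‖ + ‖beta 𝕜 d k T‖ := by
      have := norm_add_le (beta 𝕜 d (k + 1) T - beta 𝕜 d k T) (beta 𝕜 d k T)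
      simpa using this
    have h3 : mm 𝕜 d T k = ((2 : ℝ) ^ (k + 1 + 2))⁻¹ *
      ∑ g : Fin (2 ^ (k + 1 + 2)), ‖T (Phi 𝕜 d k g)‖ := rfl
    rw [← h3] at h1
    linarith

theorem no_approx (A : ℕ → (XD 𝕜 d →L[𝕜] XD 𝕜 d)) (h1 : ∀ n, ‖A n‖ ≤ 1)
    (h2 : ∀ x, Tendsto (fun n => A n x) atTop (𝓝 0))
    (h3 : ∀ n, IsCompactOperator (ContinuousLinearMap.id 𝕜 (XD 𝕜 d) - A n)) : False := by
  have hsm : ∀ n, Summable (mm 𝕜 d (A n)) := fun n =>
    Summable.of_nonneg_of_le (mm_nonneg 𝕜 d (A n)) (mm_le 𝕜 d (A n) (h1 n)) cc_summable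
  -- lower bound
  have key : ∀ n, 1 ≤ ‖beta 𝕜 d 0 (A n)‖ + ∑' i, mm 𝕜 d (A n) i := by
    intro n
    have e1 : ∀ k, beta 𝕜 d k (A n) =
        1 - beta 𝕜 d k (ContinuousLinearMap.id 𝕜 (XD 𝕜 d) - A n) := by
      intro k
      rw [beta_sub, beta_id]
      ring
    have e2 : Tendsto (fun k => beta 𝕜 d k (A n)) atTop (𝓝 1) := by
      have := (tendsto_const_nhds (x := (1 : 𝕜)) (f := (atTop : Filter ℕ))).sub
        (beta_compact 𝕜 d _ (h3 n))
      rw [sub_zero] at this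
      exact this.congr fun k => (e1 k).symm
    have e3 : Tendsto (fun k => ‖beta 𝕜 d k (A n)‖) atTop (𝓝 1) := by
      have := e2.norm
      rwa [norm_one] at this
    refine le_of_tendsto e3 (Eventually.of_forall fun k => ?_)
    refine (beta_le 𝕜 d (A n) k).trans ?_
    have := (hsm n).sum_le_tsum (Finset.range k) (fun i _ => mm_nonneg 𝕜 d (A n) i)
    linarith
  -- the right hand side tends to zero
  have t1 : Tendsto (fun n => beta 𝕜 d 0 (A n)) atTop (𝓝 0) := by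
    have hc : ∀ (j : Fin (2 ^ (0 + 1))) (i : J),
        Tendsto (fun n => (A n (vX 𝕜 d 0 j) : L4 𝕜 J) i) atTop (𝓝 0) := by
      intro j i
      have h := (h2 (vX 𝕜 d 0 j)).norm
      rw [norm_zero] at h
      refine squeeze_zero_norm (fun n => ?_) h
      exact norm_apply_le (A n (vX 𝕜 d 0 j) : L4 𝕜 J) i
    have : Tendsto (fun n => ((2 : 𝕜) ^ (0 + 1))⁻¹ * ∑ j : Fin (2 ^ (0 + 1)),
        (((2 : 𝕜) ^ (0 + 2))⁻¹ * ∑ g : Fin (2 ^ (0 + 2)), ((d.τ 0 j g : ℝ) : 𝕜) *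
          (A n (vX 𝕜 d 0 j) : L4 𝕜 J) ⟨0, g⟩)) atTop (𝓝 (((2 : 𝕜) ^ (0 + 1))⁻¹ *
        ∑ j : Fin (2 ^ (0 + 1)), (((2 : 𝕜) ^ (0 + 2))⁻¹ * ∑ g : Fin (2 ^ (0 + 2)),
          ((d.τ 0 j g : ℝ) : 𝕜) * 0))) := by
      refine Tendsto.const_mul _ (tendsto_finsetSum _ fun j _ => Tendsto.const_mul _
        (tendsto_finsetSum _ fun g _ => Tendsto.const_mul _ (hc j ⟨0, g⟩)))
    simp only [mul_zero, Finset.sum_const_zero] at this
    exact this
  have t2 : Tendsto (fun n => ∑' i, mm 𝕜 d (A n) i) atTop (𝓝 (∑' _i : ℕ, (0 : ℝ))) := by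
    refine tendsto_tsum_of_dominated_convergence cc_summable (fun i => ?_)
      (Eventually.of_forall fun n i => ?_)
    · have : Tendsto (fun n => ((2 : ℝ) ^ (i + 1 + 2))⁻¹ *
          ∑ g : Fin (2 ^ (i + 1 + 2)), ‖A n (Phi 𝕜 d i g)‖) atTop
          (𝓝 (((2 : ℝ) ^ (i + 1 + 2))⁻¹ * ∑ _g : Fin (2 ^ (i + 1 + 2)), 0)) := by
        refine Tendsto.const_mul _ (tendsto_finsetSum _ fun g _ => ?_)
        have h := (h2 (Phi 𝕜 d i g)).norm
        rwa [norm_zero] at h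
      simp only [mul_zero, Finset.sum_const_zero] at this
      exact this
    · rw [Real.norm_of_nonneg (mm_nonneg 𝕜 d (A n) i)]
      exact mm_le 𝕜 d (A n) (h1 n) i
  have t3 : Tendsto (fun n => ‖beta 𝕜 d 0 (A n)‖ + ∑' i, mm 𝕜 d (A n) i) atTop (𝓝 0) := by
    have := t1.norm.add t2
    simpa using this
  have := ge_of_tendsto t3 (Eventually.of_forall key)
  linarith

/-- The space is infinite dimensional (otherwise the identity would be compact and `A n = 0`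
would contradict `no_approx`; finite dimensional normed spaces over `𝕜` are proper:
`FiniteDimensional.proper_rclike`, and a continuous linear map on a proper space, here the
identity, is compact: the closed unit ball is a compact neighbourhood of `0`). -/
theorem XD_infinite : ¬ FiniteDimensional 𝕜 (XD 𝕜 d) := by
  intro hfin
  have : ProperSpace (XD 𝕜 d) := FiniteDimensional.proper_rclike 𝕜 _
  refine no_approx 𝕜 d (fun _ => 0) (fun _ => ?_) (fun x => by simp) (fun n => ?_)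
  · exact (le_of_eq (norm_zero (E := XD 𝕜 d →L[𝕜] XD 𝕜 d))).trans zero_le_one
  rw [sub_zero]
  refine ⟨Metric.closedBall 0 1, isCompact_closedBall _ _, ?_⟩
  exact Metric.closedBall_mem_nhds 0 one_pos

end Pool.H30.DV
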