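import Pool.Agent.H15.FamBasic

/-!
Matroid union for two copies of a vector family: covering and packing by two independent sets.
-/

set_option linter.unusedSectionVars false

open Module Submodule

namespace H30.DV

open H15

variable {ι : Type*} [Fintype ι] {E : Type*} [AddCommGroup E] [Module ℝ E] [FiniteDimensional ℝ E]

theorem sp_empty' {v : ι → E} : sp v (∅ : Set ι) = ⊥ := by
  unfold sp; rw [Set.image_empty, span_empty]

theorem bot_sup_fin (F : Submodule ℝ E) :
    finrank ℝ (⊥ ⊔ F : Submodule ℝ E) = finrank ℝ F := by rw [bot_sup_eq]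

/-- relative covering theorem. -/
theorem cover_rel [DecidableEq ι] (v : ι → E) : ∀ (n : ℕ) (I : Finset ι), I.card = n →
    ∀ A B : Submodule ℝ E,
    (∀ X : Finset ι, X ⊆ I → X.card + finrank ℝ A + finrank ℝ B ≤
      finrank ℝ (A ⊔ sp v X : Submodule ℝ E) + finrank ℝ (B ⊔ sp v X : Submodule ℝ E)) →
    ∃ X Y : Finset ι, Disjoint X Y ∧ X ∪ Y = I ∧
      finrank ℝ (A ⊔ sp v X : Submodule ℝ E) = finrank ℝ A + X.card ∧
      finrank ℝ (B ⊔ sp v Y : Submodule ℝ E) = finrank ℝ B + Y.card := by
  intro n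
  induction n using Nat.strong_induction_on with
  | _ n ih =>
  intro I hI A B hcond
  by_cases hT : ∃ X : Finset ι, X ⊆ I ∧ X.Nonempty ∧ X ≠ I ∧
      X.card + finrank ℝ A + finrank ℝ B =
      finrank ℝ (A ⊔ sp v X : Submodule ℝ E) + finrank ℝ (B ⊔ sp v X : Submodule ℝ E)
  · obtain ⟨X, hXI, hXne, hXI', ht⟩ := hT
    have hlt : X.card < n := by
      rw [← hI]; exact Finset.card_lt_card (Finset.ssubset_iff_subset_ne.2 ⟨hXI, hXI'⟩)
    obtain ⟨X1, X2, hd, hu, h1, h2⟩ := ih X.card hlt X rfl A B
      (fun Z hZ => hcond Z (hZ.trans hXI))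
    have hX1 : X1 ⊆ X := hu ▸ Finset.subset_union_left
    have hX2 : X2 ⊆ X := hu ▸ Finset.subset_union_right
    have hcard : X.card = X1.card + X2.card := by rw [← hu, Finset.card_union_of_disjoint hd]
    have hle1 : (A ⊔ sp v X1 : Submodule ℝ E) ≤ A ⊔ sp v X :=
      sup_le_sup_left (sp_mono (by exact_mod_cast hX1)) _
    have hle2 : (B ⊔ sp v X2 : Submodule ℝ E) ≤ B ⊔ sp v X :=
      sup_le_sup_left (sp_mono (by exact_mod_cast hX2)) _
    have hf1 := finrank_mono (R := ℝ) hle1
    have hf2 := finrank_mono (R := ℝ) hle2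
    have he1 : (A ⊔ sp v X1 : Submodule ℝ E) = A ⊔ sp v X :=
      eq_of_le_of_finrank_eq hle1 (by omega)
    have he2 : (B ⊔ sp v X2 : Submodule ℝ E) = B ⊔ sp v X :=
      eq_of_le_of_finrank_eq hle2 (by omega)
    have hlt2 : (I \ X).card < n := by
      rw [← hI]
      exact Finset.card_lt_card (Finset.sdiff_ssubset hXI hXne)
    obtain ⟨Z1, Z2, hd', hu', g1, g2⟩ := ih (I \ X).card hlt2 (I \ X) rfl (A ⊔ sp v X) (B ⊔ sp v X)
      (by
        intro Z hZ
        have hdis : Disjoint X Z := by
          rw [Finset.disjoint_left]; intro a ha hb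
          exact (Finset.mem_sdiff.1 (hZ hb)).2 ha
        have := hcond (X ∪ Z) (Finset.union_subset hXI (hZ.trans Finset.sdiff_subset))
        rw [Finset.card_union_of_disjoint hdis, Finset.coe_union, sp_union, ← sup_assoc,
          ← sup_assoc] at this
        omega)
    have hZ1 : Z1 ⊆ I \ X := hu' ▸ Finset.subset_union_left
    have hZ2 : Z2 ⊆ I \ X := hu' ▸ Finset.subset_union_right
    have hdj : ∀ {P Q : Finset ι}, P ⊆ X → Q ⊆ I \ X → Disjoint P Q := by
      intro P Q hP hQ
      rw [Finset.disjoint_left]; intro a ha hb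
      exact (Finset.mem_sdiff.1 (hQ hb)).2 (hP ha)
    refine ⟨X1 ∪ Z1, X2 ∪ Z2, ?_, ?_, ?_, ?_⟩
    · rw [Finset.disjoint_union_left, Finset.disjoint_union_right, Finset.disjoint_union_right]
      exact ⟨⟨hd, hdj hX1 hZ2⟩, ⟨(hdj hX2 hZ1).symm, hd'⟩⟩
    · ext a
      simp only [Finset.mem_union]
      have h1 : a ∈ X ↔ a ∈ X1 ∨ a ∈ X2 := by rw [← hu, Finset.mem_union]
      have h2 : a ∈ I \ X ↔ a ∈ Z1 ∨ a ∈ Z2 := by rw [← hu', Finset.mem_union]
      have h3 : a ∈ X → a ∈ I := fun h => hXI h
      rw [Finset.mem_sdiff] at h2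
      tauto
    · rw [Finset.coe_union, sp_union, ← sup_assoc, he1, g1, ← he1, h1,
        Finset.card_union_of_disjoint (hdj hX1 hZ1)]
      omega
    · rw [Finset.coe_union, sp_union, ← sup_assoc, he2, g2, ← he2, h2,
        Finset.card_union_of_disjoint (hdj hX2 hZ2)]
      omega
  · push Not at hT
    rcases I.eq_empty_or_nonempty with rfl | ⟨e, he⟩
    · refine ⟨∅, ∅, by simp, by simp, ?_, ?_⟩
      · rw [Finset.coe_empty, sp_empty', sup_bot_eq, Finset.card_empty, add_zero]
      · rw [Finset.coe_empty, sp_empty', sup_bot_eq, Finset.card_empty, add_zero]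
    have hone := hcond {e} (Finset.singleton_subset_iff.2 he)
    rw [Finset.card_singleton, Finset.coe_singleton] at hone
    have hlt : (I.erase e).card < n := by
      rw [← hI]; exact Finset.card_erase_lt_of_mem he
    have hstrict : ∀ X : Finset ι, X ⊆ I.erase e → X.Nonempty →
        X.card + finrank ℝ A + finrank ℝ B + 1 ≤
      finrank ℝ (A ⊔ sp v X : Submodule ℝ E) + finrank ℝ (B ⊔ sp v X : Submodule ℝ E) := by
      intro X hX hne
      have hXI : X ⊆ I := hX.trans (Finset.erase_subset _ _)
      have hne' : X ≠ I := by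
        rintro rfl
        exact (Finset.notMem_erase e X) (hX he)
      have h1 := hcond X hXI
      have h2 := hT X hXI hne hne'
      omega
    have hsing : sp v ({e} : Set ι) = span ℝ {v e} := by simp [sp]
    have hins : ∀ X : Finset ι, sp v (insert e X : Finset ι) = span ℝ {v e} ⊔ sp v X := by
      intro X; rw [Finset.coe_insert, sp_insert]
    rw [hsing] at hone
    by_cases hA : v e ∈ A
    · have hB : v e ∉ B := by
        intro hB
        rw [sup_eq_left.2 ((span_singleton_le_iff_mem _ _).2 hA),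
          sup_eq_left.2 ((span_singleton_le_iff_mem _ _).2 hB)] at hone
        omega
      have hB' : finrank ℝ (B ⊔ span ℝ {v e} : Submodule ℝ E) = finrank ℝ B + 1 := by
        rw [sup_comm, finrank_sup_singleton hB]
      obtain ⟨X, Y, hd, hu, h1, h2⟩ := ih _ hlt (I.erase e) rfl A (B ⊔ span ℝ {v e}) (by
        intro X hX
        rcases X.eq_empty_or_nonempty with rfl | hne
        · rw [Finset.coe_empty, sp_empty', sup_bot_eq, sup_bot_eq, Finset.card_empty, zero_add]
        have h1 := hstrict X hX hne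
        have h2 : finrank ℝ (B ⊔ sp v X : Submodule ℝ E) ≤
            finrank ℝ (B ⊔ span ℝ {v e} ⊔ sp v X : Submodule ℝ E) :=
          finrank_mono (sup_le_sup_right le_sup_left _)
        omega)
      have heY : e ∉ Y := fun h => by
        have : e ∈ X ∪ Y := Finset.mem_union_right _ h
        rw [hu] at this; exact Finset.notMem_erase e I this
      have heX : e ∉ X := fun h => by
        have : e ∈ X ∪ Y := Finset.mem_union_left _ h
        rw [hu] at this; exact Finset.notMem_erase e I this
      refine ⟨X, insert e Y, ?_, ?_, h1, ?_⟩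
      · rw [Finset.disjoint_insert_right]; exact ⟨heX, hd⟩
      · rw [Finset.union_insert, hu, Finset.insert_erase he]
      · rw [hins, ← sup_assoc, h2, hB', Finset.card_insert_of_notMem heY]; omega
    · have hA' : finrank ℝ (A ⊔ span ℝ {v e} : Submodule ℝ E) = finrank ℝ A + 1 := by
        rw [sup_comm, finrank_sup_singleton hA]
      obtain ⟨X, Y, hd, hu, h1, h2⟩ := ih _ hlt (I.erase e) rfl (A ⊔ span ℝ {v e}) B (by
        intro X hX
        rcases X.eq_empty_or_nonempty with rfl | hne
        · rw [Finset.coe_empty, sp_empty', sup_bot_eq, sup_bot_eq, Finset.card_empty, zero_add]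
        have h1 := hstrict X hX hne
        have h2 : finrank ℝ (A ⊔ sp v X : Submodule ℝ E) ≤
            finrank ℝ (A ⊔ span ℝ {v e} ⊔ sp v X : Submodule ℝ E) :=
          finrank_mono (sup_le_sup_right le_sup_left _)
        omega)
      have heY : e ∉ Y := fun h => by
        have : e ∈ X ∪ Y := Finset.mem_union_right _ h
        rw [hu] at this; exact Finset.notMem_erase e I this
      have heX : e ∉ X := fun h => by
        have : e ∈ X ∪ Y := Finset.mem_union_left _ h
        rw [hu] at this; exact Finset.notMem_erase e I this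
      refine ⟨insert e X, Y, ?_, ?_, ?_, h2⟩
      · rw [Finset.disjoint_insert_left]; exact ⟨heY, hd⟩
      · rw [Finset.insert_union, hu, Finset.insert_erase he]
      · rw [hins, ← sup_assoc, h1, hA', Finset.card_insert_of_notMem heX]; omega

theorem linInd_of_finrank {v : ι → E} {X : Finset ι} (h : finrank ℝ (sp v X) = X.card) :
    LinearIndepOn ℝ v (X : Set ι) := by
  have h1 : finrank ℝ (span ℝ (Set.range (fun i : X => v i))) = Fintype.card X := by
    have : Set.range (fun i : X => v i) = v '' (X : Set ι) := by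
      ext x; simp
    rw [this, Fintype.card_coe]
    exact h
  have h2 : LinearIndependent ℝ (fun i : X => v i) :=
    linearIndependent_iff_card_eq_finrank_span.2 (by rw [Set.finrank, h1])
  exact h2

/-- covering by two independent sets, with deficiency. -/
theorem cover_def [DecidableEq ι] (v : ι → E) : ∀ (n : ℕ) (I : Finset ι),
    (∀ X : Finset ι, X ⊆ I → X.card ≤ 2 * finrank ℝ (sp v X) + n) →
    ∃ X Y : Finset ι, Disjoint X Y ∧ X ∪ Y ⊆ I ∧ LinearIndepOn ℝ v (X : Set ι) ∧
      LinearIndepOn ℝ v (Y : Set ι) ∧ I.card ≤ X.card + Y.card + n := by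
  intro n
  induction n with
  | zero =>
    intro I h
    obtain ⟨X, Y, hd, hu, h1, h2⟩ := cover_rel v I.card I rfl ⊥ ⊥ (by
      intro X hX
      have := h X hX
      rw [bot_sup_fin, finrank_bot]
      omega)
    rw [bot_sup_fin, finrank_bot, zero_add] at h1 h2
    refine ⟨X, Y, hd, hu.subset, linInd_of_finrank h1, linInd_of_finrank h2, ?_⟩
    rw [← hu, Finset.card_union_of_disjoint hd]
    omega
  | succ n ih =>
    intro I h
    by_cases hn : ∀ X : Finset ι, X ⊆ I → X.card ≤ 2 * finrank ℝ (sp v X) + n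
    · obtain ⟨X, Y, h1, h2, h3, h4, h5⟩ := ih I hn
      exact ⟨X, Y, h1, h2, h3, h4, by omega⟩
    push Not at hn
    -- minimal tight set
    have hex : ∃ Z : Finset ι, Z ⊆ I ∧ 2 * finrank ℝ (sp v Z) + n < Z.card := hn
    obtain ⟨Z, ⟨hZI, hZ⟩, hmin⟩ : ∃ Z : Finset ι, (Z ⊆ I ∧ 2 * finrank ℝ (sp v Z) + n < Z.card) ∧
        ∀ Z' : Finset ι, (Z' ⊆ I ∧ 2 * finrank ℝ (sp v Z') + n < Z'.card) → Z.card ≤ Z'.card := by
      classical
      obtain ⟨Z0, hZ0⟩ := hex
      have hne : (I.powerset.filter (fun Z : Finset ι => 2 * finrank ℝ (sp v Z) + n < Z.card)).Nonempty :=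
        ⟨Z0, by rw [Finset.mem_filter, Finset.mem_powerset]; exact hZ0⟩
      obtain ⟨Z, hZ, hm⟩ := Finset.exists_min_image _ Finset.card hne
      rw [Finset.mem_filter, Finset.mem_powerset] at hZ
      exact ⟨Z, hZ, fun Z' hZ' => hm Z' (by rw [Finset.mem_filter, Finset.mem_powerset]; exact hZ')⟩
    have hZne : Z.Nonempty := by
      rw [← Finset.card_pos]; omega
    obtain ⟨e, heZ⟩ := hZne
    have hall : ∀ Z' : Finset ι, (Z' ⊆ I ∧ 2 * finrank ℝ (sp v Z') + n < Z'.card) → e ∈ Z' := by
      intro Z' hZ'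
      by_contra hcon
      have hsub : Z ∩ Z' ⊂ Z := by
        refine Finset.ssubset_iff_subset_ne.2 ⟨Finset.inter_subset_left, fun h => ?_⟩
        rw [← h] at heZ
        exact hcon (Finset.mem_inter.1 heZ).2
      have hcl := Finset.card_lt_card hsub
      have h1 : (Z ∩ Z').card ≤ 2 * finrank ℝ (sp v (Z ∩ Z' : Finset ι)) + n := by
        by_contra hc
        push Not at hc
        have := hmin _ ⟨Finset.inter_subset_left.trans hZI, hc⟩
        omega
      have h2 := h (Z ∪ Z') (Finset.union_subset hZI hZ'.1)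
      have h3 := Finset.card_union_add_card_inter Z Z'
      have h4 := Submodule.finrank_sup_add_finrank_inf_eq (sp v Z) (sp v Z')
      have h5 : finrank ℝ (sp v (Z ∩ Z' : Finset ι)) ≤ finrank ℝ (sp v Z ⊓ sp v Z' : Submodule ℝ E) := by
        apply finrank_mono
        rw [Finset.coe_inter]
        exact le_inf (sp_mono Set.inter_subset_left) (sp_mono Set.inter_subset_right)
      rw [Finset.coe_union, sp_union] at h2
      have h6 := h Z hZI
      have h7 := h Z' hZ'.1
      omega
    have heI : e ∈ I := hZI heZ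
    obtain ⟨X, Y, h1, h2, h3, h4, h5⟩ := ih (I.erase e) (by
      intro X hX
      by_contra hc
      push Not at hc
      exact Finset.notMem_erase e I (hX (hall X ⟨hX.trans (Finset.erase_subset _ _), hc⟩)))
    refine ⟨X, Y, h1, h2.trans (Finset.erase_subset _ _), h3, h4, ?_⟩
    have := Finset.card_erase_add_one heI
    omega

end H30.DV
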