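import Pool.Agent.H15.FamLink
import Pool.Agent.H97.DV.T2
import Pool.Agent.H81.ND.Exch
import Pool.Agent.H70.ND.Gstar
import Pool.Agent.H7.DV.T5
import Pool.Agent.H30.DV.MU

/-! Case I: all flats have excess at most the excess of the whole family. -/

set_option linter.unusedSectionVars false

open Module Submodule H15 Pool.Agent.H97.DV H70.ND

namespace H30.DV

variable {ι : Type*} [Fintype ι] {E : Type*} [AddCommGroup E] [Module ℝ E]
  [FiniteDimensional ℝ E] {v : ι → E} {m : ℕ}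

theorem lift_of_top {F : Submodule ℝ E} (htop : sp v {i | v i ∉ F} = ⊤) {Y : Set ι}
    (hY : LinearIndepOn ℝ v Y) (hYF : sp v Y = F) :
    ∀ y ∈ Y, ∃ g ∈ sp v {i | v i ∉ F} ⊓ F, g ∉ sp v (Y \ {y}) := by
  intro y hy
  refine ⟨v y, ⟨by rw [htop]; trivial, by rw [← hYF]; exact mem_sp hy⟩, ?_⟩
  intro hmem
  have h1 : sp v Y ≤ sp v (Y \ {y}) := by
    rw [sp_le]
    intro i hi
    by_cases h : i = y
    · rw [h]; exact hmem
    · exact mem_sp ⟨hi, h⟩
  have h2 := finrank_mono (R := ℝ) h1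
  rw [finrank_sp_eq hY] at h2
  have h3 := finrank_sp_le (v := v) (X := Y \ {y})
  rw [Set.ncard_sdiff_singleton_of_mem hy] at h3
  have h4 : 0 < Y.ncard := (Set.ncard_pos (Set.toFinite _)).2 ⟨y, hy⟩
  omega

theorem three_outside [Nonempty ι] (hc : Cosimple v) {H : Submodule ℝ E} (hH : H ≠ ⊤) :
    3 ≤ {i | v i ∉ H}.ncard := by
  classical
  by_contra hcon
  push Not at hcon
  have hsub : ∃ a b : ι, {i | v i ∉ H} ⊆ ({a, b} : Set ι) := by
    rcases Nat.lt_or_ge {i | v i ∉ H}.ncard 1 with h | h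
    · have he : {i | v i ∉ H} = ∅ := by
        rw [← Set.ncard_eq_zero (Set.toFinite _)]; omega
      exact ⟨Classical.arbitrary ι, Classical.arbitrary ι, by rw [he]; exact Set.empty_subset _⟩
    · rcases Nat.lt_or_ge {i | v i ∉ H}.ncard 2 with h' | h'
      · obtain ⟨a, ha⟩ := Set.ncard_eq_one.1 (show {i | v i ∉ H}.ncard = 1 by omega)
        exact ⟨a, a, by rw [ha]; simp⟩
      · obtain ⟨a, b, -, hab⟩ := Set.ncard_eq_two.1 (show {i | v i ∉ H}.ncard = 2 by omega)
        exact ⟨a, b, by rw [hab]⟩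
  obtain ⟨a, b, hab⟩ := hsub
  apply hH
  rw [eq_top_iff, ← hc a b, sp_le]
  intro i hi
  by_contra hiH
  exact hi (hab hiH)

/-- from `cover_def`, in terms of subspaces. -/
theorem cover_sub (v : ι → E) (F : Submodule ℝ E) (n : ℕ)
    (h : ∀ G : Submodule ℝ E, G ≤ F → {i | v i ∈ G}.ncard ≤ 2 * finrank ℝ G + n) :
    ∃ X Y : Set ι, Disjoint X Y ∧ (∀ i ∈ X, v i ∈ F) ∧ (∀ i ∈ Y, v i ∈ F) ∧
      LinearIndepOn ℝ v X ∧ LinearIndepOn ℝ v Y ∧
      {i | v i ∈ F}.ncard ≤ X.ncard + Y.ncard + n := by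
  classical
  obtain ⟨X, Y, hd, hu, hX, hY, hc⟩ := cover_def v n (Finset.univ.filter (fun i => v i ∈ F)) (by
    intro Z hZ
    have hZF : sp v (Z : Set ι) ≤ F := by
      rw [sp_le]
      intro i hi
      exact (Finset.mem_filter.1 (hZ hi)).2
    have h1 := h _ hZF
    have h2 : Z.card ≤ {i | v i ∈ sp v (Z : Set ι)}.ncard := by
      rw [← Set.ncard_coe_finset]
      exact Set.ncard_le_ncard (fun i hi => mem_sp hi) (Set.toFinite _)
    omega)
  have hcard : (Finset.univ.filter (fun i => v i ∈ F)).card = {i | v i ∈ F}.ncard := by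
    rw [← Set.ncard_coe_finset]; congr 1; ext i; simp
  refine ⟨X, Y, by exact_mod_cast hd, ?_, ?_, hX, hY, ?_⟩
  · intro i hi
    exact (Finset.mem_filter.1 (hu (Finset.mem_union_left _ hi))).2
  · intro i hi
    exact (Finset.mem_filter.1 (hu (Finset.mem_union_right _ hi))).2
  · rw [Set.ncard_coe_finset, Set.ncard_coe_finset, ← hcard]; exact hc

theorem sp_eq_of_card {F : Submodule ℝ E} {X : Set ι} (hX : LinearIndepOn ℝ v X)
    (hXF : ∀ i ∈ X, v i ∈ F) (hc : finrank ℝ F ≤ X.ncard) : sp v X = F := by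
  refine eq_of_le_of_finrank_le (sp_le.2 hXF) ?_
  rw [finrank_sp_eq hX]; exact hc

theorem ncard_le_of_mem {F : Submodule ℝ E} {X : Set ι} (hX : LinearIndepOn ℝ v X)
    (hXF : ∀ i ∈ X, v i ∈ F) : X.ncard ≤ finrank ℝ F := by
  rw [← finrank_sp_eq hX]; exact finrank_mono (sp_le.2 hXF)

theorem ncard_mem_add (v : ι → E) (F : Submodule ℝ E) :
    {i | v i ∈ F}.ncard + {i | v i ∉ F}.ncard = Fintype.card ι := by
  have h := Set.ncard_add_ncard_compl {i | v i ∈ F}
  rw [Nat.card_eq_fintype_card] at h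
  exact h

/-- two disjoint bases with generic lifts. -/
theorem good_bases [Nonempty ι] {D : ℕ} (hc : Cosimple v) (hD : finrank ℝ E = D)
    (hmult : ∀ G : Submodule ℝ E, finrank ℝ G ≤ 1 → {i | v i ∈ G}.ncard ≤ 2)
    {L : Submodule ℝ E} (hL : LinearIndepOn ℝ v {i | v i ∉ L})
    (hLD : D ≤ {i | v i ∉ L}.ncard + 1) {F : Submodule ℝ E} (hFL : F ≤ L)
    {X Y : Set ι} (hd : Disjoint X Y) (hX : LinearIndepOn ℝ v X) (hY : LinearIndepOn ℝ v Y)
    (hXF : sp v X = F) (hYF : sp v Y = F) :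
    ∃ X' Y' : Set ι, Disjoint X' Y' ∧ LinearIndepOn ℝ v X' ∧ LinearIndepOn ℝ v Y' ∧
      sp v X' = F ∧ sp v Y' = F ∧ ∀ y ∈ Y', ∃ g ∈ sp v {i | v i ∉ F} ⊓ F,
        g ∉ sp v (Y' \ {y}) := by
  by_cases htop : sp v {i | v i ∉ F} = ⊤
  · exact ⟨X, Y, hd, hX, hY, hXF, hYF, lift_of_top htop hY hYF⟩
  · set H := sp v {i | v i ∉ F} with hH
    have hsub : {i | v i ∉ L} ⊆ {i | v i ∉ F} := fun i hi h => hi (hFL h)
    have h1 : sp v {i | v i ∉ L} ≤ H := sp_mono hsub
    have h2 := finrank_mono (R := ℝ) h1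
    rw [finrank_sp_eq hL] at h2
    have h3 : finrank ℝ H < finrank ℝ E := Submodule.finrank_lt (lt_top_iff_ne_top.2 htop).ne
    have hout : ∀ i, v i ∉ H → v i ∈ F := by
      intro i hi
      by_contra hcon
      exact hi (mem_sp hcon)
    exact exchange F H (by omega) hout (three_outside hc htop) hmult hd hX hY hXF hYF

theorem case_one [Nonempty ι] {k D : ℕ} (hc : Cosimple v) (hb : Bdd v k)
    (hD : finrank ℝ E = D) (hkD : k + 2 ≤ D) (hN : Fintype.card ι + 1 = D + 2 * k)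
    (h0 : ∀ i, v i ≠ 0)
    (hmult : ∀ G : Submodule ℝ E, finrank ℝ G ≤ 1 → {i | v i ∈ G}.ncard ≤ 2)
    (hfc : ∀ G : Submodule ℝ E, finrank ℝ G ≤ k → {i | v i ∈ G}.ncard ≤ k + finrank ℝ G)
    (hpack : ∀ G : Submodule ℝ E, {i | v i ∈ G}.ncard + 2 * finrank ℝ E ≤
      Fintype.card ι + 2 * finrank ℝ G)
    (hkl : ∀ G : Submodule ℝ E, 2 ≤ finrank ℝ G → finrank ℝ G ≤ k →
      (∀ P Q : Set ι, SVec (G.mkQ ∘ v) P Q →
      finrank ℝ G + finrank ℝ (LL (G.mkQ ∘ v) P Q) ≤ k) → False) : False := by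
  classical
  -- step 1: two disjoint bases of E
  have hbot : {i | v i ∈ (⊥ : Submodule ℝ E)}.ncard = 0 := by
    rw [Set.ncard_eq_zero (Set.toFinite _)]
    ext i; simp [h0 i]
  have hND : 2 * D ≤ Fintype.card ι := by
    have := hpack ⊥
    rw [hbot, finrank_bot, hD] at this
    omega
  obtain ⟨X, Y, hd, -, -, hX, hY, hcard⟩ := cover_sub v ⊤ (Fintype.card ι - 2 * D) (by
    intro G _
    have := hpack G
    rw [hD] at this
    omega)
  have htop : {i | v i ∈ (⊤ : Submodule ℝ E)}.ncard = Fintype.card ι := by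
    have := ncard_mem_add v ⊤
    have h2 : {i | v i ∉ (⊤ : Submodule ℝ E)}.ncard = 0 := by
      rw [Set.ncard_eq_zero (Set.toFinite _)]
      ext i; simp
    omega
  rw [htop] at hcard
  have hXD := ncard_le_of_mem (F := ⊤) hX (fun i _ => mem_top)
  have hYD := ncard_le_of_mem (F := ⊤) hY (fun i _ => mem_top)
  rw [finrank_top, hD] at hXD hYD
  have hXt : sp v X = ⊤ := sp_eq_of_card hX (fun i _ => mem_top) (by rw [finrank_top]; omega)
  have hYt : sp v Y = ⊤ := sp_eq_of_card hY (fun i _ => mem_top) (by rw [finrank_top]; omega)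
  -- step 2: the spanning frame
  obtain ⟨L, hLk, hLi⟩ := spanning_frame hc hb hd hXt hYt
  have hLD := ncard_le_of_mem (F := ⊤) hLi (fun i _ => mem_top)
  rw [finrank_top, hD] at hLD
  have hLs := ncard_mem_add v L
  have hLf := hfc L hLk
  by_cases hex : ∃ G : Submodule ℝ E, G ≤ L ∧ 2 * finrank ℝ G + 1 ≤ {i | v i ∈ G}.ncard
  · -- choose G of minimal rank
    obtain ⟨G, ⟨hGL, hGc⟩, hmin⟩ := (measure (fun G : Submodule ℝ E => finrank ℝ G)).wf.has_min
      {G : Submodule ℝ E | G ≤ L ∧ 2 * finrank ℝ G + 1 ≤ {i | v i ∈ G}.ncard} hex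
    have hG2 : 2 ≤ finrank ℝ G := by
      by_contra hcon
      push Not at hcon
      rcases Nat.lt_or_ge (finrank ℝ G) 1 with h | h
      · have hGb : G = ⊥ := by
          rw [← Submodule.finrank_eq_zero (R := ℝ)]; omega
        rw [hGb, hbot] at hGc
        omega
      · have := hmult G (by omega)
        omega
    have hGk : finrank ℝ G ≤ k := (finrank_mono hGL).trans hLk
    obtain ⟨X1, Y1, hd1, hX1F, hY1F, hX1, hY1, hc1⟩ := cover_sub v G
      ({i | v i ∈ G}.ncard - 2 * finrank ℝ G) (by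
        intro G' hG'
        rcases eq_or_lt_of_le hG' with rfl | hlt
        · omega
        · have h1 := Submodule.finrank_lt_finrank_of_lt hlt
          by_contra hcon
          push Not at hcon
          exact hmin G' ⟨hG'.trans hGL, by omega⟩ h1)
    have hX1c := ncard_le_of_mem hX1 hX1F
    have hY1c := ncard_le_of_mem hY1 hY1F
    have hX1G := sp_eq_of_card hX1 hX1F (by omega)
    have hY1G := sp_eq_of_card hY1 hY1F (by omega)
    obtain ⟨X', Y', hd', hX', hY', hX'G, hY'G, hlift⟩ := good_bases hc hD hmult hLi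
      (by omega) hGL hd1 hX1 hY1 hX1G hY1G
    refine hkl G hG2 hGk fun P Q hPQ => ?_
    have := gstar hc hb G (fun i hi => by rw [← hX'G]; exact mem_sp hi) hd' hX' hY' hY'G hlift hPQ
    rw [← finrank_sp_eq hX', hX'G] at this
    exact this
  · push Not at hex
    have hL2 := hex L le_rfl
    have hLk' : finrank ℝ L = k := by omega
    obtain ⟨X1, Y1, hd1, hX1F, hY1F, hX1, hY1, hc1⟩ := cover_sub v L 0 (by
      intro G hG
      have := hex G hG
      omega)
    have hX1c := ncard_le_of_mem hX1 hX1F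
    have hY1c := ncard_le_of_mem hY1 hY1F
    -- a pair with generic lifts
    obtain ⟨X', Y', hd', hX'L, hX', hY', hY'L, hX'c, hlift⟩ : ∃ X' Y' : Set ι, Disjoint X' Y' ∧
        (∀ i ∈ X', v i ∈ L) ∧ LinearIndepOn ℝ v X' ∧ LinearIndepOn ℝ v Y' ∧ sp v Y' = L ∧
        k ≤ X'.ncard + 1 ∧ ∀ y ∈ Y', ∃ g ∈ sp v {i | v i ∉ L} ⊓ L, g ∉ sp v (Y' \ {y}) := by
      rcases Nat.lt_or_ge {i | v i ∉ L}.ncard D with hlt | hge
      · have hX1G := sp_eq_of_card hX1 hX1F (by omega)
        have hY1G := sp_eq_of_card hY1 hY1F (by omega)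
        obtain ⟨X', Y', hd', hX', hY', hX'G, hY'G, hlift⟩ := good_bases hc hD hmult hLi
          (by omega) le_rfl hd1 hX1 hY1 hX1G hY1G
        refine ⟨X', Y', hd', fun i hi => by rw [← hX'G]; exact mem_sp hi, hX', hY', hY'G, ?_, hlift⟩
        rw [← finrank_sp_eq hX', hX'G]; omega
      · have htopL : sp v {i | v i ∉ L} = ⊤ :=
          sp_eq_of_card hLi (fun i _ => mem_top) (by rw [finrank_top]; omega)
        rcases Nat.lt_or_ge X1.ncard Y1.ncard with hxy | hxy
        · have hY1G := sp_eq_of_card hY1 hY1F (by omega)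
          exact ⟨X1, Y1, hd1, hX1F, hX1, hY1, hY1G, by omega, lift_of_top htopL hY1 hY1G⟩
        · have hX1G := sp_eq_of_card hX1 hX1F (by omega)
          exact ⟨Y1, X1, hd1.symm, hY1F, hY1, hX1, hX1G, by omega, lift_of_top htopL hX1 hX1G⟩
    have hB : Bdd (L.mkQ ∘ v) 1 := by
      intro P Q hPQ
      have := gstar hc hb L hX'L hd' hX' hY' hY'L hlift hPQ
      omega
    have h1 := finrank_le_one (hc.comp (Submodule.mkQ_surjective L)) hB
    have h2 := Submodule.finrank_quotient_add_finrank L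
    omega

end H30.DV
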