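import Pool.Agent.H30.DV.CaseOne

/-! The two core theorems. -/

set_option linter.unusedSectionVars false

open Module Submodule H15

namespace H30.DV

variable {ι : Type*} [Fintype ι] {E : Type*} [AddCommGroup E] [Module ℝ E]
  [FiniteDimensional ℝ E] {v : ι → E} {m : ℕ}

theorem core_cos [Nonempty ι] {k : ℕ} (hk : 4 ≤ k) (hv : Pts v) (hD : finrank ℝ E = k + 3)
    (hN : Fintype.card ι = 3 * k + 2)
    (hfc : ∀ G : Submodule ℝ E, finrank ℝ G ≤ k + 1 → {i | v i ∈ G}.ncard ≤ k + finrank ℝ G) :
    ¬ Bdd v k := by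
  classical
  intro hb
  obtain ⟨hc, ⟨h, hpos⟩, hnp⟩ := hv
  have h0 : ∀ i, v i ≠ 0 := by
    intro i h0
    have := hpos i
    rw [h0, map_zero] at this
    exact lt_irrefl _ this
  have hkl := kl_cos hc hD hN hfc
  have hfull : ∀ G : Submodule ℝ E, 2 ≤ finrank ℝ G → finrank ℝ G ≤ k → ¬ FullyDiv v G := by
    intro G h2 hk' hG
    exact hkl G h2 hk' fun P Q hPQ => hG.bdd hb hPQ
  have hno4 : ∀ G : Submodule ℝ E, finrank ℝ G ≤ 2 → {i | v i ∈ G}.ncard ≤ 3 := by
    intro G hG
    by_contra hcon
    push Not at hcon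
    have hG2 : finrank ℝ G = 2 := by
      by_contra hne
      have := hnp G (by omega)
      omega
    exact hfull G (by omega) (by omega) (fullyDiv_of_four hG2 hnp hcon)
  have hno6 : ∀ G : Submodule ℝ E, finrank ℝ G ≤ 3 → {i | v i ∈ G}.ncard ≤ 5 := by
    intro G hG
    by_contra hcon
    push Not at hcon
    have hG3 : finrank ℝ G = 3 := by
      by_contra hne
      have := hno4 G (by omega)
      omega
    exact hfull G (by omega) (by omega) (fullyDiv_of_six hG3 h hpos hnp hno4 hcon)
  refine case_one (k := k) (D := k + 3) hc hb hD (by omega) (by omega) h0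
    (fun G hG => (hnp G hG).trans (by norm_num)) (fun G hG => hfc G (by omega)) ?_ hkl
  intro G
  rw [hD, hN]
  have hle : finrank ℝ G ≤ k + 3 := by rw [← hD]; exact Submodule.finrank_le G
  rcases Nat.lt_or_ge (finrank ℝ G) 4 with h4 | h4
  · rcases Nat.lt_or_ge (finrank ℝ G) 3 with h3 | h3
    · rcases Nat.lt_or_ge (finrank ℝ G) 2 with h2 | h2
      · rcases Nat.lt_or_ge (finrank ℝ G) 1 with h1 | h1
        · have hGb : G = ⊥ := by
            rw [← Submodule.finrank_eq_zero (R := ℝ)]; omega
          have : {i | v i ∈ G}.ncard = 0 := by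
            rw [Set.ncard_eq_zero (Set.toFinite _), hGb]
            ext i; simp [h0 i]
          omega
        · have := hnp G (by omega)
          omega
      · have := hno4 G (by omega)
        omega
    · have := hno6 G (by omega)
      omega
  · rcases Nat.lt_or_ge (finrank ℝ G) (k + 2) with h5 | h5
    · have := hfc G (by omega)
      omega
    · rcases Nat.lt_or_ge (finrank ℝ G) (k + 3) with h6 | h6
      · have hne : G ≠ ⊤ := by
          rintro rfl
          rw [finrank_top] at h6
          omega
        have h7 := three_outside hc hne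
        have h8 := ncard_mem_add v G
        omega
      · have h8 := ncard_mem_add v G
        omega

theorem core_rel [Nonempty ι] {k : ℕ} (hk : 4 ≤ k) (hc : Cosimple v) (h0 : ∀ i, v i ≠ 0)
    (hD : finrank ℝ E = k + 2) (hN : Fintype.card ι = 3 * k + 1)
    (hnp : ∃ w0, ∀ G : Submodule ℝ E, finrank ℝ G ≤ 1 → {i | i ≠ w0 ∧ v i ∈ G}.ncard ≤ 1)
    (hfc : ∀ G : Submodule ℝ E, finrank ℝ G ≤ k → {i | v i ∈ G}.ncard ≤ k + finrank ℝ G) :
    ¬ Bdd v k := by
  classical
  intro hb
  obtain ⟨w0, hnp⟩ := hnp
  have hkl := kl_rel hc hD hN hfc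
  have hw : ∀ G : Submodule ℝ E, {i | v i ∈ G}.ncard ≤ {i | i ≠ w0 ∧ v i ∈ G}.ncard + 1 := by
    intro G
    have h1 : {i | v i ∈ G} ⊆ insert w0 {i | i ≠ w0 ∧ v i ∈ G} := by
      intro i hi
      by_cases h : i = w0
      · exact Or.inl h
      · exact Or.inr ⟨h, hi⟩
    exact (Set.ncard_le_ncard h1 (Set.toFinite _)).trans (Set.ncard_insert_le _ _)
  have hmult : ∀ G : Submodule ℝ E, finrank ℝ G ≤ 1 → {i | v i ∈ G}.ncard ≤ 2 := by
    intro G hG
    have h1 := hnp G hG
    have h2 := hw G
    omega
  -- planes contain at most k+1 elements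
  have hno : ∀ G : Submodule ℝ E, finrank ℝ G = 2 → {i | v i ∈ G}.ncard ≤ k + 1 := by
    intro G hG
    by_contra hcon
    push Not at hcon
    let J : Set ι := {i | i ≠ w0 ∧ v i ∈ G}
    have hJ : ∀ i ∈ J, v i ∈ G := fun i hi => hi.2
    have hcard : Fintype.card J = J.ncard := by
      rw [← Nat.card_eq_fintype_card]; rfl
    have hJc : 4 ≤ J.ncard := by
      have := hw G
      change 4 ≤ {i | i ≠ w0 ∧ v i ∈ G}.ncard
      omega
    have hne : Nonempty J := by
      rw [← Fintype.card_pos_iff, hcard]
      omega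
    have hfd : FullyDiv v G := sub_fullyDiv (hJ := hJ) (plane_four (v := sub v G J hJ) hG
      (fun G' hG' => by
        have h1 : {i | sub v G J hJ i ∈ G'}.ncard ≤
            {i | i ≠ w0 ∧ v i ∈ G'.map G.subtype}.ncard := by
          rw [← Set.ncard_image_of_injective _ (Subtype.val_injective (p := (· ∈ J)))]
          refine Set.ncard_le_ncard ?_ (Set.toFinite _)
          rintro _ ⟨i, hi, rfl⟩
          exact ⟨i.2.1, _, hi, rfl⟩
        refine h1.trans (hnp _ ?_)
        rw [← (Submodule.equivMapOfInjective G.subtype Subtype.val_injective G').finrank_eq]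
        exact hG') (by rw [hcard]; exact hJc))
    exact hkl G (by omega) (by omega) fun P Q hPQ => hfd.bdd hb hPQ
  refine case_one (k := k) (D := k + 2) hc hb hD (by omega) (by omega) h0 hmult hfc ?_ hkl
  intro G
  rw [hD, hN]
  have hle : finrank ℝ G ≤ k + 2 := by rw [← hD]; exact Submodule.finrank_le G
  rcases Nat.lt_or_ge (finrank ℝ G) 3 with h3 | h3
  · rcases Nat.lt_or_ge (finrank ℝ G) 2 with h2 | h2
    · rcases Nat.lt_or_ge (finrank ℝ G) 1 with h1 | h1
      · have hGb : G = ⊥ := by
          rw [← Submodule.finrank_eq_zero (R := ℝ)]; omega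
        have : {i | v i ∈ G}.ncard = 0 := by
          rw [Set.ncard_eq_zero (Set.toFinite _), hGb]
          ext i; simp [h0 i]
        omega
      · have := hmult G (by omega)
        omega
    · have := hno G (by omega)
      omega
  · rcases Nat.lt_or_ge (finrank ℝ G) (k + 1) with h5 | h5
    · have := hfc G (by omega)
      omega
    · rcases Nat.lt_or_ge (finrank ℝ G) (k + 2) with h6 | h6
      · have hne : G ≠ ⊤ := by
          rintro rfl
          rw [finrank_top] at h6
          omega
        have h7 := three_outside hc hne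
        have h8 := ncard_mem_add v G
        omega
      · have h8 := ncard_mem_add v G
        omega

end H30.DV
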