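import Mathlib

/-!
# [H30 DV DI] Discrepancy lemma (signs with small sums), by the hyperbolic cosine

`a i m ∈ [-1,1]` for `i` in a finite type `I`, `m` in a finite type `M`, `l > 0` real. There are
signs `e i ∈ {1,-1}` such that for all `m`
`|∑ i, e i * a i m| ≤ (log (2 |M|) + |I| l²/2) / l`.

PROOF.  For every finite set `s` of indices there are signs with
`∑_m cosh (l ∑_{i ∈ s} e i a i m) ≤ |M| exp (|s| l²/2)` (induction, `Finset.induction_on`): for the
step, `cosh(l(S + a)) + cosh(l(S - a)) = 2 cosh(lS) cosh(la) ≤ 2 cosh(lS) exp(l²/2)`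
(`Real.cosh_le_exp_half_sq`, `|a| ≤ 1`), so summing over `m`, one of the two signs of the new index
gives `∑_m cosh ≤ exp(l²/2) * (old sum)`. At the end, for each `m`,
`exp(l |S m|)/2 ≤ cosh(l S m) ≤ |M| exp(|I| l²/2)` (all terms of the sum are nonnegative), and take
logarithms.
-/

namespace Pool.H30.DV

private theorem disc_aux {I M : Type} [Fintype M] (a : I → M → ℝ)
    (ha : ∀ i m, |a i m| ≤ 1) (l : ℝ) (s : Finset I) :
    ∃ e : I → ℝ, (∀ i, e i = 1 ∨ e i = -1) ∧
      ∑ m, Real.cosh (l * ∑ i ∈ s, e i * a i m) ≤
        Fintype.card M * Real.exp (s.card * (l ^ 2 / 2)) := by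
  classical
  induction s using Finset.induction_on with
  | empty => exact ⟨fun _ => 1, fun _ => Or.inl rfl, by simp⟩
  | insert i s hi ih =>
    obtain ⟨e, he, hs⟩ := ih
    have hcosh : ∀ m, Real.cosh (l * a i m) ≤ Real.exp (l ^ 2 / 2) := by
      intro m
      refine (Real.cosh_le_exp_half_sq _).trans (Real.exp_le_exp.mpr ?_)
      have h1 : (l * a i m) ^ 2 ≤ l ^ 2 := by
        rw [mul_pow]
        have : (a i m) ^ 2 ≤ 1 := by
          rw [← sq_abs]
          have := ha i m
          have := abs_nonneg (a i m)
          nlinarith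
        nlinarith [sq_nonneg l]
      linarith
    let S : M → ℝ := fun m => ∑ i ∈ s, e i * a i m
    have hsum : ∑ m, Real.cosh (l * (S m + a i m)) + ∑ m, Real.cosh (l * (S m - a i m)) ≤
        2 * (Real.exp (l ^ 2 / 2) * ∑ m, Real.cosh (l * S m)) := by
      rw [← Finset.sum_add_distrib, Finset.mul_sum, Finset.mul_sum]
      refine Finset.sum_le_sum (fun m _ => ?_)
      have h1 : Real.cosh (l * (S m + a i m)) + Real.cosh (l * (S m - a i m)) =
          2 * (Real.cosh (l * S m) * Real.cosh (l * a i m)) := by
        rw [mul_add, mul_sub, Real.cosh_add, Real.cosh_sub]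
        ring
      rw [h1]
      have h2 := Real.cosh_pos (l * S m)
      have h3 := hcosh m
      nlinarith
    have hcard : ((insert i s).card : ℝ) = s.card + 1 := by
      rw [Finset.card_insert_of_notMem hi]
      push_cast
      ring
    have hexp : Fintype.card M * Real.exp ((insert i s).card * (l ^ 2 / 2)) =
        Real.exp (l ^ 2 / 2) * (Fintype.card M * Real.exp (s.card * (l ^ 2 / 2))) := by
      rw [hcard, add_mul, one_mul, Real.exp_add]
      ring
    have hold : Real.exp (l ^ 2 / 2) * ∑ m, Real.cosh (l * S m) ≤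
        Fintype.card M * Real.exp ((insert i s).card * (l ^ 2 / 2)) := by
      rw [hexp]
      exact mul_le_mul_of_nonneg_left hs (Real.exp_pos _).le
    rcases le_total (∑ m, Real.cosh (l * (S m + a i m))) (∑ m, Real.cosh (l * (S m - a i m)))
      with h | h
    · refine ⟨Function.update e i 1, ?_, ?_⟩
      · intro j
        by_cases hj : j = i
        · subst hj; left; simp
        · rw [Function.update_of_ne hj]; exact he j
      · have h1 : ∀ m, ∑ j ∈ insert i s, Function.update e i 1 j * a j m = S m + a i m := by
          intro m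
          rw [Finset.sum_insert hi, Function.update_self, one_mul, add_comm]
          congr 1
          refine Finset.sum_congr rfl (fun j hj => ?_)
          rw [Function.update_of_ne (ne_of_mem_of_not_mem hj hi)]
        simp only [h1]
        linarith
    · refine ⟨Function.update e i (-1), ?_, ?_⟩
      · intro j
        by_cases hj : j = i
        · subst hj; right; simp
        · rw [Function.update_of_ne hj]; exact he j
      · have h1 : ∀ m, ∑ j ∈ insert i s, Function.update e i (-1) j * a j m = S m - a i m := by
          intro m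
          rw [Finset.sum_insert hi, Function.update_self, neg_one_mul, neg_add_eq_sub]
          congr 1
          refine Finset.sum_congr rfl (fun j hj => ?_)
          rw [Function.update_of_ne (ne_of_mem_of_not_mem hj hi)]
        simp only [h1]
        linarith

theorem disc {I M : Type} [Fintype I] [Fintype M] [Nonempty M] (a : I → M → ℝ)
    (ha : ∀ i m, |a i m| ≤ 1) (l : ℝ) (hl : 0 < l) :
    ∃ e : I → ℝ, (∀ i, e i = 1 ∨ e i = -1) ∧
      ∀ m, |∑ i, e i * a i m| ≤
        (Real.log (2 * Fintype.card M) + Fintype.card I * l ^ 2 / 2) / l := by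
  obtain ⟨e, he, hs⟩ := disc_aux a ha l Finset.univ
  refine ⟨e, he, ?_⟩
  intro m
  have h1 : Real.cosh (l * ∑ i, e i * a i m) ≤
      Fintype.card M * Real.exp ((Finset.univ : Finset I).card * (l ^ 2 / 2)) :=
    (Finset.single_le_sum (f := fun m => Real.cosh (l * ∑ i, e i * a i m))
      (fun m _ => (Real.cosh_pos _).le) (Finset.mem_univ m)).trans hs
  have h2 : Real.exp (l * |∑ i, e i * a i m|) ≤ 2 * Real.cosh (l * ∑ i, e i * a i m) := by
    have h3 : Real.cosh (l * ∑ i, e i * a i m) = Real.cosh (l * |∑ i, e i * a i m|) := by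
      rw [← Real.cosh_abs (l * ∑ i, e i * a i m), abs_mul, abs_of_pos hl]
    rw [h3, Real.cosh_eq]
    have := Real.exp_pos (-(l * |∑ i, e i * a i m|))
    linarith
  have hM : (0 : ℝ) < Fintype.card M := by
    exact_mod_cast Fintype.card_pos
  have h4 : l * |∑ i, e i * a i m| ≤
      Real.log (2 * Fintype.card M) + Fintype.card I * l ^ 2 / 2 := by
    have h5 : Real.exp (l * |∑ i, e i * a i m|) ≤
        (2 * Fintype.card M) * Real.exp (Fintype.card I * l ^ 2 / 2) := by
      have h6 : ((Finset.univ : Finset I).card : ℝ) * (l ^ 2 / 2) =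
          Fintype.card I * l ^ 2 / 2 := by
        rw [Finset.card_univ]; ring
      rw [h6] at h1
      linarith
    have h7 := Real.log_le_log (Real.exp_pos _) h5
    rw [Real.log_mul (by positivity) (Real.exp_pos _).ne', Real.log_exp, Real.log_exp] at h7
    linarith
  rw [le_div_iff₀ hl]
  linarith

end Pool.H30.DV
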