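import Mathlib

/-!
# [H30 DV HA] Hadamard matrices of order `2^n`

PROOF.  Take the group `V = Fin n → ZMod 2` (or `Fin n → Bool`) of cardinality `2^n` and
`H(u, v) = (-1)^{#{t : u t = 1 and v t = 1}} = ∏ t, h (u t) (v t)` with `h 1 1 = -1` and `h = 1`
otherwise. Row orthogonality: `∑ v, H(u,v) H(u',v) = ∏ t, (∑_{b ∈ Z/2} h(u t,b) h(u' t,b))`
(`Finset.prod_univ_sum` / `Fintype.piFinset`), and the inner sum is `2` if `u t = u' t` and `0`
otherwise. Columns: `H` is symmetric. Transport along an equivalence `Fin (2^n) ≃ V`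
(`Fintype.equivFinOfCardEq`). Alternatively: induction on `n` with Sylvester's doubling.
-/

namespace Pool.H30.DV

/-- the matrix of order `2` -/
private noncomputable def hb (a b : Bool) : ℝ := if a = true ∧ b = true then -1 else 1

private theorem hb_or (a b : Bool) : hb a b = 1 ∨ hb a b = -1 := by
  unfold hb
  split_ifs
  · exact Or.inr rfl
  · exact Or.inl rfl

private theorem hb_comm (a b : Bool) : hb a b = hb b a := by
  unfold hb
  cases a <;> cases b <;> rfl

private theorem hb_orth (a a' : Bool) :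
    ∑ b : Bool, hb a b * hb a' b = if a = a' then (2 : ℝ) else 0 := by
  rw [Fintype.sum_bool]
  unfold hb
  cases a <;> cases a' <;> norm_num

/-- the tensor power -/
private noncomputable def hv {n : ℕ} (u v : Fin n → Bool) : ℝ := ∏ t, hb (u t) (v t)

private theorem hv_or {n : ℕ} (u v : Fin n → Bool) : hv u v = 1 ∨ hv u v = -1 := by
  unfold hv
  induction n with
  | zero => exact Or.inl (by simp)
  | succ n ih =>
    rw [Fin.prod_univ_succ]
    rcases hb_or (u 0) (v 0) with h | h <;>
      rcases ih (fun t => u t.succ) (fun t => v t.succ) with h' | h' <;>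
      rw [h, h'] <;> norm_num

private theorem hv_comm {n : ℕ} (u v : Fin n → Bool) : hv u v = hv v u := by
  unfold hv
  exact Finset.prod_congr rfl fun t _ => hb_comm _ _

private theorem hv_orth {n : ℕ} (u u' : Fin n → Bool) :
    ∑ v : Fin n → Bool, hv u v * hv u' v = if u = u' then (2 : ℝ) ^ n else 0 := by
  have h1 : ∀ v : Fin n → Bool, hv u v * hv u' v = ∏ t, (hb (u t) (v t) * hb (u' t) (v t)) :=
    fun v => by
      unfold hv
      rw [Finset.prod_mul_distrib]
  have h2 : ∏ t : Fin n, ∑ b : Bool, hb (u t) b * hb (u' t) b =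
      ∑ v : Fin n → Bool, ∏ t, (hb (u t) (v t) * hb (u' t) (v t)) := by
    rw [Finset.prod_univ_sum, Fintype.piFinset_univ]
  rw [Finset.sum_congr rfl fun v _ => h1 v, ← h2, Finset.prod_congr rfl fun t _ => hb_orth _ _]
  split_ifs with h
  · rw [h]
    simp
  · obtain ⟨t, ht⟩ := Function.ne_iff.1 h
    exact Finset.prod_eq_zero (Finset.mem_univ t) (if_neg ht)

theorem hadamard (n : ℕ) : ∃ H : Fin (2 ^ n) → Fin (2 ^ n) → ℝ,
    (∀ i j, H i j = 1 ∨ H i j = -1) ∧
    (∀ i i', ∑ j, H i j * H i' j = if i = i' then (2 : ℝ) ^ n else 0) ∧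
    (∀ j j', ∑ i, H i j * H i j' = if j = j' then (2 : ℝ) ^ n else 0) := by
  have hc : Fintype.card (Fin n → Bool) = 2 ^ n := by simp
  set e : (Fin n → Bool) ≃ Fin (2 ^ n) := Fintype.equivFinOfCardEq hc
  have hrow : ∀ i i' : Fin (2 ^ n), ∑ j, hv (e.symm i) (e.symm j) * hv (e.symm i') (e.symm j) =
      if i = i' then (2 : ℝ) ^ n else 0 := by
    intro i i'
    rw [Equiv.sum_comp e.symm (fun v => hv (e.symm i) v * hv (e.symm i') v), hv_orth]
    simp only [EmbeddingLike.apply_eq_iff_eq]
  refine ⟨fun i j => hv (e.symm i) (e.symm j), fun i j => hv_or _ _, hrow, fun j j' => ?_⟩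
  rw [← hrow j j']
  exact Finset.sum_congr rfl fun i _ =>
    congrArg₂ (· * ·) (hv_comm (e.symm i) (e.symm j)) (hv_comm (e.symm i) (e.symm j'))

end Pool.H30.DV
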