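import Pool.Agent.H30.DV.DDef
import Pool.Agent.H30.DV.DI
import Pool.Agent.H30.DV.HA

/-!
# [H30 DV DA] One level of Davie's data

PROOF.  Let `H` be the matrix of `hadamard (k+2)`, with rows indexed by `Fin (2^(k+2))`. Fix an
equivalence `E : Fin (2^(k+1)) × Bool ≃ Fin (2^(k+2))` (cardinalities). For a pair `(g, h)` put
`a i (g,h) = (H (E(i,true)) g * H (E(i,true)) h - H (E(i,false)) g * H (E(i,false)) h)/2`,
which lies in `[-1,1]`. By `disc` with `I = Fin (2^(k+1))`, `M = Fin (2^(k+2)) × Fin (2^(k+2))`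
and `l = (√2^k)⁻¹` (so `l² = 2^{-k}`, `|I| l²/2 = 1`, `log(2|M|) = (2k+5) log 2 ≤ 2k+5`) there are
signs `e i` with `|∑_i e i a i (g,h)| ≤ (2k+6) √2^k` for all `(g,h)`. Let
`t i = E(i, true)` if `e i = 1` and `E(i,false)` if `e i = -1`, and let `t' i` be the other one, and
`τ i = H (t i)`. Then for `g ≠ h`: `∑_i (H(t i) g H(t i) h + H(t' i) g H(t' i) h) = 0` (it is the sum
over all rows, column orthogonality) and the difference is `2 ∑ e i a i (g,h)`; so
`|∑_i τ i g τ i h| ≤ (2k+6) √2^k ≤ D k`, and the same for `t'`.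
Second step: fix `E' : Fin (2^k) × Bool ≃ Fin (2^(k+1))`, and split the rows `t'` in the same way:
`b i (g,h) = (H(t'(E'(i,true))) g H(..) h - H(t'(E'(i,false))) g H(..) h)/2`, `disc` with
`I = Fin (2^k)`, same `l` (`|I| l²/2 = 1/2`): signs `e' i`, `s i = t'(E'(i, ±))`, `σ i = H (s i)`.
For `g ≠ h`: `2 ∑_i σ i g σ i h = ∑_{all i} H(t' i) g H (t' i) h + 2 ∑ e' i b i`, so
`|∑ σ i g σ i h| ≤ (k+3)√2^k + (2k+6) √2^k ≤ D k`.
`t`, `s` are injective with disjoint ranges (`t i ≠ t' j` for all `i, j`), so the orthogonality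
relations follow from the row orthogonality of `H`.
-/

namespace Pool.H30.DV

private theorem da_log (k : ℕ) :
    Real.log (2 * Fintype.card (Fin (2 ^ (k + 2)) × Fin (2 ^ (k + 2)))) ≤ 2 * k + 5 := by
  have h1 : ((2 : ℝ) * Fintype.card (Fin (2 ^ (k + 2)) × Fin (2 ^ (k + 2)))) =
      2 ^ (2 * k + 5) := by
    simp only [Fintype.card_prod, Fintype.card_fin]
    push_cast
    ring
  rw [h1, Real.log_pow]
  have h2 : Real.log 2 ≤ 1 := by
    have := Real.log_two_lt_d9
    linarith
  push_cast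
  nlinarith [Real.log_pos (show (1 : ℝ) < 2 by norm_num)]

private theorem split {I R G : Type} [Fintype I] [Fintype R] [Fintype G] [Nonempty G]
    (r : R → G → ℝ) (hr : ∀ x g, r x g = 1 ∨ r x g = -1) (E : I × Bool ≃ R)
    (l : ℝ) (hl : 0 < l) (B : ℝ) (hB : ∀ g h, g ≠ h → |∑ x, r x g * r x h| ≤ B)
    (Δ : ℝ) (hΔ : (Real.log (2 * Fintype.card (G × G)) + Fintype.card I * l ^ 2 / 2) / l ≤ Δ) :
    ∃ b : I → Bool,
      (∀ g h, g ≠ h → |∑ i, r (E (i, b i)) g * r (E (i, b i)) h| ≤ B / 2 + Δ) ∧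
      (∀ g h, g ≠ h → |∑ i, r (E (i, !(b i))) g * r (E (i, !(b i))) h| ≤ B / 2 + Δ) := by
  classical
  let a : I → G × G → ℝ := fun i m =>
    (r (E (i, true)) m.1 * r (E (i, true)) m.2 - r (E (i, false)) m.1 * r (E (i, false)) m.2) / 2
  have ha : ∀ i m, |a i m| ≤ 1 := by
    intro i m
    simp only [a]
    rcases hr (E (i, true)) m.1 with h1 | h1 <;> rcases hr (E (i, true)) m.2 with h2 | h2 <;>
    rcases hr (E (i, false)) m.1 with h3 | h3 <;> rcases hr (E (i, false)) m.2 with h4 | h4 <;>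
    rw [h1, h2, h3, h4] <;> norm_num
  obtain ⟨e, he, hs⟩ := disc a ha l hl
  refine ⟨fun i => decide (e i = 1), ?_, ?_⟩
  · intro g h hgh
    have key : ∑ i, r (E (i, decide (e i = 1))) g * r (E (i, decide (e i = 1))) h =
        (∑ x, r x g * r x h) / 2 + ∑ i, e i * a i (g, h) := by
      rw [← E.sum_comp (fun x => r x g * r x h), Fintype.sum_prod_type, Finset.sum_div,
        ← Finset.sum_add_distrib]
      refine Finset.sum_congr rfl (fun i _ => ?_)
      rw [Fintype.sum_bool]
      simp only [a]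
      rcases he i with h1 | h1
      · rw [h1]; simp; ring
      · have : e i ≠ 1 := by rw [h1]; norm_num
        rw [h1]
        have h2 : decide ((-1 : ℝ) = 1) = false := by
          simp; norm_num
        rw [h2]
        ring
    rw [key]
    calc |(∑ x, r x g * r x h) / 2 + ∑ i, e i * a i (g, h)|
        ≤ |(∑ x, r x g * r x h) / 2| + |∑ i, e i * a i (g, h)| := abs_add_le _ _
      _ ≤ B / 2 + Δ := by
          refine add_le_add ?_ ((hs (g, h)).trans hΔ)
          rw [abs_div, abs_of_pos (show (0 : ℝ) < 2 by norm_num)]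
          have := hB g h hgh
          linarith
  · intro g h hgh
    have key : ∑ i, r (E (i, !(decide (e i = 1)))) g * r (E (i, !(decide (e i = 1)))) h =
        (∑ x, r x g * r x h) / 2 - ∑ i, e i * a i (g, h) := by
      rw [← E.sum_comp (fun x => r x g * r x h), Fintype.sum_prod_type, Finset.sum_div,
        ← Finset.sum_sub_distrib]
      refine Finset.sum_congr rfl (fun i _ => ?_)
      rw [Fintype.sum_bool]
      simp only [a]
      rcases he i with h1 | h1
      · rw [h1]; simp; ring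
      · rw [h1]
        have h2 : decide ((-1 : ℝ) = 1) = false := by
          simp; norm_num
        rw [h2]
        simp only [Bool.not_false]
        ring
    rw [key]
    calc |(∑ x, r x g * r x h) / 2 - ∑ i, e i * a i (g, h)|
        ≤ |(∑ x, r x g * r x h) / 2| + |∑ i, e i * a i (g, h)| := abs_sub _ _
      _ ≤ B / 2 + Δ := by
          refine add_le_add ?_ ((hs (g, h)).trans hΔ)
          rw [abs_div, abs_of_pos (show (0 : ℝ) < 2 by norm_num)]
          have := hB g h hgh
          linarith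

theorem exists_level (k : ℕ) : ∃ (τ : Fin (2 ^ (k + 1)) → Fin (2 ^ (k + 2)) → ℝ)
    (σ : Fin (2 ^ k) → Fin (2 ^ (k + 2)) → ℝ), Level k τ σ := by
  classical
  obtain ⟨H, hpm, hrow, hcol⟩ := hadamard (k + 2)
  have cE : Fintype.card (Fin (2 ^ (k + 1)) × Bool) = Fintype.card (Fin (2 ^ (k + 2))) := by
    simp only [Fintype.card_prod, Fintype.card_fin, Fintype.card_bool]
    ring
  have cE' : Fintype.card (Fin (2 ^ k) × Bool) = Fintype.card (Fin (2 ^ (k + 1))) := by
    simp only [Fintype.card_prod, Fintype.card_fin, Fintype.card_bool]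
    ring
  let E : Fin (2 ^ (k + 1)) × Bool ≃ Fin (2 ^ (k + 2)) := Fintype.equivOfCardEq cE
  let E' : Fin (2 ^ k) × Bool ≃ Fin (2 ^ (k + 1)) := Fintype.equivOfCardEq cE'
  haveI : Nonempty (Fin (2 ^ (k + 2))) := ⟨⟨0, by positivity⟩⟩
  have hs2 : Real.sqrt 2 ^ k * Real.sqrt 2 ^ k = 2 ^ k := by
    rw [← mul_pow, Real.mul_self_sqrt (by norm_num)]
  have hspos : 0 < Real.sqrt 2 ^ k := by positivity
  set q := Real.sqrt 2 ^ k with hq
  have hl : 0 < q⁻¹ := by positivity
  have hΔ1 : (Real.log (2 * Fintype.card (Fin (2 ^ (k + 2)) × Fin (2 ^ (k + 2)))) +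
      Fintype.card (Fin (2 ^ (k + 1))) * (q⁻¹) ^ 2 / 2) / q⁻¹ ≤ (2 * k + 6) * q := by
    have h1 : (Fintype.card (Fin (2 ^ (k + 1))) : ℝ) * (q⁻¹) ^ 2 / 2 = 1 := by
      rw [Fintype.card_fin]
      push_cast
      rw [inv_pow, pow_two q, hs2, pow_succ]
      field_simp
    rw [h1, div_inv_eq_mul]
    have := da_log k
    nlinarith
  have hΔ2 : (Real.log (2 * Fintype.card (Fin (2 ^ (k + 2)) × Fin (2 ^ (k + 2)))) +
      Fintype.card (Fin (2 ^ k)) * (q⁻¹) ^ 2 / 2) / q⁻¹ ≤ (2 * k + 6) * q := by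
    have h1 : (Fintype.card (Fin (2 ^ k)) : ℝ) * (q⁻¹) ^ 2 / 2 = 1 / 2 := by
      rw [Fintype.card_fin]
      push_cast
      rw [inv_pow, pow_two q, hs2]
      field_simp
    rw [h1, div_inv_eq_mul]
    have := da_log k
    nlinarith
  obtain ⟨b, hb1, hb2⟩ := split H hpm E q⁻¹ hl 0
    (by intro g h hgh; rw [hcol g h, if_neg hgh]; simp) _ hΔ1
  let t : Fin (2 ^ (k + 1)) → Fin (2 ^ (k + 2)) := fun i => E (i, b i)
  let t' : Fin (2 ^ (k + 1)) → Fin (2 ^ (k + 2)) := fun i => E (i, !(b i))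
  obtain ⟨b', hb1', -⟩ := split (fun i => H (t' i)) (fun i g => hpm _ _) E' q⁻¹ hl _ hb2 _ hΔ2
  let s : Fin (2 ^ k) → Fin (2 ^ (k + 2)) := fun i => t' (E' (i, b' i))
  have ht : Function.Injective t := by
    intro i j hij
    have := E.injective hij
    exact (Prod.mk.inj this).1
  have ht' : Function.Injective t' := by
    intro i j hij
    have := E.injective hij
    exact (Prod.mk.inj this).1
  have hs : Function.Injective s := by
    intro i j hij
    have := E'.injective (ht' hij)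
    exact (Prod.mk.inj this).1
  have hts : ∀ i j, t i ≠ s j := by
    intro i j hij
    have h1 := E.injective hij
    have h2 := Prod.mk.inj h1
    rw [h2.1] at h2
    have h3 := h2.2
    cases hbb : b (E' (j, b' j)) <;> rw [hbb] at h3 <;> simp at h3
  refine ⟨fun i => H (t i), fun i => H (s i), ?_⟩
  refine ⟨fun j g => hpm _ _, fun j g => hpm _ _, ?_, ?_, ?_, ?_, ?_⟩
  · intro i j
    rw [hrow]
    by_cases hij : i = j
    · subst hij; simp
    · rw [if_neg hij, if_neg (fun h => hij (ht h))]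
  · intro i j
    rw [hrow]
    by_cases hij : i = j
    · subst hij; simp
    · rw [if_neg hij, if_neg (fun h => hij (hs h))]
  · intro i j
    rw [hrow, if_neg (hts i j)]
  · intro g h hgh
    refine (hb1 g h hgh).trans ?_
    unfold D
    have : (0 : ℝ) ≤ k := by positivity
    nlinarith
  · intro g h hgh
    refine (hb1' g h hgh).trans ?_
    unfold D
    have : (0 : ℝ) ≤ k := by positivity
    rw [← hq]
    nlinarith

end Pool.H30.DV
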