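import Pool.Agent.H30.DV.DA

/-!
# [H30 DV DB] Davie's data exist

PROOF.  By `exists_level` choose `τ k`, `σ' k` with `Level k (τ k) (σ' k)` for all `k`. For every `k`
apply `disc` with `I = Fin (2^(k+1))`, `M = Fin (2^(k+2)) × Fin (2^(k+3))`,
`a j (g,h) = τ k j g * σ' (k+1) j h ∈ {1,-1}`, `l = (√2^k)⁻¹` (`|I| l²/2 = 1`,
`log (2|M|) = (2k+6) log 2 ≤ 2k+6`): signs `e k j` (`j : Fin (2^(k+1))`) with
`|∑_j e k j τ k j g σ' (k+1) j h| ≤ (2k+7) √2^k ≤ D k`. Put `σ 0 = σ' 0` and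
`σ (k+1) j = e k j * σ' (k+1) j` (define `σ` by `Nat.rec`/pattern matching on `k`). Multiplying the
vectors by signs does not change `Level` (`σ_pm`; orthogonality: for `i = j` the square of a sign is
`1`, for `i ≠ j` both sides `0`; the kernel `∑_j σ j g σ j h` is unchanged).
-/

namespace Pool.H30.DV

private theorem db_log (k : ℕ) :
    Real.log (2 * Fintype.card (Fin (2 ^ (k + 2)) × Fin (2 ^ (k + 1 + 2)))) ≤ 2 * k + 6 := by
  have h1 : ((2 : ℝ) * Fintype.card (Fin (2 ^ (k + 2)) × Fin (2 ^ (k + 1 + 2)))) =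
      2 ^ (2 * k + 6) := by
    simp only [Fintype.card_prod, Fintype.card_fin]
    push_cast
    ring
  rw [h1, Real.log_pow]
  have h2 : Real.log 2 ≤ 1 := by
    have := Real.log_two_lt_d9
    linarith
  push_cast
  nlinarith [Real.log_pos (show (1 : ℝ) < 2 by norm_num)]

/-- Multiplying the vectors `σ` by signs keeps the level conditions. -/
private theorem level_signs {k : ℕ} {τ : Fin (2 ^ (k + 1)) → Fin (2 ^ (k + 2)) → ℝ}
    {σ : Fin (2 ^ k) → Fin (2 ^ (k + 2)) → ℝ} (h : Level k τ σ) (e : Fin (2 ^ k) → ℝ)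
    (he : ∀ i, e i = 1 ∨ e i = -1) : Level k τ (fun j g => e j * σ j g) := by
  have hsq : ∀ i, e i * e i = 1 := by
    intro i
    rcases he i with h1 | h1 <;> rw [h1] <;> norm_num
  refine ⟨h.τ_pm, ?_, h.τ_orth, ?_, ?_, h.kτ, ?_⟩
  · intro j g
    rcases he j with h1 | h1 <;> rcases h.σ_pm j g with h2 | h2 <;> rw [h1, h2] <;> norm_num
  · intro i j
    have h1 : ∑ g, e i * σ i g * (e j * σ j g) = (e i * e j) * ∑ g, σ i g * σ j g := by
      rw [Finset.mul_sum]
      exact Finset.sum_congr rfl (fun g _ => by ring)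
    rw [h1, h.σ_orth i j]
    by_cases hij : i = j
    · subst hij
      simp [hsq]
    · simp [hij]
  · intro i j
    have h1 : ∑ g, τ i g * (e j * σ j g) = e j * ∑ g, τ i g * σ j g := by
      rw [Finset.mul_sum]
      exact Finset.sum_congr rfl (fun g _ => by ring)
    rw [h1, h.τσ_orth i j, mul_zero]
  · intro g g' hgg
    have h1 : ∑ j, e j * σ j g * (e j * σ j g') = ∑ j, σ j g * σ j g' := by
      refine Finset.sum_congr rfl (fun j _ => ?_)
      calc e j * σ j g * (e j * σ j g') = (e j * e j) * (σ j g * σ j g') := by ring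
        _ = σ j g * σ j g' := by rw [hsq, one_mul]
    rw [h1]
    exact h.kσ g g' hgg

theorem exists_DD : Nonempty DD := by
  choose τ σ' hlev using exists_level
  have key : ∀ k : ℕ, ∃ e : Fin (2 ^ (k + 1)) → ℝ, (∀ i, e i = 1 ∨ e i = -1) ∧
      ∀ (g : Fin (2 ^ (k + 2))) (h : Fin (2 ^ (k + 1 + 2))),
        |∑ j, τ k j g * (e j * σ' (k + 1) j h)| ≤ D k := by
    intro k
    haveI : Nonempty (Fin (2 ^ (k + 2))) := ⟨⟨0, by positivity⟩⟩
    haveI : Nonempty (Fin (2 ^ (k + 1 + 2))) := ⟨⟨0, by positivity⟩⟩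
    have hs2 : Real.sqrt 2 ^ k * Real.sqrt 2 ^ k = 2 ^ k := by
      rw [← mul_pow, Real.mul_self_sqrt (by norm_num)]
    have hspos : 0 < Real.sqrt 2 ^ k := by positivity
    set q := Real.sqrt 2 ^ k with hq
    have hl : 0 < q⁻¹ := by positivity
    let a : Fin (2 ^ (k + 1)) → Fin (2 ^ (k + 2)) × Fin (2 ^ (k + 1 + 2)) → ℝ :=
      fun j m => τ k j m.1 * σ' (k + 1) j m.2
    have ha : ∀ i m, |a i m| ≤ 1 := by
      intro i m
      simp only [a]
      rcases (hlev k).τ_pm i m.1 with h1 | h1 <;>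
      rcases (hlev (k + 1)).σ_pm i m.2 with h2 | h2 <;> rw [h1, h2] <;> norm_num
    obtain ⟨e, he, hs⟩ := disc a ha q⁻¹ hl
    refine ⟨e, he, ?_⟩
    intro g h
    have h0 := hs (g, h)
    have h1 : (Fintype.card (Fin (2 ^ (k + 1))) : ℝ) * (q⁻¹) ^ 2 / 2 = 1 := by
      rw [Fintype.card_fin]
      push_cast
      rw [inv_pow, pow_two q, hs2, pow_succ]
      field_simp
    rw [h1, div_inv_eq_mul] at h0
    have h2 : ∑ j, τ k j g * (e j * σ' (k + 1) j h) = ∑ i, e i * a i (g, h) := by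
      refine Finset.sum_congr rfl (fun j _ => ?_)
      simp only [a]
      ring
    rw [h2]
    refine h0.trans ?_
    unfold D
    rw [← hq]
    have h3 := db_log k
    have h4 : (0 : ℝ) ≤ k := by positivity
    nlinarith
  choose e he hc using key
  let σ : (k : ℕ) → Fin (2 ^ k) → Fin (2 ^ (k + 2)) → ℝ := fun k =>
    match k with
    | 0 => σ' 0
    | (m + 1) => fun j g => e m j * σ' (m + 1) j g
  refine ⟨⟨τ, σ, ?_, ?_⟩⟩
  · intro k
    cases k with
    | zero => exact hlev 0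
    | succ m => exact level_signs (hlev (m + 1)) (e m) (he m)
  · intro k g h
    exact hc k g h

end Pool.H30.DV
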