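import Mathlib

/-!
# H30/DV/DDef: the combinatorial data of Davie's construction
-/

namespace Pool.H30.DV

/-- The discrepancy bound `D k = (4k+12) √2^k`. -/
noncomputable def D (k : ℕ) : ℝ := (4 * k + 12) * Real.sqrt 2 ^ k

/-- Two orthogonal families of `±1` vectors in dimension `2^(k+2)`: `2^(k+1)` vectors `τ j` and
`2^k` vectors `σ j`, both with small kernels off the diagonal. -/
structure Level (k : ℕ) (τ : Fin (2 ^ (k + 1)) → Fin (2 ^ (k + 2)) → ℝ)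
    (σ : Fin (2 ^ k) → Fin (2 ^ (k + 2)) → ℝ) : Prop where
  τ_pm : ∀ j g, τ j g = 1 ∨ τ j g = -1
  σ_pm : ∀ j g, σ j g = 1 ∨ σ j g = -1
  τ_orth : ∀ i j, ∑ g, τ i g * τ j g = if i = j then (2 : ℝ) ^ (k + 2) else 0
  σ_orth : ∀ i j, ∑ g, σ i g * σ j g = if i = j then (2 : ℝ) ^ (k + 2) else 0
  τσ_orth : ∀ i j, ∑ g, τ i g * σ j g = 0
  kτ : ∀ g h, g ≠ h → |∑ j, τ j g * τ j h| ≤ D k
  kσ : ∀ g h, g ≠ h → |∑ j, σ j g * σ j h| ≤ D k

/-- The data of Davie's construction: one level for every `k`, with small cross sums. -/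
structure DD where
  /-- the vectors `τ` -/
  τ : (k : ℕ) → Fin (2 ^ (k + 1)) → Fin (2 ^ (k + 2)) → ℝ
  /-- the vectors `σ` -/
  σ : (k : ℕ) → Fin (2 ^ k) → Fin (2 ^ (k + 2)) → ℝ
  level : ∀ k, Level k (τ k) (σ k)
  cross : ∀ k g h, |∑ j : Fin (2 ^ (k + 1)), τ k j g * σ (k + 1) j h| ≤ D k

end Pool.H30.DV
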