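import Pool.Agent.H30.DV.FA

/-!
# [H30 DV ER] The mean ergodic step

`X` closed subspace of `ℓ_4(ι)`, `T : X → X` with `‖T x‖ < ‖x‖` for all `x ≠ 0`. Then
`(1/n) ∑_{j<n} T^j x → 0` for every `x`.

PROOF.  (1) `‖T‖ ≤ 1`, so `‖T^j x‖ ≤ ‖x‖` and `A n = (1/n) ∑_{j<n} T^j` has `‖A n x‖ ≤ ‖x‖`.
(2) The range of `1 - T` is dense in `X`: otherwise (`Submodule.exists_le_ker_of_lt_top`,
or geometric Hahn-Banach for the closed proper subspace `topologicalClosure (range (1-T))`, e.g.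
`Submodule.exists_dual_map_eq_bot...` / `exists_dual_vector` on the quotient) there is a bounded
functional `φ ≠ 0` on `X` with `φ (x - T x) = 0` for all `x`. By `functional_attains` there is
`x` with `‖x‖ ≤ 1`, `‖φ x‖ = ‖φ‖`; `x ≠ 0` since `φ ≠ 0`. Then
`‖φ‖ = ‖φ x‖ = ‖φ (T x)‖ ≤ ‖φ‖ ‖T x‖ < ‖φ‖ ‖x‖ ≤ ‖φ‖`, contradiction.
(3) For `x = y - T y`: `A n x = (1/n) (y - T^n y)` (telescoping, `Finset.sum_range_sub'`), of norm
at most `2‖y‖/n → 0`. (4) For general `x` and `ε > 0` take `x' = y - T y` with `‖x - x'‖ < ε/2`: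
`‖A n x‖ ≤ ‖A n x'‖ + ‖x - x'‖ < ε` for large `n`.
-/

namespace Pool.H30.DV

open Filter Topology

variable {𝕜 : Type} [RCLike 𝕜] {ι : Type}

/-- The averages `A n = (1/n) ∑_{j<n} T^j`. -/
noncomputable def avgOp {X : Type} [NormedAddCommGroup X] [NormedSpace 𝕜 X] (T : X →L[𝕜] X)
    (n : ℕ) : X →L[𝕜] X :=
  ((n : 𝕜)⁻¹) • ∑ j ∈ Finset.range n, T ^ j

theorem er_sep {E : Type} [NormedAddCommGroup E] [NormedSpace 𝕜 E] (p : Submodule 𝕜 E)
    (hp : IsClosed (p : Set E)) (x : E) (hx : x ∉ p) :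
    ∃ φ : E →L[𝕜] 𝕜, φ ≠ 0 ∧ ∀ y ∈ p, φ y = 0 := by
  let _ : Module ℝ E := RestrictScalars.module ℝ 𝕜 E
  let _ : IsScalarTower ℝ 𝕜 E := RestrictScalars.isScalarTower _ _ _
  let _ : NormedSpace ℝ E := NormedSpace.restrictScalars _ 𝕜 _
  have hconv : Convex ℝ (p : Set E) := (p.restrictScalars ℝ).convex
  obtain ⟨f, u, hfx, hf⟩ := RCLike.geometric_hahn_banach_point_closed (𝕜 := 𝕜) hconv hp hx
  have hu0 : u < 0 := by
    have := hf 0 p.zero_mem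
    simpa using this
  refine ⟨f, ?_, ?_⟩
  · rintro rfl
    simp at hfx
    linarith
  · intro y hy
    by_contra hne
    have h1 := hf ((((u - 1 : ℝ) : 𝕜) * (f y)⁻¹) • y) (p.smul_mem _ hy)
    rw [map_smul, smul_eq_mul, mul_assoc, inv_mul_cancel₀ hne, mul_one, RCLike.ofReal_re] at h1
    linarith

theorem er_pow_le {E : Type} [NormedAddCommGroup E] [NormedSpace 𝕜 E] (T : E →L[𝕜] E)
    (hT : ∀ x : E, ‖T x‖ ≤ ‖x‖) (n : ℕ) (x : E) : ‖(T ^ n) x‖ ≤ ‖x‖ := by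
  induction n with
  | zero => simp
  | succ n ih =>
    rw [pow_succ', mul_apply_eq_comp]
    exact (hT _).trans ih

theorem er_avg_le {E : Type} [NormedAddCommGroup E] [NormedSpace 𝕜 E] (T : E →L[𝕜] E)
    (hT : ∀ x : E, ‖T x‖ ≤ ‖x‖) (n : ℕ) (x : E) : ‖avgOp T n x‖ ≤ ‖x‖ := by
  rcases Nat.eq_zero_or_pos n with h0 | h0
  · subst h0
    simp [avgOp]
  · have h1 : ‖(∑ j ∈ Finset.range n, T ^ j) x‖ ≤ n * ‖x‖ := by
      rw [sum_apply]
      refine (norm_sum_le _ _).trans ?_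
      refine (Finset.sum_le_card_nsmul _ _ _ (fun j _ => er_pow_le T hT j x)).trans ?_
      rw [Finset.card_range, nsmul_eq_mul]
    have hn : (0 : ℝ) < n := by exact_mod_cast h0
    rw [avgOp, smul_apply, norm_smul, norm_inv, RCLike.norm_natCast,
      inv_mul_le_iff₀ hn]
    exact h1

theorem er_tel {E : Type} [NormedAddCommGroup E] [NormedSpace 𝕜 E] (T : E →L[𝕜] E)
    (hT : ∀ x : E, ‖T x‖ ≤ ‖x‖) (n : ℕ) (y : E) :
    ‖avgOp T n (y - T y)‖ ≤ (n : ℝ)⁻¹ * (2 * ‖y‖) := by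
  have h1 : (∑ j ∈ Finset.range n, T ^ j) (y - T y) = y - (T ^ n) y := by
    rw [sum_apply]
    have h2 : ∀ j ∈ Finset.range n, (T ^ j) (y - T y) = (T ^ j) y - (T ^ (j + 1)) y := by
      intro j _
      rw [map_sub, pow_succ, mul_apply_eq_comp]
    rw [Finset.sum_congr rfl h2, Finset.sum_range_sub' (fun j => (T ^ j) y)]
    simp
  rw [avgOp, smul_apply, norm_smul, norm_inv, RCLike.norm_natCast, h1]
  refine mul_le_mul_of_nonneg_left ?_ (by positivity)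
  refine (norm_sub_le _ _).trans ?_
  have := er_pow_le T hT n y
  linarith

theorem ergodic [Countable ι] (X : Submodule 𝕜 (L4 𝕜 ι)) (hX : IsClosed (X : Set (L4 𝕜 ι)))
    (T : X →L[𝕜] X) (hT : ∀ x : X, x ≠ 0 → ‖T x‖ < ‖x‖) (x : X) :
    Tendsto (fun n => avgOp T n x) atTop (𝓝 0) := by
  have hT1 : ∀ x : X, ‖T x‖ ≤ ‖x‖ := by
    intro x
    by_cases hx : x = 0
    · rw [hx, map_zero]
    · exact (hT x hx).le
  have hdense : x ∈ (LinearMap.range ((ContinuousLinearMap.id 𝕜 X - T : X →L[𝕜] X) :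
      X →ₗ[𝕜] X)).topologicalClosure := by
    by_contra hx
    obtain ⟨φ, hφ0, hφ⟩ := er_sep _ (Submodule.isClosed_topologicalClosure _) x hx
    obtain ⟨v, hv1, hv⟩ := functional_attains X hX φ
    have hφn : 0 < ‖φ‖ := (norm_pos_iff (a := φ)).2 hφ0
    have hv0 : v ≠ 0 := by
      rintro rfl
      rw [map_zero, norm_zero] at hv
      linarith
    have h1 : φ (v - T v) = 0 :=
      hφ _ (Submodule.le_topologicalClosure _ ⟨v, rfl⟩)
    rw [map_sub, sub_eq_zero] at h1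
    have h2 : ‖φ‖ ≤ ‖φ‖ * ‖T v‖ := by
      calc ‖φ‖ = ‖φ (T v)‖ := by rw [← hv, h1]
        _ ≤ ‖φ‖ * ‖T v‖ := φ.le_opNorm _
    have h3 : ‖φ‖ * ‖T v‖ < ‖φ‖ * ‖v‖ := mul_lt_mul_of_pos_left (hT v hv0) hφn
    have h4 : ‖φ‖ * ‖v‖ ≤ ‖φ‖ * 1 := mul_le_mul_of_nonneg_left hv1 hφn.le
    linarith
  rw [Metric.tendsto_atTop]
  intro ε hε
  rw [← SetLike.mem_coe, Submodule.topologicalClosure_coe, Metric.mem_closure_iff] at hdense
  obtain ⟨x', ⟨y, rfl⟩, hx'⟩ := hdense (ε / 2) (by positivity)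
  rw [dist_eq_norm] at hx'
  obtain ⟨N, hN⟩ := exists_nat_gt (2 * ‖y‖ / (ε / 2))
  refine ⟨N + 1, fun n hn => ?_⟩
  have hn0 : (0 : ℝ) < n := by
    have : 0 < n := by omega
    exact_mod_cast this
  have hnN : (N : ℝ) ≤ n := by
    have : N ≤ n := by omega
    exact_mod_cast this
  rw [dist_zero_right]
  have h1 : avgOp T n x = avgOp T n (y - T y) + avgOp T n (x - (y - T y)) := by
    rw [← map_add]
    congr 1
    abel
  have h2 : ‖avgOp T n (y - T y)‖ < ε / 2 := by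
    refine (er_tel T hT1 n y).trans_lt ?_
    rw [inv_mul_lt_iff₀ hn0]
    rw [div_lt_iff₀ (by positivity)] at hN
    have : (N : ℝ) * (ε / 2) ≤ n * (ε / 2) := mul_le_mul_of_nonneg_right hnN (by positivity)
    linarith
  have h3 : ‖avgOp T n (x - (y - T y))‖ < ε / 2 := (er_avg_le T hT1 n _).trans_lt hx'
  rw [h1]
  exact (norm_add_le _ _).trans_lt (by linarith)

end Pool.H30.DV
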