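import Pool.Agent.H30.DV.AV

/-!
# [H30 DV EX] Extraction of coordinatewise convergent subsequences in a closed subspace of `ℓ_4`

`ι` countable, `X` a closed subspace of `ℓ_4(ι)`, `x n ∈ X`, `‖x n‖ ≤ C`. Then there are a strictly
increasing `φ` and `y ∈ X` with `‖y‖ ≤ C` such that `x (φ n) - y` is coordinatewise null.

PROOF.  The functions `i ↦ x n i` lie in the compact set `Set.univ.pi (fun _ => closedBall 0 C)` of
`ι → 𝕜`, which is metrizable (first countable) since `ι` is countable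
(`isCompact_univ_pi`, `IsCompact.tendsto_subseq`): there are `φ` and `g : ι → 𝕜` with
`x (φ n) i → g i` for all `i`. For every finite set `F` of coordinates
`∑_{i ∈ F} |g i|⁴ = lim ∑_{i∈F} |x (φ n) i|⁴ ≤ C⁴`, so `g` is in `ℓ_4` with norm `≤ C`
(`lp.memℓp_of_tendsto`, `lp.norm_le_of_tendsto`, or `memℓp_gen` and `norm_pow_four`). Let
`y : ℓ_4` be this element; `CN (x (φ n) - y)` is clear. `y ∈ X`: the sequence
`w n = x (φ n) - y` is bounded (by `2C`) and coordinatewise null, so by `avg_small` for every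
`ε > 0` there is a nonempty finite `s` with `‖∑_{n∈s} w n‖ ≤ ε |s|`, i.e. the element
`|s|⁻¹ ∑_{n ∈ s} x (φ n)` of `X` is within `ε` of `y`; as `X` is closed, `y ∈ X`.
-/

namespace Pool.H30.DV

open Filter Topology

variable {𝕜 : Type} [RCLike 𝕜] {ι : Type}

theorem extract [Countable ι] (X : Submodule 𝕜 (L4 𝕜 ι)) (hX : IsClosed (X : Set (L4 𝕜 ι)))
    (x : ℕ → X) (C : ℝ) (hC : ∀ n, ‖x n‖ ≤ C) :
    ∃ (φ : ℕ → ℕ) (y : X), StrictMono φ ∧ ‖y‖ ≤ C ∧
      CN (fun n => ((x (φ n) - y : X) : L4 𝕜 ι)) := by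
  classical
  have hC0 : 0 ≤ C := (norm_nonneg _).trans (hC 0)
  have hcomp : IsCompact (Set.univ.pi (fun _ : ι => Metric.closedBall (0 : 𝕜) C)) :=
    isCompact_univ_pi (fun _ => isCompact_closedBall 0 C)
  have hmem : ∀ n, (fun i => (x n : L4 𝕜 ι) i) ∈
      Set.univ.pi (fun _ : ι => Metric.closedBall (0 : 𝕜) C) := by
    intro n i _
    rw [Metric.mem_closedBall, dist_zero_right]
    exact (norm_apply_le _ i).trans (hC n)
  obtain ⟨g, -, φ, hφ, hlim⟩ := hcomp.tendsto_subseq hmem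
  rw [tendsto_pi_nhds] at hlim
  -- the limit is in ℓ_4
  have hsum : ∀ F : Finset ι, ∑ i ∈ F, ‖g i‖ ^ 4 ≤ C ^ 4 := by
    intro F
    have h1 : Tendsto (fun n => ∑ i ∈ F, ‖(x (φ n) : L4 𝕜 ι) i‖ ^ 4) atTop
        (𝓝 (∑ i ∈ F, ‖g i‖ ^ 4)) :=
      tendsto_finset_sum _ (fun i _ => ((hlim i).norm).pow 4)
    refine le_of_tendsto h1 (Eventually.of_forall (fun n => ?_))
    have h2 : ∑ i ∈ F, ‖(x (φ n) : L4 𝕜 ι) i‖ ^ 4 ≤ ∑' i, ‖(x (φ n) : L4 𝕜 ι) i‖ ^ 4 :=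
      (summable_pow _).sum_le_tsum F (fun i _ => by positivity)
    rw [← norm_pow_four] at h2
    exact h2.trans (pow_le_pow_left₀ (norm_nonneg _) (hC _) 4)
  have hgs : Summable (fun i => ‖g i‖ ^ 4) :=
    summable_of_sum_le (fun i => by positivity) hsum
  have hgm : Memℓp g (4 : ENNReal) := by
    have e : (4 : ENNReal).toReal = ((4 : ℕ) : ℝ) := by norm_num
    refine memℓp_gen ?_
    rw [e]
    refine hgs.congr (fun i => ?_)
    rw [Real.rpow_natCast]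
  let y0 : L4 𝕜 ι := ⟨g, hgm⟩
  have hy0 : ∀ i, y0 i = g i := fun i => rfl
  have hynorm : ‖y0‖ ≤ C := by
    have h1 : ‖y0‖ ^ 4 ≤ C ^ 4 := by
      rw [norm_pow_four]
      exact hgs.tsum_le_of_sum_le hsum
    exact (pow_le_pow_iff_left₀ (norm_nonneg _) hC0 (by norm_num)).mp h1
  let w : ℕ → L4 𝕜 ι := fun n => (x (φ n) : L4 𝕜 ι) - y0
  have hwC : ∀ n, ‖w n‖ ≤ 2 * C := by
    intro n
    have h1 : ‖(x (φ n) : L4 𝕜 ι)‖ ≤ C := hC _
    have h2 := norm_sub_le (x (φ n) : L4 𝕜 ι) y0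
    show ‖(x (φ n) : L4 𝕜 ι) - y0‖ ≤ 2 * C
    linarith
  have hwCN : CN w := by
    intro i
    have h1 : Tendsto (fun n => (x (φ n) : L4 𝕜 ι) i - g i) atTop (𝓝 (g i - g i)) :=
      (hlim i).sub tendsto_const_nhds
    rw [sub_self] at h1
    exact h1
  have hyX : y0 ∈ X := by
    have h1 : y0 ∈ closure (X : Set (L4 𝕜 ι)) := by
      rw [Metric.mem_closure_iff]
      intro ε hε
      obtain ⟨s, hs1, -, hs3⟩ := avg_small w (2 * C) hwC hwCN 0 (ε / 2) (by positivity)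
      have hcard : (0 : ℝ) < s.card := by exact_mod_cast Finset.card_pos.mpr hs1
      have hck : (s.card : 𝕜) ≠ 0 := by
        exact_mod_cast (Finset.card_pos.mpr hs1).ne'
      refine ⟨((s.card : 𝕜)⁻¹) • ∑ n ∈ s, (x (φ n) : L4 𝕜 ι),
        X.smul_mem _ (X.sum_mem (fun n _ => (x (φ n)).2)), ?_⟩
      rw [dist_comm, dist_eq_norm]
      have h2 : ((s.card : 𝕜)⁻¹) • ∑ n ∈ s, (x (φ n) : L4 𝕜 ι) - y0 =
          ((s.card : 𝕜)⁻¹) • ∑ n ∈ s, w n := by
        simp only [w]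
        rw [Finset.sum_sub_distrib, smul_sub, Finset.sum_const, ← Nat.cast_smul_eq_nsmul 𝕜,
          smul_smul, inv_mul_cancel₀ hck, one_smul]
      rw [h2, norm_smul, norm_inv, RCLike.norm_natCast]
      calc (s.card : ℝ)⁻¹ * ‖∑ n ∈ s, w n‖ ≤ (s.card : ℝ)⁻¹ * (ε / 2 * s.card) :=
            mul_le_mul_of_nonneg_left hs3 (by positivity)
        _ = ε / 2 := by field_simp
        _ < ε := by linarith
    rwa [hX.closure_eq] at h1
  refine ⟨φ, ⟨y0, hyX⟩, hφ, hynorm, ?_⟩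
  exact hwCN

end Pool.H30.DV
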