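import Pool.Agent.H30.DV.EX
import Pool.Agent.H30.DV.WN

/-!
# [H30 DV FA] Functionals on closed subspaces of `ℓ_4` attain their norm

`X` closed subspace of `ℓ_4(ι)`, `φ : X → 𝕜` bounded. Then there is `x ∈ X` with `‖x‖ ≤ 1` and
`‖φ x‖ = ‖φ‖`.

PROOF.  If `φ = 0` take `x = 0`. Choose `x n ∈ X`, `‖x n‖ ≤ 1`, `‖φ (x n)‖ → ‖φ‖`. By `extract`
(`C = 1`) after passing to a subsequence `x n = y + z n`, `‖y‖ ≤ 1`, `z n` bounded and
coordinatewise null; `φ (z n) → 0` by `functional_null`. So `φ (x n) → φ y` and `‖φ y‖ = ‖φ‖`.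
-/

namespace Pool.H30.DV

open Filter Topology

variable {𝕜 : Type} [RCLike 𝕜] {ι : Type}

theorem functional_attains [Countable ι] (X : Submodule 𝕜 (L4 𝕜 ι))
    (hX : IsClosed (X : Set (L4 𝕜 ι))) (φ : X →L[𝕜] 𝕜) :
    ∃ x : X, ‖x‖ ≤ 1 ∧ ‖φ x‖ = ‖φ‖ := by
  have h1 : ∀ n : ℕ, ∃ x : X, ‖x‖ < 1 ∧ ‖φ‖ - 1 / ((n : ℝ) + 1) < ‖φ x‖ := fun n =>
    φ.exists_lt_apply_of_lt_opNorm (by
      have : (0 : ℝ) < 1 / ((n : ℝ) + 1) := by positivity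
      linarith)
  choose x hx1 hx2 using h1
  obtain ⟨ψ, y, hψ, hy, hCN⟩ := extract X hX x 1 (fun n => (hx1 n).le)
  have h2 : Tendsto (fun n => φ (x (ψ n) - y)) atTop (𝓝 0) :=
    functional_null X φ (fun n => x (ψ n) - y) 2
      (fun n => (norm_sub_le _ _).trans (by linarith [(hx1 (ψ n)).le])) hCN
  have h3 : Tendsto (fun n => ‖φ (x (ψ n))‖) atTop (𝓝 ‖φ y‖) := by
    have h4 : Tendsto (fun n => φ (x (ψ n))) atTop (𝓝 (φ y)) := by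
      have h5 := h2.add_const (φ y)
      rw [zero_add] at h5
      refine h5.congr (fun n => ?_)
      rw [map_sub, sub_add_cancel]
    exact h4.norm
  have h4 : Tendsto (fun n => ‖φ‖ - 1 / (((ψ n : ℕ) : ℝ) + 1)) atTop (𝓝 ‖φ‖) := by
    have h5 : Tendsto (fun n : ℕ => 1 / ((n : ℝ) + 1)) atTop (𝓝 0) :=
      tendsto_one_div_add_atTop_nhds_zero_nat
    have h6 := (h5.comp hψ.tendsto_atTop).const_sub ‖φ‖
    rw [sub_zero] at h6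
    exact h6
  refine ⟨y, hy, le_antisymm ?_ (le_of_tendsto_of_tendsto' h4 h3 (fun n => (hx2 (ψ n)).le))⟩
  calc ‖φ y‖ ≤ ‖φ‖ * ‖y‖ := φ.le_opNorm y
    _ ≤ ‖φ‖ * 1 := mul_le_mul_of_nonneg_left hy (norm_nonneg φ)
    _ = ‖φ‖ := mul_one _

end Pool.H30.DV
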