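import Pool.Agent.H30.DV.ER
import Pool.Agent.H30.DV.BD

/-!
# [H30 DV NA] A non attaining operator `c U + K` gives compact approximations of the identity

`X` closed subspace of `ℓ_4(ι)`, `U : X → X` a surjective linear isometry, `c` a scalar, `K`
compact. If `T = c U + K` does not attain its norm, then there is a sequence `A n : X → X` with
`‖A n‖ ≤ 1`, `A n x → 0` for all `x`, and `id - A n` compact.

PROOF.  If `T` does not attain, then `‖T‖ ≤ ‖T - K‖ = ‖c U‖ ≤ ‖c‖` by `attains_of_essential`. For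
`x ≠ 0` one has `‖T x‖ < ‖T‖ ‖x‖ ≤ ‖c‖ ‖x‖`: otherwise `‖T x‖ = ‖T‖ ‖x‖` and
`x / ‖x‖` is a vector of norm one at which `T` attains its norm (as `‖T x‖ ≤ ‖T‖‖x‖` always).
In particular if `X` has a nonzero vector then `c ≠ 0`; if `X` is trivial (all vectors are `0`)
take `A n = 0` (then `id = 0` is compact). Let
`T' = c⁻¹ U⁻¹ T = id + K'`, `K' = c⁻¹ • U⁻¹ ∘ K` compact
(`IsCompactOperator.clm_comp`/`IsCompactOperator.comp_clm`, `IsCompactOperator.smul`). Then
`‖T' x‖ = ‖c‖⁻¹ ‖T x‖ < ‖x‖` for `x ≠ 0`, so `ergodic` applies: `A n = avgOp T' (n+1)` tends to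
`0` pointwise, `‖A n‖ ≤ 1` (each `‖T'^j‖ ≤ 1`). And `id - A n = (1/(n+1)) ∑_{j<n+1} (id - T'^j)`
is compact since `id - T'^j` is compact for every `j` by induction
(`id - T'^(j+1) = (id - T'^j) + T'^j ∘ (id - T')`, `id - T' = -K'`).
-/

namespace Pool.H30.DV

open Filter Topology

variable {𝕜 : Type} [RCLike 𝕜] {ι : Type}

private theorem na_pow {E : Type} [NormedAddCommGroup E] [NormedSpace 𝕜 E] (T : E →L[𝕜] E)
    (hT : IsCompactOperator (ContinuousLinearMap.id 𝕜 E - T)) (j : ℕ) :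
    IsCompactOperator (ContinuousLinearMap.id 𝕜 E - T ^ j) := by
  induction j with
  | zero =>
    have h0 : (ContinuousLinearMap.id 𝕜 E - T ^ 0) = 0 := by
      rw [pow_zero]
      exact sub_self _
    rw [h0]
    exact isCompactOperator_zero
  | succ j ih =>
    have h1 : (ContinuousLinearMap.id 𝕜 E - T ^ (j + 1)) =
        (ContinuousLinearMap.id 𝕜 E - T ^ j) +
          (T ^ j).comp (ContinuousLinearMap.id 𝕜 E - T) := by
      ext x
      simp [pow_succ]
    rw [h1]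
    exact ih.add (hT.clm_comp (T ^ j))

private theorem na_avg {E : Type} [NormedAddCommGroup E] [NormedSpace 𝕜 E] (T : E →L[𝕜] E)
    (hT : IsCompactOperator (ContinuousLinearMap.id 𝕜 E - T)) (n : ℕ) :
    IsCompactOperator (ContinuousLinearMap.id 𝕜 E - avgOp T (n + 1)) := by
  have h1 : ∀ s : Finset ℕ,
      IsCompactOperator (∑ j ∈ s, (ContinuousLinearMap.id 𝕜 E - T ^ j) : E →L[𝕜] E) := by
    intro s
    classical
    induction s using Finset.induction_on with
    | empty =>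
      rw [Finset.sum_empty]
      exact isCompactOperator_zero
    | insert a s ha ih =>
      rw [Finset.sum_insert ha]
      exact (na_pow T hT a).add ih
  have h2 : ContinuousLinearMap.id 𝕜 E - avgOp T (n + 1) =
      (((n + 1 : ℕ) : 𝕜)⁻¹) • ∑ j ∈ Finset.range (n + 1), (ContinuousLinearMap.id 𝕜 E - T ^ j) := by
    rw [Finset.sum_sub_distrib, Finset.sum_const, Finset.card_range, smul_sub,
      ← Nat.cast_smul_eq_nsmul 𝕜, smul_smul, inv_mul_cancel₀ (Nat.cast_ne_zero.2 (by omega)),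
      one_smul]
    rfl
  rw [h2]
  exact (h1 _).smul _

theorem nonattaining [Countable ι] (X : Submodule 𝕜 (L4 𝕜 ι))
    (hX : IsClosed (X : Set (L4 𝕜 ι))) (U : X ≃ₗᵢ[𝕜] X) (c : 𝕜) (K : X →L[𝕜] X)
    (hK : IsCompactOperator K)
    (h : ¬ Attains (c • (U.toContinuousLinearEquiv : X →L[𝕜] X) + K)) :
    ∃ A : ℕ → (X →L[𝕜] X), (∀ n, ‖A n‖ ≤ 1) ∧ (∀ x, Tendsto (fun n => A n x) atTop (𝓝 0)) ∧
      ∀ n, IsCompactOperator (ContinuousLinearMap.id 𝕜 X - A n) := by
  obtain ⟨V, hV⟩ : ∃ V : X →L[𝕜] X, V = (U.toContinuousLinearEquiv : X →L[𝕜] X) := ⟨_, rfl⟩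
  obtain ⟨W, hW⟩ : ∃ W : X →L[𝕜] X, W = (U.symm.toContinuousLinearEquiv : X →L[𝕜] X) := ⟨_, rfl⟩
  have hVn : ∀ x, ‖V x‖ = ‖x‖ := by
    intro x
    rw [hV]
    exact U.norm_map x
  have hWn : ∀ x, ‖W x‖ = ‖x‖ := by
    intro x
    rw [hW]
    exact U.symm.norm_map x
  have hWV : ∀ x, W (V x) = x := by
    intro x
    rw [hV, hW]
    exact U.symm_apply_apply x
  rw [← hV] at h
  obtain ⟨T, hT⟩ : ∃ T : X →L[𝕜] X, T = c • V + K := ⟨_, rfl⟩
  rw [← hT] at h
  have hTK : T - K = c • V := by rw [hT, add_sub_cancel_right]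
  have hTn : ‖T‖ ≤ ‖c‖ := by
    by_contra hlt
    push Not at hlt
    refine h (attains_of_essential X hX T K hK (lt_of_le_of_lt ?_ hlt))
    rw [hTK]
    refine ContinuousLinearMap.opNorm_le_bound _ (norm_nonneg c) (fun x => ?_)
    rw [smul_apply, norm_smul, hVn]
  have hTx : ∀ x : X, x ≠ 0 → ‖T x‖ < ‖c‖ * ‖x‖ := by
    intro x hx
    by_contra hlt
    push Not at hlt
    have hx0 : 0 < ‖x‖ := norm_pos_iff.2 hx
    have h1 : ‖T x‖ = ‖T‖ * ‖x‖ := le_antisymm (T.le_opNorm x)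
      ((mul_le_mul_of_nonneg_right hTn hx0.le).trans hlt)
    refine h ⟨((‖x‖ : 𝕜)⁻¹) • x, ?_, ?_⟩
    · rw [norm_smul, norm_inv, RCLike.norm_ofReal, abs_norm, inv_mul_cancel₀ hx0.ne']
    · rw [map_smul, norm_smul, norm_inv, RCLike.norm_ofReal, abs_norm, h1]
      field_simp
  by_cases hc : c = 0
  · have hX0 : ∀ x : X, x = 0 := by
      intro x
      by_contra hx
      have h1 := hTx x hx
      rw [hc, norm_zero, zero_mul] at h1
      exact absurd h1 (not_lt.2 (norm_nonneg _))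
    refine ⟨fun _ => 0, fun n => ContinuousLinearMap.opNorm_le_bound _ zero_le_one
      (fun x => by simp), fun x => by simp, fun n => ?_⟩
    have h0 : (ContinuousLinearMap.id 𝕜 X - 0 : X →L[𝕜] X) = 0 := by
      ext1 x
      rw [hX0 x, map_zero, map_zero]
    rw [h0]
    exact isCompactOperator_zero
  · have hc0 : 0 < ‖c‖ := norm_pos_iff.2 hc
    obtain ⟨S, hS⟩ : ∃ S : X →L[𝕜] X, S = c⁻¹ • W.comp T := ⟨_, rfl⟩
    have hSx : ∀ x, ‖S x‖ = ‖c‖⁻¹ * ‖T x‖ := by
      intro x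
      rw [hS, smul_apply, norm_smul, norm_inv, ContinuousLinearMap.comp_apply, hWn]
    have hSlt : ∀ x : X, x ≠ 0 → ‖S x‖ < ‖x‖ := by
      intro x hx
      rw [hSx, inv_mul_lt_iff₀ hc0]
      exact hTx x hx
    have hSle : ∀ x : X, ‖S x‖ ≤ ‖x‖ := by
      intro x
      by_cases hx : x = 0
      · rw [hx, map_zero]
      · exact (hSlt x hx).le
    have hSc : IsCompactOperator (ContinuousLinearMap.id 𝕜 X - S) := by
      have h1 : ContinuousLinearMap.id 𝕜 X - S = (-c⁻¹) • W.comp K := by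
        ext1 x
        rw [hS, hT]
        simp only [sub_apply, smul_apply, ContinuousLinearMap.comp_apply, add_apply, map_add,
          map_smul, ContinuousLinearMap.id_apply, hWV, smul_add, neg_smul]
        rw [smul_smul, inv_mul_cancel₀ hc, one_smul]
        abel
      rw [h1]
      have h2 : IsCompactOperator (W.comp K) := hK.clm_comp W
      exact h2.smul (-c⁻¹)
    refine ⟨fun n => avgOp S (n + 1), fun n => ?_, fun x => ?_, fun n => na_avg S hSc n⟩
    · exact ContinuousLinearMap.opNorm_le_bound _ zero_le_one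
        (fun x => by rw [one_mul]; exact er_avg_le S hSle (n + 1) x)
    · exact (ergodic X hX S hSlt x).comp (tendsto_add_atTop_nat 1)

end Pool.H30.DV
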