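import Pool.Agent.H30.DV.SC
import Pool.Agent.H30.DV.EX

/-!
# [H30 DV SD] On closed subspaces of `ℓ_4` strictly singular operators are compact

PROOF.  Let `x n ∈ X`, `‖x n‖ ≤ 1`. By `extract` there are a strictly increasing `φ` and `y ∈ X` such
that `x (φ n) - y` is coordinatewise null (bounded by `1 + ‖y‖`); by `ss_null`,
`S (x (φ n)) → S y`. So every sequence in `S '' closedBall 0 1` has a subsequence converging in
`X`; hence the closure of `S '' closedBall 0 1` is compact: it is sequentially compact (a sequence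
`u n` in the closure is approximated by `S (x n)` with `‖u n - S (x n)‖ ≤ 1/(n+1)`), and in a metric
space `IsSeqCompact.isCompact` (`UniformSpace.isCompact_iff_isSeqCompact`). Then
`isCompactOperator_iff_isCompact_closure_image_closedBall` (or the constructor: the compact set
`closure (S '' closedBall 0 1)` has a preimage which is a neighbourhood of `0`).
-/

namespace Pool.H30.DV

open Filter Topology

variable {𝕜 : Type} [RCLike 𝕜] {ι : Type}

private theorem ball_subseq [Countable ι] (X : Submodule 𝕜 (L4 𝕜 ι))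
    (hX : IsClosed (X : Set (L4 𝕜 ι))) (S : X →L[𝕜] X) (hS : StrictlySingular S)
    (x : ℕ → X) (hx : ∀ n, ‖x n‖ ≤ 1) :
    ∃ (φ : ℕ → ℕ) (y : X), StrictMono φ ∧ Tendsto (fun n => S (x (φ n))) atTop (𝓝 y) := by
  obtain ⟨φ, y, hφ, hy, hcn⟩ := extract X hX x 1 hx
  refine ⟨φ, S y, hφ, ?_⟩
  have hb : ∀ n, ‖x (φ n) - y‖ ≤ 2 := by
    intro n
    have h1 := norm_sub_le (x (φ n)) y
    have h2 := hx (φ n)
    linarith
  have h := ss_null X S hS (fun n => x (φ n) - y) 2 hb hcn
  rw [tendsto_iff_norm_sub_tendsto_zero]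
  refine h.congr (fun n => ?_)
  rw [map_sub]

theorem ss_compact [Countable ι] (X : Submodule 𝕜 (L4 𝕜 ι)) (hX : IsClosed (X : Set (L4 𝕜 ι)))
    (S : X →L[𝕜] X) (hS : StrictlySingular S) : IsCompactOperator S := by
  have hcomp : IsCompact (closure (S '' Metric.closedBall (0 : X) 1)) := by
    rw [_root_.isCompact_iff_isSeqCompact]
    intro u hu
    have hch : ∀ n : ℕ, ∃ x : X, ‖x‖ ≤ 1 ∧ dist (u n) (S x) < 1 / ((n : ℝ) + 1) := by
      intro n
      obtain ⟨b, hb, hd⟩ := Metric.mem_closure_iff.mp (hu n) (1 / ((n : ℝ) + 1)) (by positivity)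
      obtain ⟨x, hx, rfl⟩ := hb
      refine ⟨x, ?_, hd⟩
      rwa [Metric.mem_closedBall, dist_zero_right] at hx
    choose x hx1 hx2 using hch
    obtain ⟨φ, y, hφ, hlim⟩ := ball_subseq X hX S hS x hx1
    have hlim2 : Tendsto (u ∘ φ) atTop (𝓝 y) := by
      have h1 : Tendsto (fun n => dist ((u ∘ φ) n) (S (x (φ n)))) atTop (𝓝 0) := by
        have h2 : Tendsto (fun n : ℕ => 1 / ((φ n : ℝ) + 1)) atTop (𝓝 0) :=
          tendsto_one_div_add_atTop_nhds_zero_nat.comp hφ.tendsto_atTop
        exact squeeze_zero (fun n => dist_nonneg) (fun n => (hx2 (φ n)).le) h2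
      exact hlim.congr_dist (h1.congr (fun n => dist_comm _ _))
    exact ⟨y, isClosed_closure.mem_of_tendsto hlim2 (Eventually.of_forall (fun n => hu _)),
      φ, hφ, hlim2⟩
  refine ⟨_, hcomp, ?_⟩
  refine Filter.mem_of_superset (Metric.closedBall_mem_nhds (0 : X) one_pos) ?_
  intro x hx
  exact subset_closure ⟨x, hx, rfl⟩

end Pool.H30.DV
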