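import Pool.Agent.H30.DV.Vec

/-!
# [H30 DV SP] Davie's space is separable and complete

PROOF.  `XD` is the closure of the span of a countable set (`{f | ∃ k j, f = v k j}` is the range of
a function on the countable type `Σ k, Fin (2^(k+1))`): `Set.Countable.isSeparable`,
`TopologicalSpace.IsSeparable.span` (scalar field `𝕜` is separable), `IsSeparable.closure`, and
`TopologicalSpace.IsSeparable.separableSpace` for the subtype. Complete: closed subspace of the
complete space `ℓ_4` (`XD_closed`, `IsClosed.completeSpace_coe`).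
-/

namespace Pool.H30.DV

variable (𝕜 : Type) [RCLike 𝕜] (d : DD)

theorem XD_separable : TopologicalSpace.SeparableSpace (XD 𝕜 d) := by
  have h0 : {f : L4 𝕜 J | ∃ (k : ℕ) (j : Fin (2 ^ (k + 1))), f = v 𝕜 d k j} =
      Set.range (fun p : (Σ k : ℕ, Fin (2 ^ (k + 1))) => v 𝕜 d p.1 p.2) := by
    ext f
    constructor
    · rintro ⟨k, j, rfl⟩
      exact ⟨⟨k, j⟩, rfl⟩
    · rintro ⟨⟨k, j⟩, rfl⟩
      exact ⟨k, j, rfl⟩
  have h1 : {f : L4 𝕜 J | ∃ (k : ℕ) (j : Fin (2 ^ (k + 1))), f = v 𝕜 d k j}.Countable := by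
    rw [h0]
    exact Set.countable_range _
  have h2 : TopologicalSpace.IsSeparable (XD 𝕜 d : Set (L4 𝕜 J)) := by
    have h3 := (h1.isSeparable.span (R := 𝕜)).closure
    exact h3
  exact h2.separableSpace

theorem XD_complete : CompleteSpace (XD 𝕜 d) := by
  exact (XD_closed 𝕜 d).completeSpace_coe

end Pool.H30.DV
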