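import Pool.Agent.H30.DV.DB
import Pool.Agent.H30.DV.CT
import Pool.Agent.H30.DV.SP
import Pool.Agent.H30.DV.NA
import Pool.Agent.H30.DV.SD

/-!
# H30/DV/Fin: final assembly
-/

namespace Pool.H30.DV

theorem final (𝕜 : Type) [RCLike 𝕜] :
    ∃ (X : Type) (_ : NormedAddCommGroup X) (_ : NormedSpace 𝕜 X),
      CompleteSpace X ∧ TopologicalSpace.SeparableSpace X ∧ ¬ FiniteDimensional 𝕜 X ∧
      (∀ (U : X ≃ₗᵢ[𝕜] X) (c : 𝕜) (S : X →L[𝕜] X), StrictlySingular S →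
        Attains (c • (U.toContinuousLinearEquiv : X →L[𝕜] X) + S)) ∧
      (∀ T K : X →L[𝕜] X, IsCompactOperator K → ‖T - K‖ < ‖T‖ → Attains T) := by
  obtain ⟨d⟩ := exists_DD
  refine ⟨XD 𝕜 d, inferInstance, inferInstance, XD_complete 𝕜 d, XD_separable 𝕜 d,
    XD_infinite 𝕜 d, ?_, ?_⟩
  · intro U c S hS
    by_contra h
    obtain ⟨A, h1, h2, h3⟩ := nonattaining (XD 𝕜 d) (XD_closed 𝕜 d) U c S
      (ss_compact (XD 𝕜 d) (XD_closed 𝕜 d) S hS) h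
    exact no_approx 𝕜 d A h1 h2 h3
  · intro T K hK h
    exact attains_of_essential (XD 𝕜 d) (XD_closed 𝕜 d) T K hK h

end Pool.H30.DV
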