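import Pool.Agent.H30.DV.BL

/-!
# [H30 DV SA] Brezis-Lieb, uniformly on finite dimensional subspaces

`F` a finite dimensional subspace of `ℓ_4`, `z n` bounded and coordinatewise null, `ε > 0`. For all
large `n`, all `x ∈ F` and all scalars `a`
`| ‖x + a z n‖⁴ - ‖x‖⁴ - |a|⁴ ‖z n‖⁴ | ≤ ε (‖x‖⁴ + |a|⁴)`.

PROOF.  Both sides are homogeneous of degree 4 in `(x, a)`, so it is enough to treat
`max(‖x‖, |a|) = 1` (the case `x = 0, a = 0` is trivial; otherwise divide by the real number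
`max(‖x‖,|a|) > 0`), where the right side is at least `ε`. Suppose the claim fails: there are a
strictly increasing `φ` and `x_k ∈ F`, `a_k` with `max(‖x_k‖,|a_k|) = 1` and
`| ‖x_k + a_k z (φ k)‖⁴ - ‖x_k‖⁴ - |a_k|⁴‖z (φ k)‖⁴ | > ε`. The closed unit ball of `F` times the
closed unit ball of `𝕜` is compact (`F` is proper: `FiniteDimensional.proper_rclike`), so after
passing to a subsequence `x_k → x`, `a_k → a`. All norms are bounded (by `1`, resp. `1 + C`), hence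
`‖x_k + a_k z‖⁴ - ‖x + a z‖⁴ → 0`, `‖x_k‖⁴ → ‖x‖⁴`, `(|a_k|⁴ - |a|⁴)‖z (φ k)‖⁴ → 0`; and by `BL`
(for the coordinatewise null sequence `a • z (φ k)`, bound `|a| C`)
`‖x + a z (φ k)‖⁴ - |a|⁴‖z (φ k)‖⁴ - ‖x‖⁴ → 0`. Contradiction.
-/

namespace Pool.H30.DV

open Filter Topology

variable {𝕜 : Type} [RCLike 𝕜] {ι : Type}

theorem SA_pow4_lip {s t M : ℝ} (hs : 0 ≤ s) (ht : 0 ≤ t) (hsM : s ≤ M) (htM : t ≤ M) :
    |s ^ 4 - t ^ 4| ≤ 4 * M ^ 3 * |s - t| := by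
  have e : s ^ 4 - t ^ 4 = (s ^ 3 + s ^ 2 * t + s * t ^ 2 + t ^ 3) * (s - t) := by ring
  rw [e, abs_mul]
  have h1 : |s ^ 3 + s ^ 2 * t + s * t ^ 2 + t ^ 3| ≤ 4 * M ^ 3 := by
    rw [abs_of_nonneg (by positivity)]
    have hM : 0 ≤ M := le_trans hs hsM
    have a1 : s ^ 3 ≤ M ^ 3 := pow_le_pow_left₀ hs hsM 3
    have a2 : s ^ 2 * t ≤ M ^ 3 := by
      calc s ^ 2 * t ≤ M ^ 2 * M := by gcongr
        _ = M ^ 3 := by ring
    have a3 : s * t ^ 2 ≤ M ^ 3 := by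
      calc s * t ^ 2 ≤ M * M ^ 2 := by gcongr
        _ = M ^ 3 := by ring
    have a4 : t ^ 3 ≤ M ^ 3 := pow_le_pow_left₀ ht htM 3
    linarith
  exact mul_le_mul_of_nonneg_right h1 (abs_nonneg _)

theorem SA_lim (z : ℕ → L4 𝕜 ι) (C : ℝ) (hC : ∀ n, ‖z n‖ ≤ C) (hz : CN z)
    (x : ℕ → L4 𝕜 ι) (x0 : L4 𝕜 ι) (a : ℕ → 𝕜) (a0 : 𝕜)
    (hx : Tendsto x atTop (𝓝 x0)) (ha : Tendsto a atTop (𝓝 a0))
    (hx1 : ∀ n, ‖x n‖ ≤ 1) (ha1 : ∀ n, ‖a n‖ ≤ 1) :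
    Tendsto (fun n => ‖x n + a n • z n‖ ^ 4 - ‖x n‖ ^ 4 - ‖a n‖ ^ 4 * ‖z n‖ ^ 4)
      atTop (𝓝 0) := by
  have hC0 : 0 ≤ C := le_trans (norm_nonneg _) (hC 0)
  have hx0 : ‖x0‖ ≤ 1 := le_of_tendsto hx.norm (Eventually.of_forall hx1)
  have ha0 : ‖a0‖ ≤ 1 := le_of_tendsto ha.norm (Eventually.of_forall ha1)
  have hdx : Tendsto (fun n => ‖x n - x0‖) atTop (𝓝 0) := tendsto_iff_norm_sub_tendsto_zero.1 hx
  have hda : Tendsto (fun n => ‖a n - a0‖) atTop (𝓝 0) := tendsto_iff_norm_sub_tendsto_zero.1 ha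
  -- the Brezis-Lieb part
  have hb1 : ∀ n, ‖a0 • z n‖ ≤ C := by
    intro n
    rw [norm_smul]
    calc ‖a0‖ * ‖z n‖ ≤ 1 * C := mul_le_mul ha0 (hC n) (norm_nonneg _) zero_le_one
      _ = C := one_mul C
  have hb2 : CN (fun n => a0 • z n) := by
    intro i
    have h := (hz i).const_mul a0
    rw [mul_zero] at h
    exact h
  have hT2 := BL x0 (fun n => a0 • z n) C hb1 hb2
  -- the first term
  have hT1 : Tendsto (fun n => ‖x n + a n • z n‖ ^ 4 - ‖x0 + a0 • z n‖ ^ 4) atTop (𝓝 0) := by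
    have hg : Tendsto (fun n => 4 * (1 + C) ^ 3 * (‖x n - x0‖ + ‖a n - a0‖ * C)) atTop
        (𝓝 (4 * (1 + C) ^ 3 * (0 + 0 * C))) :=
      (hdx.add (hda.mul_const C)).const_mul _
    have e0 : 4 * (1 + C) ^ 3 * (0 + 0 * C) = 0 := by ring
    rw [e0] at hg
    refine squeeze_zero_norm (fun n => ?_) hg
    rw [Real.norm_eq_abs]
    have b1 : ‖x n + a n • z n‖ ≤ 1 + C := by
      refine (norm_add_le _ _).trans (add_le_add (hx1 n) ?_)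
      rw [norm_smul]
      calc ‖a n‖ * ‖z n‖ ≤ 1 * C := mul_le_mul (ha1 n) (hC n) (norm_nonneg _) zero_le_one
        _ = C := one_mul C
    have b2 : ‖x0 + a0 • z n‖ ≤ 1 + C := (norm_add_le _ _).trans (add_le_add hx0 (hb1 n))
    refine (SA_pow4_lip (norm_nonneg _) (norm_nonneg _) b1 b2).trans ?_
    refine mul_le_mul_of_nonneg_left ?_ (by positivity)
    refine (abs_norm_sub_norm_le _ _).trans ?_
    have e1 : x n + a n • z n - (x0 + a0 • z n) = (x n - x0) + (a n - a0) • z n := by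
      rw [sub_smul]; abel
    rw [e1]
    refine (norm_add_le _ _).trans (add_le_add le_rfl ?_)
    rw [norm_smul]
    exact mul_le_mul_of_nonneg_left (hC n) (norm_nonneg _)
  -- the fourth term
  have hT4 : Tendsto (fun n => (‖a0‖ ^ 4 - ‖a n‖ ^ 4) * ‖z n‖ ^ 4) atTop (𝓝 0) := by
    have h1 : Tendsto (fun n => ‖a0‖ ^ 4 - ‖a n‖ ^ 4) atTop (𝓝 (‖a0‖ ^ 4 - ‖a0‖ ^ 4)) :=
      tendsto_const_nhds.sub (ha.norm.pow 4)
    rw [sub_self] at h1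
    have h2 := h1.norm.mul_const (C ^ 4)
    rw [norm_zero, zero_mul] at h2
    refine squeeze_zero_norm (fun n => ?_) h2
    rw [norm_mul]
    refine mul_le_mul_of_nonneg_left ?_ (norm_nonneg _)
    rw [norm_pow, norm_norm]
    exact pow_le_pow_left₀ (norm_nonneg _) (hC n) 4
  have hT3 : Tendsto (fun n => ‖x n‖ ^ 4) atTop (𝓝 (‖x0‖ ^ 4)) := hx.norm.pow 4
  have hall := ((hT1.add hT2).sub hT3).add hT4
  have e2 : (0 : ℝ) + ‖x0‖ ^ 4 - ‖x0‖ ^ 4 + 0 = 0 := by ring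
  rw [e2] at hall
  refine hall.congr (fun n => ?_)
  have e3 : ‖a0 • z n‖ ^ 4 = ‖a0‖ ^ 4 * ‖z n‖ ^ 4 := by rw [norm_smul, mul_pow]
  simp only [e3]
  ring

theorem BL_uniform (F : Submodule 𝕜 (L4 𝕜 ι)) [FiniteDimensional 𝕜 F]
    (z : ℕ → L4 𝕜 ι) (C : ℝ) (hC : ∀ n, ‖z n‖ ≤ C) (hz : CN z) (ε : ℝ) (hε : 0 < ε) :
    ∀ᶠ n in atTop, ∀ x ∈ F, ∀ a : 𝕜,
      |‖x + a • z n‖ ^ 4 - ‖x‖ ^ 4 - ‖a‖ ^ 4 * ‖z n‖ ^ 4| ≤ ε * (‖x‖ ^ 4 + ‖a‖ ^ 4) := by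
  by_contra hcon
  rw [not_eventually] at hcon
  obtain ⟨φ, hφ, hbad⟩ := extraction_of_frequently_atTop hcon
  -- normalised bad vectors
  have hnorm : ∀ k, ∃ (x : F) (a : 𝕜), ‖(x, a)‖ ≤ 1 ∧
      ε < |‖(x : L4 𝕜 ι) + a • z (φ k)‖ ^ 4 - ‖(x : L4 𝕜 ι)‖ ^ 4 - ‖a‖ ^ 4 * ‖z (φ k)‖ ^ 4| := by
    intro k
    have hk := hbad k
    push Not at hk
    obtain ⟨x, hxF, a, hxa⟩ := hk
    set t : ℝ := max ‖x‖ ‖a‖ with ht
    have ht0 : 0 ≤ t := le_max_of_le_left (norm_nonneg _)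
    have htpos : 0 < t := by
      rcases ht0.lt_or_eq with h | h
      · exact h
      · exfalso
        have h1 : ‖x‖ ≤ 0 := h ▸ le_max_left _ _
        have h2 : ‖a‖ ≤ 0 := h ▸ le_max_right _ _
        have hx0 : x = 0 := norm_le_zero_iff.1 h1
        have ha0 : a = 0 := norm_le_zero_iff.1 h2
        subst hx0
        subst ha0
        simp at hxa
    have htx : ‖x‖ ≤ t := le_max_left _ _
    have hta : ‖a‖ ≤ t := le_max_right _ _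
    have hti : ‖((t⁻¹ : ℝ) : 𝕜)‖ = t⁻¹ := by
      rw [RCLike.norm_ofReal, abs_of_pos (inv_pos.2 htpos)]
    refine ⟨((t⁻¹ : ℝ) : 𝕜) • ⟨x, hxF⟩, ((t⁻¹ : ℝ) : 𝕜) * a, ?_, ?_⟩
    · rw [Prod.norm_def]
      refine max_le ?_ ?_
      · change ‖((t⁻¹ : ℝ) : 𝕜) • (⟨x, hxF⟩ : F)‖ ≤ 1
        rw [norm_smul, hti]
        change t⁻¹ * ‖x‖ ≤ 1
        calc t⁻¹ * ‖x‖ ≤ t⁻¹ * t := mul_le_mul_of_nonneg_left htx (inv_nonneg.2 ht0)
          _ = 1 := inv_mul_cancel₀ htpos.ne'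
      · change ‖((t⁻¹ : ℝ) : 𝕜) * a‖ ≤ 1
        rw [norm_mul, hti]
        calc t⁻¹ * ‖a‖ ≤ t⁻¹ * t := mul_le_mul_of_nonneg_left hta (inv_nonneg.2 ht0)
          _ = 1 := inv_mul_cancel₀ htpos.ne'
    · have e1 : ((((t⁻¹ : ℝ) : 𝕜) • (⟨x, hxF⟩ : F) : F) : L4 𝕜 ι) = ((t⁻¹ : ℝ) : 𝕜) • x := rfl
      rw [e1, mul_smul, ← smul_add, norm_smul, norm_smul, norm_mul, hti]
      have e2 : (t⁻¹ * ‖x + a • z (φ k)‖) ^ 4 - (t⁻¹ * ‖x‖) ^ 4 -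
          (t⁻¹ * ‖a‖) ^ 4 * ‖z (φ k)‖ ^ 4 =
          (t⁻¹) ^ 4 * (‖x + a • z (φ k)‖ ^ 4 - ‖x‖ ^ 4 - ‖a‖ ^ 4 * ‖z (φ k)‖ ^ 4) := by ring
      rw [e2, abs_mul, abs_of_nonneg (by positivity : (0 : ℝ) ≤ (t⁻¹) ^ 4)]
      have h4 : t ^ 4 ≤ ‖x‖ ^ 4 + ‖a‖ ^ 4 := by
        rcases le_total ‖x‖ ‖a‖ with h | h
        · have : t = ‖a‖ := max_eq_right h
          rw [this]
          have : 0 ≤ ‖x‖ ^ 4 := by positivity
          linarith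
        · have : t = ‖x‖ := max_eq_left h
          rw [this]
          have : 0 ≤ ‖a‖ ^ 4 := by positivity
          linarith
      have h5 : ε * t ^ 4 < |‖x + a • z (φ k)‖ ^ 4 - ‖x‖ ^ 4 - ‖a‖ ^ 4 * ‖z (φ k)‖ ^ 4| :=
        lt_of_le_of_lt (mul_le_mul_of_nonneg_left h4 hε.le) hxa
      have h6 : (0 : ℝ) < (t⁻¹) ^ 4 := by positivity
      calc ε = (t⁻¹) ^ 4 * (ε * t ^ 4) := by
            field_simp
        _ < _ := mul_lt_mul_of_pos_left h5 h6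
  choose x a hxa1 hxa2 using hnorm
  have hproper : ProperSpace F := FiniteDimensional.proper_rclike 𝕜 F
  have hcomp : IsCompact (Metric.closedBall (0 : F × 𝕜) 1) := isCompact_closedBall _ _
  obtain ⟨p, -, ψ, hψ, hlim⟩ := hcomp.tendsto_subseq (x := fun k => (x k, a k))
    (fun k => by rw [mem_closedBall_zero_iff]; exact hxa1 k)
  have hx : Tendsto (fun k => ((x (ψ k) : F) : L4 𝕜 ι)) atTop (𝓝 ((p.1 : F) : L4 𝕜 ι)) := by
    have h1 : Tendsto (fun k => x (ψ k)) atTop (𝓝 p.1) := (continuous_fst.tendsto p).comp hlim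
    exact (continuous_subtype_val.tendsto p.1).comp h1
  have ha : Tendsto (fun k => a (ψ k)) atTop (𝓝 p.2) := (continuous_snd.tendsto p).comp hlim
  have hx1 : ∀ k, ‖((x (ψ k) : F) : L4 𝕜 ι)‖ ≤ 1 := fun k =>
    (le_max_left _ _).trans (hxa1 (ψ k))
  have ha1 : ∀ k, ‖a (ψ k)‖ ≤ 1 := fun k => (le_max_right _ _).trans (hxa1 (ψ k))
  have hmain := SA_lim (fun k => z (φ (ψ k))) C (fun k => hC _)
    (hz.comp (hφ.comp hψ)) (fun k => ((x (ψ k) : F) : L4 𝕜 ι)) _ (fun k => a (ψ k)) _ hx ha hx1 ha1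
  have habs := hmain.abs
  rw [abs_zero] at habs
  have hev := habs.eventually (gt_mem_nhds hε)
  obtain ⟨k, hk⟩ := hev.exists
  exact absurd (hxa2 (ψ k)) (not_lt.2 hk.le)

end Pool.H30.DV
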