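import Pool.Agent.H30.DV.SA

/-!
# [H30 DV SB] Gliding hump: subsequences equivalent to the basis of `ℓ_4`

`z n`, `w n` in `ℓ_4` coordinatewise null, `‖z n‖ ≤ C`, `δ ≤ ‖w n‖ ≤ C`, `δ > 0`. There is a strictly
increasing `φ` such that for every `m` and all scalars `a`
`‖∑_{i<m} a i z (φ i)‖⁴ ≤ 2 (C⁴+1) ∑_{i<m} |a i|⁴` and
`(δ⁴/2) ∑_{i<m} |a i|⁴ ≤ ‖∑_{i<m} a i w (φ i)‖⁴`.

PROOF.  Put `U m = (2 - 2⁻ᵐ)(C⁴+1)`, `L m = (1/2 + 2^{-(m+1)}) δ⁴`. Construct `φ` inductively such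
that for every `m` and all `a : ℕ → 𝕜`
`‖∑_{i<m} a i z (φ i)‖⁴ ≤ U m ∑_{i<m} |a i|⁴` and `L m ∑_{i<m}|a i|⁴ ≤ ‖∑_{i<m} a i w (φ i)‖⁴`.
`m = 0`: trivial (both sides `0`). Step: let `F`, `G` be the spans of `z (φ i)`, resp. `w (φ i)`,
`i < m` (finite dimensional, `FiniteDimensional.span_of_finite`), `ε = min(2^{-(m+2)}, δ⁴/4)`
(`ε ≤ 1`); by `BL_uniform` for all large `n`, for `x ∈ F`, `y ∈ G` and `b : 𝕜`
`‖x + b z n‖⁴ ≤ (1+ε)‖x‖⁴ + (C⁴+ε)|b|⁴` and `‖y + b w n‖⁴ ≥ (1-ε)‖y‖⁴ + (δ⁴-ε)|b|⁴`.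
Take such an `n > φ (m-1)` as `φ m`. Then `(1+ε) U m ≤ U (m+1)` since
`U (m+1) - U m = 2^{-(m+1)}(C⁴+1)` and `U m ≤ 2(C⁴+1)`; `C⁴ + ε ≤ C⁴+1 ≤ U (m+1)`;
`(1-ε) L m ≥ L (m+1)` since `L m - L (m+1) = 2^{-(m+2)} δ⁴` and `L m ≤ δ⁴`;
`δ⁴ - ε ≥ (3/4) δ⁴ ≥ L (m+1)`. Finally `U m ≤ 2(C⁴+1)` and `L m ≥ δ⁴/2`.
(Convenient: choose `φ` by `exists_seq_of_forall_finset_exists` or by strong recursion on the
statement `∃ (s : list/function on Fin m)`; another way: define the property of a finite strictly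
increasing tuple and extend it step by step.)
-/

namespace Pool.H30.DV

open Filter Topology

variable {𝕜 : Type} [RCLike 𝕜] {ι : Type}

/-- The estimates for the first `m` terms of the subsequence. -/
def SB_P (z w : ℕ → L4 𝕜 ι) (C δ : ℝ) (m : ℕ) (φ : ℕ → ℕ) : Prop :=
  ∀ a : ℕ → 𝕜,
    ‖∑ i ∈ Finset.range m, a i • z (φ i)‖ ^ 4 ≤
        (2 - (1 / 2) ^ m) * (C ^ 4 + 1) * ∑ i ∈ Finset.range m, ‖a i‖ ^ 4 ∧
    ((1 / 2 + (1 / 2) ^ (m + 1)) * δ ^ 4) * ∑ i ∈ Finset.range m, ‖a i‖ ^ 4 ≤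
        ‖∑ i ∈ Finset.range m, a i • w (φ i)‖ ^ 4

theorem SB_sum_mem (z : ℕ → L4 𝕜 ι) (m : ℕ) (φ : ℕ → ℕ) (a : ℕ → 𝕜) :
    ∑ i ∈ Finset.range m, a i • z (φ i) ∈
      Submodule.span 𝕜 ((fun i => z (φ i)) '' (Finset.range m : Set ℕ)) := by
  refine Submodule.sum_mem _ (fun i hi => Submodule.smul_mem _ _ (Submodule.subset_span ?_))
  exact ⟨i, hi, rfl⟩

theorem SB_step (z w : ℕ → L4 𝕜 ι) (C δ : ℝ) (hδ : 0 < δ) (hC : ∀ n, ‖z n‖ ≤ C) (hz : CN z)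
    (hCw : ∀ n, ‖w n‖ ≤ C) (hw : CN w) (hwδ : ∀ n, δ ≤ ‖w n‖) (m : ℕ) (φ : ℕ → ℕ)
    (h : SB_P z w C δ m φ) :
    ∀ᶠ n in atTop, ∀ ψ : ℕ → ℕ, (∀ i < m, ψ i = φ i) → ψ m = n → SB_P z w C δ (m + 1) ψ := by
  have hC0 : 0 ≤ C := le_trans (norm_nonneg _) (hC 0)
  have hfz : FiniteDimensional 𝕜
      (Submodule.span 𝕜 ((fun i => z (φ i)) '' (Finset.range m : Set ℕ))) :=
    FiniteDimensional.span_of_finite 𝕜 ((Finset.finite_toSet _).image _)
  have hfw : FiniteDimensional 𝕜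
      (Submodule.span 𝕜 ((fun i => w (φ i)) '' (Finset.range m : Set ℕ))) :=
    FiniteDimensional.span_of_finite 𝕜 ((Finset.finite_toSet _).image _)
  set q : ℝ := (1 / 2) ^ m with hq
  have hq0 : 0 < q := by positivity
  have hq1 : q ≤ 1 := pow_le_one₀ (by norm_num) (by norm_num)
  have hδ4 : 0 < δ ^ 4 := by positivity
  set ε : ℝ := min (q / 4) (δ ^ 4 / 4) with hεd
  have hε0 : 0 < ε := lt_min (by positivity) (by positivity)
  have hεq : ε ≤ q / 4 := min_le_left _ _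
  have hεδ : ε ≤ δ ^ 4 / 4 := min_le_right _ _
  filter_upwards [BL_uniform
      (Submodule.span 𝕜 ((fun i => z (φ i)) '' (Finset.range m : Set ℕ))) z C hC hz ε hε0,
    BL_uniform
      (Submodule.span 𝕜 ((fun i => w (φ i)) '' (Finset.range m : Set ℕ))) w C hCw hw ε hε0]
    with n hn1 hn2
  intro ψ hψ hψm a
  have ez : ∑ i ∈ Finset.range (m + 1), a i • z (ψ i) =
      ∑ i ∈ Finset.range m, a i • z (φ i) + a m • z n := by
    rw [Finset.sum_range_succ, hψm]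
    congr 1
    exact Finset.sum_congr rfl (fun i hi => by rw [hψ i (Finset.mem_range.1 hi)])
  have ew : ∑ i ∈ Finset.range (m + 1), a i • w (ψ i) =
      ∑ i ∈ Finset.range m, a i • w (φ i) + a m • w n := by
    rw [Finset.sum_range_succ, hψm]
    congr 1
    exact Finset.sum_congr rfl (fun i hi => by rw [hψ i (Finset.mem_range.1 hi)])
  have h1 := hn1 _ (SB_sum_mem z m φ a) (a m)
  have h2 := hn2 _ (SB_sum_mem w m φ a) (a m)
  obtain ⟨hu, hl⟩ := h a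
  rw [ez, ew, Finset.sum_range_succ]
  have eq1 : ((1 : ℝ) / 2) ^ (m + 1) = q / 2 := by rw [hq, pow_succ]; ring
  have eq2 : ((1 : ℝ) / 2) ^ (m + 1 + 1) = q / 4 := by rw [hq, pow_succ, pow_succ]; ring
  rw [eq1] at hl
  rw [eq1, eq2]
  rw [← hq] at hu
  set S : ℝ := ∑ i ∈ Finset.range m, ‖a i‖ ^ 4 with hS
  have hS0 : 0 ≤ S := Finset.sum_nonneg (fun i _ => by positivity)
  set X : ℝ := ‖∑ i ∈ Finset.range m, a i • z (φ i)‖ ^ 4 with hX
  set Y : ℝ := ‖∑ i ∈ Finset.range m, a i • w (φ i)‖ ^ 4 with hY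
  set B : ℝ := ‖a m‖ ^ 4 with hB
  have hX0 : 0 ≤ X := pow_nonneg (norm_nonneg _) 4
  have hY0 : 0 ≤ Y := pow_nonneg (norm_nonneg _) 4
  have hB0 : 0 ≤ B := pow_nonneg (norm_nonneg _) 4
  have hzn : ‖z n‖ ^ 4 ≤ C ^ 4 := pow_le_pow_left₀ (norm_nonneg _) (hC n) 4
  have hwn : δ ^ 4 ≤ ‖w n‖ ^ 4 := pow_le_pow_left₀ hδ.le (hwδ n) 4
  have hC4 : 0 ≤ C ^ 4 := by positivity
  have hK : 1 ≤ C ^ 4 + 1 := by linarith
  constructor
  · have t1 := (abs_le.1 h1).2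
    have t2 : ‖∑ i ∈ Finset.range m, a i • z (φ i) + a m • z n‖ ^ 4 ≤
        (1 + ε) * X + (C ^ 4 + ε) * B := by
      have : B * ‖z n‖ ^ 4 ≤ B * C ^ 4 := mul_le_mul_of_nonneg_left hzn hB0
      linarith
    refine t2.trans ?_
    have t3 : (1 + ε) * X ≤ (2 - q / 2) * (C ^ 4 + 1) * S := by
      calc (1 + ε) * X ≤ (1 + ε) * ((2 - q) * (C ^ 4 + 1) * S) :=
            mul_le_mul_of_nonneg_left hu (by linarith)
        _ = ((1 + ε) * (2 - q)) * ((C ^ 4 + 1) * S) := by ring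
        _ ≤ (2 - q / 2) * ((C ^ 4 + 1) * S) := by
            refine mul_le_mul_of_nonneg_right ?_ (mul_nonneg (by linarith) hS0)
            have p1 : 0 ≤ ε * q := mul_nonneg hε0.le hq0.le
            linarith
        _ = (2 - q / 2) * (C ^ 4 + 1) * S := by ring
    have t4 : (C ^ 4 + ε) * B ≤ (2 - q / 2) * (C ^ 4 + 1) * B := by
      refine mul_le_mul_of_nonneg_right ?_ hB0
      have p1 : 0 ≤ (1 - q) * (C ^ 4 + 1) := mul_nonneg (by linarith) (by linarith)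
      linarith
    calc (1 + ε) * X + (C ^ 4 + ε) * B ≤
        (2 - q / 2) * (C ^ 4 + 1) * S + (2 - q / 2) * (C ^ 4 + 1) * B := add_le_add t3 t4
      _ = (2 - q / 2) * (C ^ 4 + 1) * (S + B) := by ring
  · have t1 := (abs_le.1 h2).1
    have t2 : (1 - ε) * Y + (δ ^ 4 - ε) * B ≤
        ‖∑ i ∈ Finset.range m, a i • w (φ i) + a m • w n‖ ^ 4 := by
      have : B * δ ^ 4 ≤ B * ‖w n‖ ^ 4 := mul_le_mul_of_nonneg_left hwn hB0
      linarith
    refine le_trans ?_ t2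
    have t3 : (1 / 2 + q / 4) * δ ^ 4 * S ≤ (1 - ε) * Y := by
      calc (1 / 2 + q / 4) * δ ^ 4 * S = (1 / 2 + q / 4) * (δ ^ 4 * S) := by ring
        _ ≤ ((1 - ε) * (1 / 2 + q / 2)) * (δ ^ 4 * S) := by
            refine mul_le_mul_of_nonneg_right ?_ (mul_nonneg hδ4.le hS0)
            have p1 : 0 ≤ ε * (1 - q) := mul_nonneg hε0.le (by linarith)
            linarith
        _ = (1 - ε) * ((1 / 2 + q / 2) * δ ^ 4 * S) := by ring
        _ ≤ (1 - ε) * Y := mul_le_mul_of_nonneg_left hl (by linarith)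
    have t4 : (1 / 2 + q / 4) * δ ^ 4 * B ≤ (δ ^ 4 - ε) * B := by
      refine mul_le_mul_of_nonneg_right ?_ hB0
      have p1 : 0 ≤ (1 - q) * δ ^ 4 := mul_nonneg (by linarith) hδ4.le
      linarith
    calc (1 / 2 + q / 4) * δ ^ 4 * (S + B) =
        (1 / 2 + q / 4) * δ ^ 4 * S + (1 / 2 + q / 4) * δ ^ 4 * B := by ring
      _ ≤ (1 - ε) * Y + (δ ^ 4 - ε) * B := add_le_add t3 t4

theorem gliding (z w : ℕ → L4 𝕜 ι) (C δ : ℝ) (hδ : 0 < δ) (hC : ∀ n, ‖z n‖ ≤ C) (hz : CN z)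
    (hCw : ∀ n, ‖w n‖ ≤ C) (hw : CN w) (hwδ : ∀ n, δ ≤ ‖w n‖) :
    ∃ φ : ℕ → ℕ, StrictMono φ ∧ ∀ (m : ℕ) (a : ℕ → 𝕜),
      ‖∑ i ∈ Finset.range m, a i • z (φ i)‖ ^ 4 ≤
          2 * (C ^ 4 + 1) * ∑ i ∈ Finset.range m, ‖a i‖ ^ 4 ∧
      (δ ^ 4 / 2) * ∑ i ∈ Finset.range m, ‖a i‖ ^ 4 ≤
          ‖∑ i ∈ Finset.range m, a i • w (φ i)‖ ^ 4 := by
  have hnext : ∀ (m : ℕ) (φ : ℕ → ℕ), ∃ n : ℕ, (∀ i < m, φ i < n) ∧
      (SB_P z w C δ m φ → ∀ ψ : ℕ → ℕ, (∀ i < m, ψ i = φ i) → ψ m = n →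
        SB_P z w C δ (m + 1) ψ) := by
    intro m φ
    have h1 : ∀ᶠ n in atTop, ∀ i < m, φ i < n := by
      filter_upwards [eventually_gt_atTop ((Finset.range m).sup φ)] with n hn
      intro i hi
      exact lt_of_le_of_lt (Finset.le_sup (Finset.mem_range.2 hi)) hn
    by_cases hP : SB_P z w C δ m φ
    · obtain ⟨n, hn⟩ := (h1.and (SB_step z w C δ hδ hC hz hCw hw hwδ m φ hP)).exists
      exact ⟨n, hn.1, fun _ => hn.2⟩
    · obtain ⟨n, hn⟩ := h1.exists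
      exact ⟨n, hn, fun h => absurd h hP⟩
  choose next hnext1 hnext2 using hnext
  let st : ℕ → ℕ → ℕ := fun m => Nat.rec (fun _ => 0)
    (fun m f => Function.update f m (next m f)) m
  have hst : ∀ m, st (m + 1) = Function.update (st m) m (next m (st m)) := fun m => rfl
  let φ : ℕ → ℕ := fun m => next m (st m)
  have hφm : ∀ m, st (m + 1) m = φ m := by
    intro m
    rw [hst, Function.update_self]
  have hcoh : ∀ m, ∀ i < m, st m i = φ i := by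
    intro m
    induction m with
    | zero => intro i hi; exact absurd hi (Nat.not_lt_zero _)
    | succ m ih =>
      intro i hi
      rcases Nat.lt_succ_iff_lt_or_eq.1 hi with h | h
      · rw [hst, Function.update_of_ne h.ne]
        exact ih i h
      · subst h
        exact hφm i
  have hP : ∀ m, SB_P z w C δ m (st m) := by
    intro m
    induction m with
    | zero => intro a; simp
    | succ m ih =>
      refine hnext2 m (st m) ih (st (m + 1)) (fun i hi => ?_) (hφm m)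
      rw [hst, Function.update_of_ne hi.ne]
  have hmono : StrictMono φ := by
    refine strictMono_nat_of_lt_succ (fun m => ?_)
    have := hnext1 (m + 1) (st (m + 1)) m (Nat.lt_succ_self m)
    rw [hφm] at this
    exact this
  refine ⟨φ, hmono, fun m a => ?_⟩
  have h := hP m a
  have ez : ∑ i ∈ Finset.range m, a i • z (st m i) = ∑ i ∈ Finset.range m, a i • z (φ i) :=
    Finset.sum_congr rfl (fun i hi => by rw [hcoh m i (Finset.mem_range.1 hi)])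
  have ew : ∑ i ∈ Finset.range m, a i • w (st m i) = ∑ i ∈ Finset.range m, a i • w (φ i) :=
    Finset.sum_congr rfl (fun i hi => by rw [hcoh m i (Finset.mem_range.1 hi)])
  rw [ez, ew] at h
  have hS0 : 0 ≤ ∑ i ∈ Finset.range m, ‖a i‖ ^ 4 := Finset.sum_nonneg (fun i _ => by positivity)
  have hq0 : (0 : ℝ) < (1 / 2) ^ m := by positivity
  have hq1 : (0 : ℝ) < (1 / 2) ^ (m + 1) := by positivity
  have hC4 : 0 ≤ C ^ 4 := by
    have : 0 ≤ C := le_trans (norm_nonneg _) (hC 0)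
    positivity
  constructor
  · refine h.1.trans ?_
    refine mul_le_mul_of_nonneg_right ?_ hS0
    refine mul_le_mul_of_nonneg_right ?_ (by linarith)
    linarith
  · refine le_trans ?_ h.2
    refine mul_le_mul_of_nonneg_right ?_ hS0
    have hδ4 : 0 < δ ^ 4 := by positivity
    have p1 : 0 ≤ (1 / 2) ^ (m + 1) * δ ^ 4 := mul_nonneg hq1.le hδ4.le
    linarith

end Pool.H30.DV
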