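import Pool.Agent.H30.DV.SB
import Pool.Agent.H30.DV.WN

/-!
# [H30 DV SC] Strictly singular operators kill coordinatewise null sequences

`X` a subspace of `ℓ_4`, `S : X → X` strictly singular, `z n ∈ X` bounded and coordinatewise null.
Then `‖S (z n)‖ → 0`.

PROOF.  Suppose not: `δ > 0` and a strictly increasing `ψ` with `‖S (z (ψ n))‖ ≥ δ`. Replace `z` by
`z ∘ ψ`. The sequence `w n = S (z n)` is bounded by `‖S‖ C` and coordinatewise null (`CN_map`).
Apply `gliding` with the bound `max C (‖S‖ C)`, call it `C'`, to `z` and `w`: get `φ`. Let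
`M = span {z (φ i)}` in `X`. An element of `M` has the form `x = ∑_{i<m} a i z (φ i)`
(`Submodule.mem_span_range_iff_exists_finsupp` / `Finsupp`), and `S x = ∑ a i w (φ i)`, so
`‖S x‖⁴ ≥ (δ⁴/2) ∑|a i|⁴ ≥ (δ⁴/(4(C'⁴+1))) ‖x‖⁴`, so with `c = (δ⁴/(4(C'⁴+1)))^{1/4} > 0` one has
`‖S x‖ ≥ c ‖x‖` for all `x ∈ M`. `M` is infinite dimensional: the vectors `z (φ i)` are linearly
independent: if `∑_{i<m} a i z (φ i) = 0` then `∑ a i w (φ i) = 0` and the lower estimate gives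
`a i = 0` (`i < m`) (`linearIndependent_iff'`; then a linearly independent family indexed by `ℕ`
excludes finite dimension of `M`, e.g. `LinearIndependent.finite`/ `Module.Finite`
`not_finite`). This contradicts strict singularity.
-/

namespace Pool.H30.DV

open Filter Topology

variable {𝕜 : Type} [RCLike 𝕜] {ι : Type}

private theorem coe_sum_smul (X : Submodule 𝕜 (L4 𝕜 ι)) (m : ℕ) (a : ℕ → 𝕜) (v : ℕ → X) :
    ((∑ i ∈ Finset.range m, a i • v i : X) : L4 𝕜 ι) =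
      ∑ i ∈ Finset.range m, a i • (v i : L4 𝕜 ι) := by
  simp only [Submodule.coe_sum, Submodule.coe_smul]

theorem ss_null (X : Submodule 𝕜 (L4 𝕜 ι)) (S : X →L[𝕜] X) (hS : StrictlySingular S)
    (z : ℕ → X) (C : ℝ) (hC : ∀ n, ‖z n‖ ≤ C) (hz : CN (fun n => (z n : L4 𝕜 ι))) :
    Tendsto (fun n => ‖S (z n)‖) atTop (𝓝 0) := by
  by_contra hcon
  rw [Metric.tendsto_atTop] at hcon
  push Not at hcon
  obtain ⟨δ, hδ, hfr⟩ := hcon
  have hfr' : ∃ᶠ n in atTop, δ ≤ ‖S (z n)‖ := by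
    rw [Filter.frequently_atTop]
    intro N
    obtain ⟨n, hn, hn'⟩ := hfr N
    refine ⟨n, hn, ?_⟩
    rw [Real.dist_eq, sub_zero, abs_of_nonneg (norm_nonneg _)] at hn'
    exact hn'
  obtain ⟨ψ, hψ, hψδ⟩ := Filter.extraction_of_frequently_atTop hfr'
  have hC0 : 0 ≤ C := (norm_nonneg _).trans (hC 0)
  set C' : ℝ := max C (‖S‖ * C) with hC'
  have hC'0 : 0 ≤ C' := hC0.trans (le_max_left _ _)
  have hz' : CN (fun n => (z (ψ n) : L4 𝕜 ι)) := hz.comp hψ
  have hw' : CN (fun n => (S (z (ψ n)) : L4 𝕜 ι)) :=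
    CN_map X S (fun n => z (ψ n)) C (fun n => hC _) hz'
  obtain ⟨φ, hφ, hg⟩ := gliding (fun n => (z (ψ n) : L4 𝕜 ι)) (fun n => (S (z (ψ n)) : L4 𝕜 ι))
    C' δ hδ (fun n => (hC _).trans (le_max_left _ _)) hz'
    (fun n => ((S.le_opNorm _).trans (mul_le_mul_of_nonneg_left (hC _) (norm_nonneg S))).trans
      (le_max_right _ _)) hw' (fun n => hψδ n)
  have hsum : ∀ (m : ℕ) (a : ℕ → 𝕜),
      (δ ^ 4 / 2) * ∑ i ∈ Finset.range m, ‖a i‖ ^ 4 ≤
        ‖S (∑ i ∈ Finset.range m, a i • z (ψ (φ i)))‖ ^ 4 := by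
    intro m a
    have h1 := (hg m a).2
    have h2 : (S (∑ i ∈ Finset.range m, a i • z (ψ (φ i))) : L4 𝕜 ι) =
        ∑ i ∈ Finset.range m, a i • (S (z (ψ (φ i))) : L4 𝕜 ι) := by
      rw [map_sum]
      rw [Finset.sum_congr rfl (fun i _ => map_smul S (a i) (z (ψ (φ i))))]
      exact coe_sum_smul X m a (fun i => S (z (ψ (φ i))))
    have h3 : ‖S (∑ i ∈ Finset.range m, a i • z (ψ (φ i)))‖ =
        ‖∑ i ∈ Finset.range m, a i • (S (z (ψ (φ i))) : L4 𝕜 ι)‖ := by
      rw [← h2]; rfl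
    rw [h3]
    exact h1
  have hup : ∀ (m : ℕ) (a : ℕ → 𝕜),
      ‖∑ i ∈ Finset.range m, a i • z (ψ (φ i))‖ ^ 4 ≤
        2 * (C' ^ 4 + 1) * ∑ i ∈ Finset.range m, ‖a i‖ ^ 4 := by
    intro m a
    have h1 := (hg m a).1
    have h3 : ‖∑ i ∈ Finset.range m, a i • z (ψ (φ i))‖ =
        ‖∑ i ∈ Finset.range m, a i • (z (ψ (φ i)) : L4 𝕜 ι)‖ := by
      rw [← coe_sum_smul X m a (fun i => z (ψ (φ i)))]; rfl
    rw [h3]
    exact h1
  -- the vectors are linearly independent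
  have hli : LinearIndependent 𝕜 (fun i => z (ψ (φ i))) := by
    classical
    rw [linearIndependent_iff']
    intro s g hs i hi
    set m : ℕ := s.sup id + 1 with hm
    have hsm : s ⊆ Finset.range m := by
      intro j hj
      rw [Finset.mem_range, hm]
      exact Nat.lt_succ_of_le (Finset.le_sup (f := id) hj)
    have h0 : ∑ j ∈ Finset.range m, (if j ∈ s then g j else 0) • z (ψ (φ j)) = 0 := by
      rw [← hs]
      rw [← Finset.sum_subset hsm]
      · exact Finset.sum_congr rfl (fun j hj => by rw [if_pos hj])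
      · intro j _ hj
        rw [if_neg hj, zero_smul]
    have h1 := hsum m (fun j => if j ∈ s then g j else 0)
    rw [h0, map_zero, norm_zero, zero_pow (by norm_num)] at h1
    have h2 : ∑ j ∈ Finset.range m, ‖(if j ∈ s then g j else 0)‖ ^ 4 ≤ 0 := by
      have : (0 : ℝ) < δ ^ 4 / 2 := by positivity
      by_contra hc
      push Not at hc
      have := mul_pos this hc
      exact absurd h1 (not_le.mpr this)
    have h3 : ‖(if i ∈ s then g i else 0)‖ ^ 4 ≤ 0 :=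
      (Finset.single_le_sum (f := fun j => ‖(if j ∈ s then g j else 0)‖ ^ 4)
        (fun j _ => by positivity) (hsm hi)).trans h2
    rw [if_pos hi] at h3
    have h4 : ‖g i‖ ^ 4 = 0 := le_antisymm h3 (by positivity)
    have h5 : ‖g i‖ = 0 := by
      rcases (pow_eq_zero_iff (n := 4) (by norm_num)).mp h4 with h
      exact h
    exact norm_eq_zero.mp h5
  set M : Submodule 𝕜 X := Submodule.span 𝕜 (Set.range (fun i => z (ψ (φ i)))) with hM
  have hinf : ¬ FiniteDimensional 𝕜 M := by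
    intro hfd
    have h1 := linearIndependent_span hli
    exact Module.Finite.not_linearIndependent_of_infinite _ h1
  set κ : ℝ := δ ^ 4 / (4 * (C' ^ 4 + 1)) with hκ
  have hκ0 : 0 < κ := by positivity
  set c : ℝ := Real.sqrt (Real.sqrt κ) with hc
  have hc0 : 0 < c := Real.sqrt_pos.mpr (Real.sqrt_pos.mpr hκ0)
  have hc4 : c ^ 4 = κ := by
    have h1 := Real.sq_sqrt (Real.sqrt_nonneg κ)
    have h2 := Real.sq_sqrt hκ0.le
    calc c ^ 4 = (c ^ 2) ^ 2 := by ring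
      _ = κ := by rw [hc, h1, h2]
  obtain ⟨x, hxM, hx0, hlt⟩ := hS M hinf c hc0
  rw [hM, Finsupp.mem_span_range_iff_exists_finsupp] at hxM
  obtain ⟨a, ha⟩ := hxM
  set m : ℕ := a.support.sup id + 1 with hm
  have hsm : a.support ⊆ Finset.range m := by
    intro j hj
    rw [Finset.mem_range, hm]
    exact Nat.lt_succ_of_le (Finset.le_sup (f := id) hj)
  have hx : x = ∑ j ∈ Finset.range m, a j • z (ψ (φ j)) := by
    rw [← ha, Finsupp.sum]
    refine Finset.sum_subset hsm ?_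
    intro j _ hj
    rw [Finsupp.notMem_support_iff.mp hj, zero_smul]
  have h1 := hsum m a
  have h2 := hup m a
  rw [← hx] at h1 h2
  have h3 : (c * ‖x‖) ^ 4 ≤ ‖S x‖ ^ 4 := by
    rw [mul_pow, hc4, hκ]
    set A : ℝ := ∑ j ∈ Finset.range m, ‖a j‖ ^ 4
    have hA : 0 ≤ A := Finset.sum_nonneg (fun j _ => by positivity)
    have hD : (0 : ℝ) < 4 * (C' ^ 4 + 1) := by positivity
    calc δ ^ 4 / (4 * (C' ^ 4 + 1)) * ‖x‖ ^ 4
        ≤ δ ^ 4 / (4 * (C' ^ 4 + 1)) * (2 * (C' ^ 4 + 1) * A) :=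
          mul_le_mul_of_nonneg_left h2 (by positivity)
      _ = (δ ^ 4 / 2) * A := by field_simp; ring
      _ ≤ ‖S x‖ ^ 4 := h1
  have h4 : c * ‖x‖ ≤ ‖S x‖ := le_of_pow_le_pow_left₀ (n := 4) (by norm_num) (norm_nonneg _) h3
  exact absurd hlt (not_lt.mpr h4)

end Pool.H30.DV
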