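import Pool.Agent.H30.DV.Vec

/-!
# [H30 DV VA] Coordinates and norm of the vectors `v k j`

PROOF.  `lp.single` at `i` has value at `i'` equal to the given scalar if `i' = i` and `0` otherwise
(`lp.single_apply`, `lp.single_apply_self`, `lp.single_apply_ne`); evaluation of a finite sum in
`lp` is the sum of the evaluations (`lp.coeFn_sum`, `Finset.sum_apply`). `⟨k,g⟩ = ⟨l,h⟩` in `J` iff
`k = l` and the second components agree (`Sigma.mk.inj_iff`, for equal first components `HEq` is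
equality). Norm: by `norm_pow_four`, `‖v‖⁴ = ∑' i, ‖v i‖⁴`, where all coordinates have absolute value
`≤ 1` and vanish outside the blocks `k`, `k+1`, which have `2^(k+2) + 2^(k+3) ≤ 2^(k+4)` elements
(`tsum_eq_sum` over the finset `univ.map (Sigma.mk k) ∪ univ.map (Sigma.mk (k+1))`).
-/

namespace Pool.H30.DV

variable (𝕜 : Type) [RCLike 𝕜] (d : DD)

private theorem sum_single_at (l : ℕ) (c : Fin (2 ^ (l + 2)) → 𝕜) (g : Fin (2 ^ (l + 2))) :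
    (∑ h : Fin (2 ^ (l + 2)), lp.single (E := fun _ : J => 𝕜) 4 (⟨l, h⟩ : J) (c h)) ⟨l, g⟩ =
      c g := by
  rw [lp.coeFn_sum, Finset.sum_apply, Finset.sum_eq_single g]
  · exact lp.single_apply_self _ _ _
  · intro h _ hne
    exact lp.single_apply_ne _ _ _ (by
      intro h'
      have := (Sigma.mk.inj_iff.mp h').2
      exact hne (eq_of_heq this).symm)
  · intro h
    exact absurd (Finset.mem_univ _) h

private theorem sum_single_ne (l : ℕ) (c : Fin (2 ^ (l + 2)) → 𝕜) (m : ℕ) (hm : m ≠ l)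
    (g : Fin (2 ^ (m + 2))) :
    (∑ h : Fin (2 ^ (l + 2)), lp.single (E := fun _ : J => 𝕜) 4 (⟨l, h⟩ : J) (c h)) ⟨m, g⟩ =
      0 := by
  rw [lp.coeFn_sum, Finset.sum_apply]
  refine Finset.sum_eq_zero (fun h _ => ?_)
  exact lp.single_apply_ne _ _ _ (by
    intro h'
    exact hm (Sigma.mk.inj_iff.mp h').1)

theorem v_at (k : ℕ) (j : Fin (2 ^ (k + 1))) (g : Fin (2 ^ (k + 2))) :
    v 𝕜 d k j ⟨k, g⟩ = ((d.τ k j g : ℝ) : 𝕜) := by
  rw [v, lp.coeFn_add, Pi.add_apply, sum_single_at 𝕜 k (fun h => ((d.τ k j h : ℝ) : 𝕜)) g,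
    sum_single_ne 𝕜 (k + 1) (fun h => ((d.σ (k + 1) j h : ℝ) : 𝕜)) k (by omega) g, add_zero]

theorem v_at_succ (k : ℕ) (j : Fin (2 ^ (k + 1))) (g : Fin (2 ^ (k + 1 + 2))) :
    v 𝕜 d k j ⟨k + 1, g⟩ = ((d.σ (k + 1) j g : ℝ) : 𝕜) := by
  rw [v, lp.coeFn_add, Pi.add_apply,
    sum_single_ne 𝕜 k (fun h => ((d.τ k j h : ℝ) : 𝕜)) (k + 1) (by omega) g,
    sum_single_at 𝕜 (k + 1) (fun h => ((d.σ (k + 1) j h : ℝ) : 𝕜)) g, zero_add]

theorem v_at_other (k : ℕ) (j : Fin (2 ^ (k + 1))) (l : ℕ) (h1 : l ≠ k) (h2 : l ≠ k + 1)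
    (g : Fin (2 ^ (l + 2))) : v 𝕜 d k j ⟨l, g⟩ = 0 := by
  rw [v, lp.coeFn_add, Pi.add_apply,
    sum_single_ne 𝕜 k (fun h => ((d.τ k j h : ℝ) : 𝕜)) l h1 g,
    sum_single_ne 𝕜 (k + 1) (fun h => ((d.σ (k + 1) j h : ℝ) : 𝕜)) l h2 g, zero_add]

theorem v_norm (k : ℕ) (j : Fin (2 ^ (k + 1))) : ‖v 𝕜 d k j‖ ^ 4 ≤ 2 ^ (k + 4) := by
  classical
  rw [norm_pow_four]
  let F : Finset J := (Finset.univ : Finset (Fin (2 ^ (k + 2)))).map
      ⟨fun g => (⟨k, g⟩ : J), fun a b h => eq_of_heq (Sigma.mk.inj_iff.mp h).2⟩ ∪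
    (Finset.univ : Finset (Fin (2 ^ (k + 1 + 2)))).map
      ⟨fun g => (⟨k + 1, g⟩ : J), fun a b h => eq_of_heq (Sigma.mk.inj_iff.mp h).2⟩
  have hF : ∀ i ∉ F, ‖v 𝕜 d k j i‖ ^ 4 = 0 := by
    rintro ⟨l, g⟩ hi
    have h1 : l ≠ k := by
      rintro rfl
      exact hi (Finset.mem_union_left _ (Finset.mem_map.mpr ⟨g, Finset.mem_univ _, rfl⟩))
    have h2 : l ≠ k + 1 := by
      rintro rfl
      exact hi (Finset.mem_union_right _ (Finset.mem_map.mpr ⟨g, Finset.mem_univ _, rfl⟩))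
    rw [v_at_other 𝕜 d k j l h1 h2 g]
    simp
  rw [tsum_eq_sum hF]
  have hle : ∀ i ∈ F, ‖v 𝕜 d k j i‖ ^ 4 ≤ 1 := by
    intro i hi
    rcases Finset.mem_union.mp hi with h | h
    · obtain ⟨g, -, rfl⟩ := Finset.mem_map.mp h
      show ‖v 𝕜 d k j ⟨k, g⟩‖ ^ 4 ≤ 1
      rw [v_at]
      rcases (d.level k).τ_pm j g with h1 | h1 <;> rw [h1] <;> simp
    · obtain ⟨g, -, rfl⟩ := Finset.mem_map.mp h
      show ‖v 𝕜 d k j ⟨k + 1, g⟩‖ ^ 4 ≤ 1
      rw [v_at_succ]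
      rcases (d.level (k + 1)).σ_pm j g with h1 | h1 <;> rw [h1] <;> simp
  calc ∑ i ∈ F, ‖v 𝕜 d k j i‖ ^ 4 ≤ ∑ i ∈ F, (1 : ℝ) := Finset.sum_le_sum hle
    _ = (F.card : ℝ) := by simp
    _ ≤ ((2 ^ (k + 2) + 2 ^ (k + 1 + 2) : ℕ) : ℝ) := by
        have h1 := Finset.card_union_le ((Finset.univ : Finset (Fin (2 ^ (k + 2)))).map
          ⟨fun g => (⟨k, g⟩ : J), fun a b h => eq_of_heq (Sigma.mk.inj_iff.mp h).2⟩)
          ((Finset.univ : Finset (Fin (2 ^ (k + 1 + 2)))).map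
          ⟨fun g => (⟨k + 1, g⟩ : J), fun a b h => eq_of_heq (Sigma.mk.inj_iff.mp h).2⟩)
        rw [Finset.card_map, Finset.card_map, Finset.card_univ, Finset.card_univ,
          Fintype.card_fin, Fintype.card_fin] at h1
        exact_mod_cast h1
    _ ≤ 2 ^ (k + 4) := by
        push_cast
        have : (0 : ℝ) < 2 ^ k := by positivity
        rw [pow_add, pow_add, pow_add]
        ring_nf
        nlinarith

end Pool.H30.DV
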