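import Pool.Agent.H30.DV.VA

/-!
# [H30 DV VB] The two formulas for the coefficient functionals agree on Davie's space

PROOF.  `fa k j` and `fb k j` are linear in `f`, and `|fa k j f| ≤ ‖f‖`, `|fb k j f| ≤ ‖f‖`
(`|f i| ≤ ‖f‖`, `norm_apply_le`, and the averages of `2^(k+2)` numbers of absolute value `≤ ‖f‖`), so
they are continuous; the set `{f | fa k j f = fb k j f}` is a closed subspace (build it as the
kernel of a continuous linear map, or use `Submodule.closure_induction`/`span_induction` and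
`Submodule.topologicalClosure_minimal`). On `v l i`:
* `l = k`: `fa k j (v k i) = 2^{-(k+2)} ∑_g τ k j g τ k i g = δ_{ij}` (`v_at`, `τ_orth`) and
  `fb k j (v k i) = 2^{-(k+3)} ∑_g σ (k+1) j g σ (k+1) i g = δ_{ij}` (`v_at_succ`, `σ_orth`);
* `l + 1 = k`: `fa`: `v l i` on the block `k` is `σ k i`, orthogonal to `τ k j` (`τσ_orth`): `0`;
  `fb`: `v l i` vanishes on the block `k+1`: `0`;
* `l = k + 1`: `fa`: zero on the block `k`; `fb`: on the block `k+1` it is `τ (k+1) i`, orthogonal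
  to `σ (k+1) j`: `0`;
* otherwise both are `0`.
-/

namespace Pool.H30.DV

variable (𝕜 : Type) [RCLike 𝕜] (d : DD)

private theorem vb_two (n : ℕ) : (2 : 𝕜) ^ n ≠ 0 := pow_ne_zero _ two_ne_zero

private theorem vb_cast {n : ℕ} (x y : Fin n → ℝ) :
    ∑ g, ((x g : ℝ) : 𝕜) * ((y g : ℝ) : 𝕜) = ((∑ g, x g * y g : ℝ) : 𝕜) := by
  rw [RCLike.ofReal_sum]
  refine Finset.sum_congr rfl fun g _ => ?_
  rw [RCLike.ofReal_mul]

theorem fa_v (k : ℕ) (i j : Fin (2 ^ (k + 1))) :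
    fa 𝕜 d k j (v 𝕜 d k i) = if i = j then 1 else 0 := by
  unfold fa
  simp_rw [v_at]
  rw [vb_cast, (d.level k).τ_orth j i]
  by_cases h : i = j
  · subst h
    rw [if_pos rfl, if_pos rfl]
    push_cast
    exact inv_mul_cancel₀ (vb_two 𝕜 _)
  · rw [if_neg h, if_neg (fun h' => h h'.symm)]
    simp

private theorem fb_v (k : ℕ) (i j : Fin (2 ^ (k + 1))) :
    fb 𝕜 d k j (v 𝕜 d k i) = if i = j then 1 else 0 := by
  unfold fb
  simp_rw [v_at_succ]
  rw [vb_cast, (d.level (k + 1)).σ_orth j i]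
  by_cases h : i = j
  · subst h
    rw [if_pos rfl, if_pos rfl]
    push_cast
    exact inv_mul_cancel₀ (vb_two 𝕜 _)
  · rw [if_neg h, if_neg (fun h' => h h'.symm)]
    simp

private theorem vb_gen (k : ℕ) (j : Fin (2 ^ (k + 1))) (l : ℕ) (i : Fin (2 ^ (l + 1))) :
    fa 𝕜 d k j (v 𝕜 d l i) = fb 𝕜 d k j (v 𝕜 d l i) := by
  by_cases h1 : l = k
  · subst h1
    rw [fa_v, fb_v]
  by_cases h2 : k = l + 1
  · subst h2
    unfold fa fb
    simp_rw [v_at_succ]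
    rw [vb_cast, (d.level (l + 1)).τσ_orth j i]
    have h3 : ∀ g : Fin (2 ^ (l + 1 + 1 + 2)),
        v 𝕜 d l i ⟨l + 1 + 1, g⟩ = 0 := fun g =>
      v_at_other 𝕜 d l i (l + 1 + 1) (by omega) (by omega) g
    simp_rw [h3]
    simp
  by_cases h4 : l = k + 1
  · subst h4
    unfold fa fb
    simp_rw [v_at]
    have h3 : ∀ g : Fin (2 ^ (k + 2)), v 𝕜 d (k + 1) i ⟨k, g⟩ = 0 := fun g =>
      v_at_other 𝕜 d (k + 1) i k (by omega) (by omega) g
    simp_rw [h3]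
    rw [vb_cast]
    have h5 : ∑ g, d.σ (k + 1) j g * d.τ (k + 1) i g = 0 := by
      rw [← (d.level (k + 1)).τσ_orth i j]
      exact Finset.sum_congr rfl fun g _ => mul_comm _ _
    rw [h5]
    simp
  · unfold fa fb
    have h3 : ∀ g : Fin (2 ^ (k + 2)), v 𝕜 d l i ⟨k, g⟩ = 0 := fun g =>
      v_at_other 𝕜 d l i k (fun h => h1 h.symm) h2 g
    have h5 : ∀ g : Fin (2 ^ (k + 1 + 2)), v 𝕜 d l i ⟨k + 1, g⟩ = 0 := fun g =>
      v_at_other 𝕜 d l i (k + 1) (fun h => h4 h.symm) (by omega) g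
    simp_rw [h3, h5]
    simp

private theorem vb_ev (i : J) : Continuous (fun f : L4 𝕜 J => f i) := by
  refine LipschitzWith.continuous (K := 1) (LipschitzWith.of_dist_le_mul fun f g => ?_)
  rw [dist_eq_norm, dist_eq_norm, NNReal.coe_one, one_mul]
  exact norm_apply_le (f - g) i

private theorem vb_ca (k : ℕ) (j : Fin (2 ^ (k + 1))) : Continuous (fa 𝕜 d k j) := by
  unfold fa
  exact continuous_const.mul (continuous_finset_sum _ fun g _ =>
    continuous_const.mul (vb_ev 𝕜 _))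

private theorem vb_cb (k : ℕ) (j : Fin (2 ^ (k + 1))) : Continuous (fb 𝕜 d k j) := by
  unfold fb
  exact continuous_const.mul (continuous_finset_sum _ fun g _ =>
    continuous_const.mul (vb_ev 𝕜 _))

private theorem vb_aadd (k : ℕ) (j : Fin (2 ^ (k + 1))) (f g : L4 𝕜 J) :
    fa 𝕜 d k j (f + g) = fa 𝕜 d k j f + fa 𝕜 d k j g := by
  unfold fa
  rw [← mul_add, ← Finset.sum_add_distrib]
  congr 1
  exact Finset.sum_congr rfl fun x _ => by
    rw [lp.coeFn_add, Pi.add_apply, mul_add]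

private theorem vb_badd (k : ℕ) (j : Fin (2 ^ (k + 1))) (f g : L4 𝕜 J) :
    fb 𝕜 d k j (f + g) = fb 𝕜 d k j f + fb 𝕜 d k j g := by
  unfold fb
  rw [← mul_add, ← Finset.sum_add_distrib]
  congr 1
  exact Finset.sum_congr rfl fun x _ => by
    rw [lp.coeFn_add, Pi.add_apply, mul_add]

private theorem vb_asmul (k : ℕ) (j : Fin (2 ^ (k + 1))) (c : 𝕜) (f : L4 𝕜 J) :
    fa 𝕜 d k j (c • f) = c * fa 𝕜 d k j f := by
  unfold fa
  rw [mul_left_comm]
  congr 1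
  rw [Finset.mul_sum]
  exact Finset.sum_congr rfl fun x _ => by
    rw [lp.coeFn_smul, Pi.smul_apply, smul_eq_mul, mul_left_comm]

private theorem vb_bsmul (k : ℕ) (j : Fin (2 ^ (k + 1))) (c : 𝕜) (f : L4 𝕜 J) :
    fb 𝕜 d k j (c • f) = c * fb 𝕜 d k j f := by
  unfold fb
  rw [mul_left_comm]
  congr 1
  rw [Finset.mul_sum]
  exact Finset.sum_congr rfl fun x _ => by
    rw [lp.coeFn_smul, Pi.smul_apply, smul_eq_mul, mul_left_comm]

theorem fa_eq_fb (k : ℕ) (j : Fin (2 ^ (k + 1))) (f : L4 𝕜 J) (hf : f ∈ XD 𝕜 d) :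
    fa 𝕜 d k j f = fb 𝕜 d k j f := by
  have hcl : IsClosed {f : L4 𝕜 J | fa 𝕜 d k j f = fb 𝕜 d k j f} :=
    isClosed_eq (vb_ca 𝕜 d k j) (vb_cb 𝕜 d k j)
  have hsub : ((Submodule.span 𝕜 {f | ∃ (k : ℕ) (j : Fin (2 ^ (k + 1))), f = v 𝕜 d k j} :
      Submodule 𝕜 (L4 𝕜 J)) : Set (L4 𝕜 J)) ⊆
      {f : L4 𝕜 J | fa 𝕜 d k j f = fb 𝕜 d k j f} := by
    intro x hx
    show fa 𝕜 d k j x = fb 𝕜 d k j x
    induction hx using Submodule.span_induction with
    | mem x hx =>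
      obtain ⟨l, i, rfl⟩ := hx
      exact vb_gen 𝕜 d k j l i
    | zero =>
      have h1 := vb_asmul 𝕜 d k j 0 0
      have h2 := vb_bsmul 𝕜 d k j 0 0
      rw [zero_smul, zero_mul] at h1 h2
      rw [h1, h2]
    | add x y _ _ hx hy => rw [vb_aadd, vb_badd, hx, hy]
    | smul c x _ hx => rw [vb_asmul, vb_bsmul, hx]
  exact closure_minimal hsub hcl hf

theorem fa_norm (k : ℕ) (j : Fin (2 ^ (k + 1))) (f : L4 𝕜 J) : ‖fa 𝕜 d k j f‖ ≤ ‖f‖ := by
  unfold fa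
  rw [norm_mul, norm_inv, norm_pow, RCLike.norm_ofNat]
  have h1 : ‖∑ g : Fin (2 ^ (k + 2)), ((d.τ k j g : ℝ) : 𝕜) * f ⟨k, g⟩‖ ≤
      2 ^ (k + 2) * ‖f‖ := by
    refine (norm_sum_le _ _).trans ?_
    have h2 : ∀ g ∈ (Finset.univ : Finset (Fin (2 ^ (k + 2)))),
        ‖((d.τ k j g : ℝ) : 𝕜) * f ⟨k, g⟩‖ ≤ ‖f‖ := by
      intro g _
      rw [norm_mul, RCLike.norm_ofReal]
      have h3 : |d.τ k j g| = 1 := by
        rcases (d.level k).τ_pm j g with h | h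
        · rw [h, abs_one]
        · rw [h, abs_neg, abs_one]
      rw [h3, one_mul]
      exact norm_apply_le f _
    refine (Finset.sum_le_sum h2).trans (le_of_eq ?_)
    rw [Finset.sum_const, Finset.card_univ, Fintype.card_fin, nsmul_eq_mul]
    push_cast
    ring
  have h4 : (0 : ℝ) < 2 ^ (k + 2) := by positivity
  rw [inv_mul_le_iff₀ h4]
  exact h1

/-- `beta k id = 1` (average of `fa k j (v k j) = 1` over the `2^(k+1)` indices `j`). -/
theorem beta_id (k : ℕ) : beta 𝕜 d k (ContinuousLinearMap.id 𝕜 (XD 𝕜 d)) = 1 := by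
  unfold beta
  have h1 : ∀ j : Fin (2 ^ (k + 1)),
      fa 𝕜 d k j ((ContinuousLinearMap.id 𝕜 (XD 𝕜 d)) (vX 𝕜 d k j) : L4 𝕜 J) = 1 := by
    intro j
    show fa 𝕜 d k j (v 𝕜 d k j) = 1
    rw [fa_v, if_pos rfl]
  simp_rw [h1]
  rw [Finset.sum_const, Finset.card_univ, Fintype.card_fin, nsmul_eq_mul, mul_one]
  push_cast
  exact inv_mul_cancel₀ (vb_two 𝕜 _)

/-- `beta k (T - S) = beta k T - beta k S`. -/
theorem beta_sub (k : ℕ) (T S : XD 𝕜 d →L[𝕜] XD 𝕜 d) :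
    beta 𝕜 d k (T - S) = beta 𝕜 d k T - beta 𝕜 d k S := by
  unfold beta
  rw [← mul_sub, ← Finset.sum_sub_distrib]
  congr 1
  refine Finset.sum_congr rfl fun j _ => ?_
  have h1 : (((T - S) (vX 𝕜 d k j) : XD 𝕜 d) : L4 𝕜 J) =
      (T (vX 𝕜 d k j) : L4 𝕜 J) + (-1 : 𝕜) • (S (vX 𝕜 d k j) : L4 𝕜 J) := by
    rw [ContinuousLinearMap.sub_apply, Submodule.coe_sub, neg_one_smul, sub_eq_add_neg]
  rw [h1, vb_aadd, vb_asmul]
  ring

end Pool.H30.DV
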