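import Pool.Agent.H30.DV.Basic
import Pool.Agent.H30.DV.DDef

/-!
# H30/DV/Vec: Davie's subspace of `ℓ_4`

Definitions: the index set `J`, the vectors `v k j`, the subspace `XD d`, the functionals
`fa k j`, `fb k j`, the functionals `beta k` on operators, the vectors `Phi k g`.
-/

namespace Pool.H30.DV

open Filter Topology

/-- The index set: the disjoint union of the sets `Fin (2^(k+2))`. -/
abbrev J : Type := Σ k : ℕ, Fin (2 ^ (k + 2))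

variable (𝕜 : Type) [RCLike 𝕜] (d : DD)

/-- The vector `v k j`, equal to `τ k j` on the block `k`, to `σ (k+1) j` on the block `k+1` and to
zero elsewhere. -/
noncomputable def v (k : ℕ) (j : Fin (2 ^ (k + 1))) : L4 𝕜 J :=
  ∑ g : Fin (2 ^ (k + 2)), lp.single 4 (⟨k, g⟩ : J) ((d.τ k j g : ℝ) : 𝕜) +
  ∑ g : Fin (2 ^ (k + 1 + 2)), lp.single 4 (⟨k + 1, g⟩ : J) ((d.σ (k + 1) j g : ℝ) : 𝕜)

/-- Davie's space: the closed span of the vectors `v k j`. -/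
noncomputable def XD : Submodule 𝕜 (L4 𝕜 J) :=
  (Submodule.span 𝕜 {f | ∃ (k : ℕ) (j : Fin (2 ^ (k + 1))), f = v 𝕜 d k j}).topologicalClosure

theorem v_mem (k : ℕ) (j : Fin (2 ^ (k + 1))) : v 𝕜 d k j ∈ XD 𝕜 d :=
  Submodule.le_topologicalClosure _ (Submodule.subset_span ⟨k, j, rfl⟩)

theorem XD_closed : IsClosed (XD 𝕜 d : Set (L4 𝕜 J)) :=
  Submodule.isClosed_topologicalClosure _

/-- `v k j` as an element of the space. -/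
noncomputable def vX (k : ℕ) (j : Fin (2 ^ (k + 1))) : XD 𝕜 d := ⟨v 𝕜 d k j, v_mem 𝕜 d k j⟩

/-- First formula for the coefficient functional of `v k j`. -/
noncomputable def fa (k : ℕ) (j : Fin (2 ^ (k + 1))) (f : L4 𝕜 J) : 𝕜 :=
  ((2 : 𝕜) ^ (k + 2))⁻¹ * ∑ g : Fin (2 ^ (k + 2)), ((d.τ k j g : ℝ) : 𝕜) * f ⟨k, g⟩

/-- Second formula for the coefficient functional of `v k j`. -/
noncomputable def fb (k : ℕ) (j : Fin (2 ^ (k + 1))) (f : L4 𝕜 J) : 𝕜 :=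
  ((2 : 𝕜) ^ (k + 1 + 2))⁻¹ *
    ∑ g : Fin (2 ^ (k + 1 + 2)), ((d.σ (k + 1) j g : ℝ) : 𝕜) * f ⟨k + 1, g⟩

/-- The functional `beta k` on the operators of the space. -/
noncomputable def beta (k : ℕ) (T : XD 𝕜 d →L[𝕜] XD 𝕜 d) : 𝕜 :=
  ((2 : 𝕜) ^ (k + 1))⁻¹ * ∑ j : Fin (2 ^ (k + 1)), fa 𝕜 d k j (T (vX 𝕜 d k j) : L4 𝕜 J)

/-- The vectors `Φ k g`, `g` in the block `k+1`. -/
noncomputable def Phi (k : ℕ) (g : Fin (2 ^ (k + 1 + 2))) : XD 𝕜 d :=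
  ((2 : 𝕜) ^ (k + 2))⁻¹ • ∑ j : Fin (2 ^ (k + 1 + 1)),
      ((d.τ (k + 1) j g : ℝ) : 𝕜) • vX 𝕜 d (k + 1) j -
  ((2 : 𝕜) ^ (k + 1))⁻¹ • ∑ j : Fin (2 ^ (k + 1)), ((d.σ (k + 1) j g : ℝ) : 𝕜) • vX 𝕜 d k j

/-- The bound for the norm of `Φ k g`. -/
noncomputable def cc (k : ℕ) : ℝ := 4 * (4 * k + 16) * (Real.sqrt (Real.sqrt (1 / 2))) ^ k

end Pool.H30.DV
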